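import Mathlib

set_option autoImplicit false

/-! # An average over the inputs -/

namespace Pool.Agent.H72.Hash

open Finset

open Classical in
theorem average {Ω T P : Type} [Fintype Ω] [Fintype T] [Fintype P] [Nonempty P] (μ : Ω → ℝ)
    (hμ : ∀ ω, 0 ≤ μ ω) (hμ1 : ∑ ω, μ ω = 1) (η : ℝ) (cst : Ω → P → ℝ)
    (hc : ∀ ω ρ, 0 ≤ cst ω ρ) (w : Ω → ℝ) (hw : ∀ ω, 0 ≤ w ω) (B0 : Ω → P → Prop)
    (B1 : Ω → T → P → Prop) (Sn : Ω → T → Prop)
    (h1 : ∀ ω, ((univ.filter fun τ => Sn ω τ).card : ℝ) ≤ w ω)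
    (h2 : ∀ ω ρ, ¬ B0 ω ρ → w ω ≤ cst ω ρ)
    (h3 : ∀ ω, 100 * (univ.filter fun ρ => B0 ω ρ).card ≤ Fintype.card P)
    (h4 : ∀ ω τ, 100 * (univ.filter fun ρ => B1 ω τ ρ).card ≤ Fintype.card P)
    (h5 : ∀ τ ρ, 1 - 2 * η ≤ ∑ ω, μ ω * ((if Sn ω τ then (1 : ℝ) else 0) +
      (if B0 ω ρ then (1 : ℝ) else 0) + (if B1 ω τ ρ then (1 : ℝ) else 0))) :
    ∃ ρ, 99 / 100 * ((1 - 2 * η - 1 / 50) * (Fintype.card T : ℝ)) ≤ ∑ ω, μ ω * cst ω ρ := by
  obtain ⟨p, hp⟩ : ∃ p : ℝ, p = (Fintype.card P : ℝ) := ⟨_, rfl⟩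
  obtain ⟨t, ht⟩ : ∃ t : ℝ, t = (Fintype.card T : ℝ) := ⟨_, rfl⟩
  have hp0 : 0 < p := by rw [hp]; exact_mod_cast Fintype.card_pos
  have ht0 : 0 ≤ t := by rw [ht]; positivity
  -- the cost
  have k1 : ∀ ω, 99 / 100 * (p * w ω) ≤ ∑ ρ, cst ω ρ := by
    intro ω
    have e1 : ∀ ρ, w ω - (if B0 ω ρ then w ω else 0) ≤ cst ω ρ := by
      intro ρ
      by_cases h : B0 ω ρ
      · rw [if_pos h, sub_self]; exact hc ω ρ
      · rw [if_neg h, sub_zero]; exact h2 ω ρ h
    have e2 := sum_le_sum fun ρ (_ : ρ ∈ (univ : Finset P)) => e1 ρ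
    rw [sum_sub_distrib, sum_const, ← sum_filter, sum_const, card_univ, nsmul_eq_mul,
      nsmul_eq_mul, ← hp] at e2
    have e3 : 100 * ((univ.filter fun ρ => B0 ω ρ).card : ℝ) ≤ p := by
      rw [hp]; exact_mod_cast h3 ω
    have e4 := mul_le_mul_of_nonneg_right e3 (hw ω)
    linarith
  -- the error
  have k2 : (1 - 2 * η) * (t * p) ≤ ∑ ω, μ ω * (p * w ω + 1 / 50 * (t * p)) := by
    have e1 := sum_le_sum fun τ (_ : τ ∈ (univ : Finset T)) =>
      sum_le_sum fun ρ (_ : ρ ∈ (univ : Finset P)) => h5 τ ρ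
    simp only [sum_const, card_univ, nsmul_eq_mul] at e1
    rw [← hp, ← ht] at e1
    have e2 : ∑ τ : T, ∑ ρ : P, ∑ ω, μ ω * ((if Sn ω τ then (1 : ℝ) else 0) +
        (if B0 ω ρ then (1 : ℝ) else 0) + (if B1 ω τ ρ then (1 : ℝ) else 0)) =
        ∑ ω, μ ω * (p * ((univ.filter fun τ => Sn ω τ).card : ℝ) +
          t * ((univ.filter fun ρ => B0 ω ρ).card : ℝ) +
          ∑ τ, ((univ.filter fun ρ => B1 ω τ ρ).card : ℝ)) := by
      calc _ = ∑ τ : T, ∑ ω, ∑ ρ : P, μ ω * ((if Sn ω τ then (1 : ℝ) else 0) +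
            (if B0 ω ρ then (1 : ℝ) else 0) + (if B1 ω τ ρ then (1 : ℝ) else 0)) :=
            sum_congr rfl fun τ _ => sum_comm
        _ = ∑ ω, ∑ τ : T, ∑ ρ : P, μ ω * ((if Sn ω τ then (1 : ℝ) else 0) +
            (if B0 ω ρ then (1 : ℝ) else 0) + (if B1 ω τ ρ then (1 : ℝ) else 0)) := sum_comm
        _ = _ := by
            apply sum_congr rfl
            intro ω _
            simp only [← mul_sum]
            congr 1
            simp only [sum_add_distrib, sum_const, card_univ, nsmul_eq_mul, ← hp, ← ht]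
            rw [← mul_sum]
            congr 1
            · congr 1
              · rw [← sum_filter, sum_const, nsmul_eq_mul, mul_one]
              · rw [← sum_filter, sum_const, nsmul_eq_mul, mul_one]
            · apply sum_congr rfl
              intro τ _
              rw [← sum_filter, sum_const, nsmul_eq_mul, mul_one]
    rw [e2] at e1
    calc (1 - 2 * η) * (t * p) = t * (p * (1 - 2 * η)) := by ring
      _ ≤ _ := e1
      _ ≤ _ := by
          apply sum_le_sum
          intro ω _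
          apply mul_le_mul_of_nonneg_left _ (hμ ω)
          have e3 : 100 * ((univ.filter fun ρ => B0 ω ρ).card : ℝ) ≤ p := by
            rw [hp]; exact_mod_cast h3 ω
          have e4 : ∑ τ, ((univ.filter fun ρ => B1 ω τ ρ).card : ℝ) ≤ t * (p / 100) := by
            calc _ ≤ ∑ _τ : T, p / 100 := by
                  apply sum_le_sum
                  intro τ _
                  have : 100 * ((univ.filter fun ρ => B1 ω τ ρ).card : ℝ) ≤ p := by
                    rw [hp]; exact_mod_cast h4 ω τ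
                  linarith
              _ = t * (p / 100) := by rw [sum_const, card_univ, nsmul_eq_mul, ht]
          have e5 := mul_le_mul_of_nonneg_left e3 ht0
          have e6 := mul_le_mul_of_nonneg_left (h1 ω) hp0.le
          linarith
  have k3 : ∑ ω, μ ω * (p * w ω + 1 / 50 * (t * p)) = ∑ ω, μ ω * (p * w ω) + 1 / 50 * (t * p) := by
    simp only [mul_add, sum_add_distrib]
    rw [← sum_mul, hμ1, one_mul]
  have k4 : 99 / 100 * ∑ ω, μ ω * (p * w ω) ≤ ∑ ρ, ∑ ω, μ ω * cst ω ρ := by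
    rw [mul_sum, sum_comm]
    apply sum_le_sum
    intro ω _
    rw [← mul_sum]
    have := mul_le_mul_of_nonneg_left (k1 ω) (hμ ω)
    linarith
  have k5 : ∑ _ρ : P, 99 / 100 * ((1 - 2 * η - 1 / 50) * t) ≤ ∑ ρ, ∑ ω, μ ω * cst ω ρ := by
    rw [sum_const, card_univ, nsmul_eq_mul, ← hp]
    rw [k3] at k2
    linarith
  obtain ⟨ρ, -, hρ⟩ := exists_le_of_sum_le (univ_nonempty (α := P)) k5
  exact ⟨ρ, by rw [← ht]; exact hρ⟩

open Classical in
/-- a nonzero affine form vanishes on few points of a box -/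
theorem few_bad {n R : ℕ} {V : Type} [AddCommGroup V] [Module ℝ V] (b : Fin n → V) (κ : V)
    (h : ¬ ((∀ u, b u = 0) ∧ κ = 0)) :
    R * (univ.filter fun ρ : Fin n → Fin R => ∑ u, ((ρ u : ℕ) : ℝ) • b u + κ = 0).card ≤
      Fintype.card (Fin n → Fin R) := by
  by_cases hb : ∀ u, b u = 0
  · have hκ : κ ≠ 0 := fun h1 => h ⟨hb, h1⟩
    rw [filter_false_of_mem]
    · simp
    · intro ρ _
      simp [hb, hκ]
  · push Not at hb
    obtain ⟨v, hv⟩ := hb
    have h1 : ((univ : Finset (Fin R)) ×ˢ (univ.filter fun ρ : Fin n → Fin R =>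
        ∑ u, ((ρ u : ℕ) : ℝ) • b u + κ = 0)).card ≤ (univ : Finset (Fin n → Fin R)).card := by
      apply card_le_card_of_injOn (fun s => Function.update s.2 v s.1)
      · intro s _
        simp
      · rintro ⟨s, ρ⟩ hs ⟨s', ρ'⟩ hs' he
        simp only [coe_product, coe_univ, coe_filter, mem_univ, true_and, Set.mem_prod,
          Set.mem_univ] at hs hs'
        simp only at he
        have e1 : s = s' := by
          have := congrFun he v
          simpa using this
        have e2 : ∀ u, u ≠ v → ρ u = ρ' u := by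
          intro u hu
          have := congrFun he u
          simpa [hu] using this
        have e3 : ρ v = ρ' v := by
          have hs1 : ∑ u, ((ρ u : ℕ) : ℝ) • b u + κ = 0 := hs
          have hs2 : ∑ u, ((ρ' u : ℕ) : ℝ) • b u + κ = 0 := hs'
          have e4 : ∑ u, (((ρ u : ℕ) : ℝ) - ((ρ' u : ℕ) : ℝ)) • b u = 0 := by
            have : ∑ u, (((ρ u : ℕ) : ℝ) - ((ρ' u : ℕ) : ℝ)) • b u =
                (∑ u, ((ρ u : ℕ) : ℝ) • b u + κ) - (∑ u, ((ρ' u : ℕ) : ℝ) • b u + κ) := by
              simp only [sub_smul, sum_sub_distrib]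
              abel
            rw [this, hs1, hs2, sub_zero]
          rw [sum_eq_single v] at e4
          · rcases smul_eq_zero.1 e4 with h5 | h5
            · have h6 : ((ρ v : ℕ) : ℝ) = ((ρ' v : ℕ) : ℝ) := by linarith
              exact Fin.ext (by exact_mod_cast h6)
            · exact absurd h5 hv
          · intro u _ hu
            rw [e2 u hu, sub_self, zero_smul]
          · intro h5
            exact absurd (mem_univ v) h5
        have e4 : ρ = ρ' := by
          funext u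
          by_cases hu : u = v
          · rw [hu, e3]
          · exact e2 u hu
        rw [e1, e4]
    rw [card_product, card_univ, Fintype.card_fin, card_univ] at h1
    exact h1

end Pool.Agent.H72.Hash
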