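import Pool.Agent.H72.Hash.Hard

set_option autoImplicit false
set_option linter.unusedSectionVars false

/-! # Quadratic lower bound -/

namespace Pool.Agent.H72.Hash

open Filter Finset Pool.Agent.K4H88.Ter

variable {n m : ℕ} {V : Type} [AddCommGroup V] [Module ℝ V]

theorem cost_nonneg (A : Alg n V 0) (x : Fin n → ℤ) : 0 ≤ cost A x := by
  unfold cost
  positivity

open Classical in
theorem cov_le (h : 4 * m ≤ n + 1) (hn : 2 ≤ n) (l : List (Form n V)) :
    ((univ.filter fun τ : Fin m × Fin m => Cov (lins l) (posA h τ) (posB h τ) (posC h τ)).card : ℝ) ≤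
      12 * Real.logb 2 n ^ 2 * (l.length : ℝ) := by
  have hlog : 1 ≤ Real.logb 2 n := by
    rw [Real.le_logb_iff_rpow_le (by norm_num) (by positivity)]
    simpa using (by exact_mod_cast hn : (2 : ℝ) ≤ n)
  have hA : ∀ τ, posA (n := n) h τ ∈ univ.filter fun u => kd m u = 0 := by
    intro τ; simp [(kdA h τ).1]
  have hB : ∀ τ, posB (n := n) h τ ∈ univ.filter fun u => kd m u = 1 := by
    intro τ; simp [(kdB h τ).1]
  have hC : ∀ τ, posC (n := n) h τ ∈ univ.filter fun u => kd m u = 2 := by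
    intro τ; simp [(kdC h τ).1]
  have dj : ∀ a b : Fin 3, a ≠ b → Disjoint (univ.filter fun u : Fin n => kd m u = a)
      (univ.filter fun u : Fin n => kd m u = b) := by
    intro a b hab
    rw [disjoint_filter]
    intro u _ h1 h2
    exact hab (h1.symm.trans h2)
  have ixA : ∀ s t, posA (n := n) h s = posA h t → s.1 = t.1 := by
    intro s t e
    have := congrArg Fin.val e
    exact Fin.ext (by simpa [posA] using this)
  have ixB : ∀ s t, posB (n := n) h s = posB h t → s.2 = t.2 := by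
    intro s t e
    have := congrArg Fin.val e
    exact Fin.ext (by simpa [posB] using this)
  have ixC : ∀ s t, posC (n := n) h s = posC h t → (s.1 : ℕ) + s.2 = t.1 + t.2 := by
    intro s t e
    have := congrArg Fin.val e
    simpa [posC] using this
  have h0 := card_cov (lins l) (univ.filter fun u : Fin n => kd m u = 0)
    (univ.filter fun u : Fin n => kd m u = 1) (univ.filter fun u : Fin n => kd m u = 2)
    (dj 0 1 (by decide)) (dj 0 2 (by decide)) (dj 1 2 (by decide)) (posA h) (posB h) (posC h)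
    hA hB hC (fun s t e1 e2 => Prod.ext (ixA s t e1) (ixB s t e2))
    (fun s t e1 e2 => by
      have a1 := ixA s t e1
      have a2 := ixC s t e2
      rw [a1] at a2
      exact Prod.ext a1 (Fin.ext (by omega)))
    (fun s t e1 e2 => by
      have a1 := ixB s t e1
      have a2 := ixC s t e2
      rw [a1] at a2
      exact Prod.ext (Fin.ext (by omega)) a1)
  have hl := lins_card l
  by_cases hM : l.length ≤ n ^ 2
  · by_cases hz : (lins l).card = 0
    · rw [hz] at h0
      have : (univ.filter fun τ : Fin m × Fin m =>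
          Cov (lins l) (posA h τ) (posB h τ) (posC h τ)).card = 0 := by omega
      rw [this]
      push_cast
      positivity
    · have e1 : ((Nat.log 2 (lins l).card : ℕ) : ℝ) ≤ 2 * Real.logb 2 n := by
        have e2 : Nat.log 2 (lins l).card ≤ Nat.log 2 (n ^ 2) :=
          Nat.log_mono_right (hl.trans hM)
        have e3 : ((Nat.log 2 (n ^ 2) : ℕ) : ℝ) ≤ Real.logb 2 ((n ^ 2 : ℕ) : ℝ) :=
          Real.natLog_le_logb _ _
        have e4 : Real.logb 2 ((n ^ 2 : ℕ) : ℝ) = 2 * Real.logb 2 n := by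
          push_cast
          rw [Real.logb_pow]
          norm_num
        calc ((Nat.log 2 (lins l).card : ℕ) : ℝ) ≤ ((Nat.log 2 (n ^ 2) : ℕ) : ℝ) := by
              exact_mod_cast e2
          _ ≤ _ := by rw [← e4]; exact e3
      have e5 : ((Nat.log 2 (lins l).card : ℕ) : ℝ) ^ 2 ≤ (2 * Real.logb 2 n) ^ 2 :=
        pow_le_pow_left₀ (by positivity) e1 2
      have e6 : ((lins l).card : ℝ) ≤ l.length := by exact_mod_cast hl
      have e7 : ((univ.filter fun τ : Fin m × Fin m =>
          Cov (lins l) (posA h τ) (posB h τ) (posC h τ)).card : ℝ) ≤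
          3 * ((lins l).card : ℝ) * ((Nat.log 2 (lins l).card : ℕ) : ℝ) ^ 2 := by
        exact_mod_cast h0
      calc _ ≤ _ := e7
        _ ≤ 3 * (l.length : ℝ) * (2 * Real.logb 2 n) ^ 2 := by gcongr
        _ = _ := by ring
  · push Not at hM
    have e1 : (univ.filter fun τ : Fin m × Fin m =>
        Cov (lins l) (posA h τ) (posB h τ) (posC h τ)).card ≤ n ^ 2 := by
      calc _ ≤ (univ : Finset (Fin m × Fin m)).card := card_le_card (filter_subset _ _)
        _ = m * m := by simp
        _ ≤ n * n := Nat.mul_le_mul (by omega) (by omega)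
        _ = n ^ 2 := by ring
    have e2 : ((univ.filter fun τ : Fin m × Fin m =>
        Cov (lins l) (posA h τ) (posB h τ) (posC h τ)).card : ℝ) ≤ l.length := by
      exact_mod_cast e1.trans hM.le
    have e3 : (1 : ℝ) ≤ Real.logb 2 n ^ 2 := one_le_pow₀ hlog
    have e4 : (0 : ℝ) ≤ l.length := by positivity
    nlinarith

open Classical in
/-- at most so many of the solutions are noticed -/
theorem seen_le (h : 4 * m ≤ n + 1) (hn : 2 ≤ n) (A : Alg n V 0) (x : Fin n → ℤ) :
    ((univ.filter fun τ : Fin m × Fin m => target h τ ∈ A.triples ![] x ∨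
      Cov (lins (A.forms ![] x)) (posA h τ) (posB h τ) (posC h τ)).card : ℝ) ≤ cost A x := by
  have h1 : (univ.filter fun τ : Fin m × Fin m => target h τ ∈ A.triples ![] x).card ≤
      (A.triples ![] x).card := by
    apply card_le_card_of_injOn (fun τ => target h τ)
    · intro τ hτ
      simpa using hτ
    · intro τ _ τ' _ he
      exact target_inj h he
  have h2 := cov_le h hn (A.forms ![] x)
  have h3 : (univ.filter fun τ : Fin m × Fin m => target h τ ∈ A.triples ![] x ∨
      Cov (lins (A.forms ![] x)) (posA h τ) (posB h τ) (posC h τ)).card ≤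
      (univ.filter fun τ : Fin m × Fin m => target h τ ∈ A.triples ![] x).card +
      (univ.filter fun τ : Fin m × Fin m =>
        Cov (lins (A.forms ![] x)) (posA h τ) (posB h τ) (posC h τ)).card := by
    rw [filter_or]
    exact card_union_le _ _
  have h4 : ((univ.filter fun τ : Fin m × Fin m => target h τ ∈ A.triples ![] x ∨
      Cov (lins (A.forms ![] x)) (posA h τ) (posB h τ) (posC h τ)).card : ℝ) ≤
      ((univ.filter fun τ : Fin m × Fin m => target h τ ∈ A.triples ![] x).card : ℝ) +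
      ((univ.filter fun τ : Fin m × Fin m =>
        Cov (lins (A.forms ![] x)) (posA h τ) (posB h τ) (posC h τ)).card : ℝ) := by
    exact_mod_cast h3
  have h5 : ((univ.filter fun τ : Fin m × Fin m => target h τ ∈ A.triples ![] x).card : ℝ) ≤
      ((A.triples ![] x).card : ℝ) := by exact_mod_cast h1
  unfold cost
  linarith

open Classical in
/-- **randomized computations** -/
theorem random_bound' (hn : 2 ≤ n) {Ω : Type} [Fintype Ω] (μ : Ω → ℝ) (hμ : ∀ ω, 0 ≤ μ ω)
    (hμ1 : ∑ ω, μ ω = 1) (F : Ω → Alg n V 0) (η : ℝ)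
    (herr : ∀ x : Fin n → ℤ, Function.Injective x → AtMostOne x →
      ∑ ω ∈ univ.filter (fun ω => (F ω).eval ![] x ≠ decide (HasSum3 x)), μ ω ≤ η) :
    ∃ x : Fin n → ℤ, Function.Injective x ∧ ¬ HasSum3 x ∧
      (1 - 2 * η) * ((n : ℝ) - 2) ^ 2 ≤ 16 * ∑ ω, μ ω * cost (F ω) x := by
  obtain ⟨m, hm⟩ : ∃ m, m = (n + 1) / 4 := ⟨_, rfl⟩
  have h : 4 * m ≤ n + 1 := by omega
  obtain ⟨x, y, hx, hx2, hy⟩ := hard' h F
  refine ⟨x, hx, hx2, ?_⟩
  have hx3 : AtMostOne x := by
    intro i j k i' j' k' h1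
    exact absurd ⟨i, j, k, h1⟩ hx2
  obtain ⟨Q, hQ⟩ : ∃ Q : Ω → Fin m × Fin m → Prop, ∀ ω τ, Q ω τ ↔
      (target h τ ∈ (F ω).triples ![] x ∨
        Cov (lins ((F ω).forms ![] x)) (posA h τ) (posB h τ) (posC h τ)) :=
    ⟨_, fun _ _ => Iff.rfl⟩
  -- every solution is noticed with probability at least `1 - 2 η`
  have h1 : ∀ τ, 1 - 2 * η ≤ ∑ ω, (if Q ω τ then μ ω else 0) := by
    intro τ
    obtain ⟨y1, y2, y3, y4⟩ := hy τ
    have e1 := herr x hx hx3
    have e2 := herr (y τ) y1 y3
    rw [sum_filter] at e1 e2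
    have e3 : ∀ ω, μ ω ≤ (if Q ω τ then μ ω else 0) +
        (if (F ω).eval ![] x ≠ decide (HasSum3 x) then μ ω else 0) +
        (if (F ω).eval ![] (y τ) ≠ decide (HasSum3 (y τ)) then μ ω else 0) := by
      intro ω
      have hω := hμ ω
      by_cases h3 : Q ω τ
      · rw [if_pos h3]
        have : 0 ≤ (if (F ω).eval ![] x ≠ decide (HasSum3 x) then μ ω else 0) := by
          split_ifs <;> first | exact hω | exact le_rfl
        have : 0 ≤ (if (F ω).eval ![] (y τ) ≠ decide (HasSum3 (y τ)) then μ ω else 0) := by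
          split_ifs <;> first | exact hω | exact le_rfl
        linarith
      · have h3' := h3
        rw [hQ, not_or] at h3'
        have h4 := y4 ω h3'.1 h3'.2
        rw [if_neg h3, ← h4]
        have d1 : decide (HasSum3 x) = false := by simp [hx2]
        have d2 : decide (HasSum3 (y τ)) = true := by simp [y2]
        rw [d1, d2]
        cases (F ω).eval ![] x <;> simp
    have e4 := sum_le_sum fun ω (_ : ω ∈ (univ : Finset Ω)) => e3 ω
    rw [sum_add_distrib, sum_add_distrib, hμ1] at e4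
    linarith
  have h2 := sum_le_sum fun τ (_ : τ ∈ (univ : Finset (Fin m × Fin m))) => h1 τ
  rw [sum_const, card_univ, Fintype.card_prod, Fintype.card_fin, nsmul_eq_mul, sum_comm] at h2
  have h3 : ∀ ω, ∑ τ, (if Q ω τ then μ ω else 0) ≤ μ ω * cost (F ω) x := by
    intro ω
    rw [← sum_filter, sum_const, nsmul_eq_mul, mul_comm]
    apply mul_le_mul_of_nonneg_left _ (hμ ω)
    have h4 := seen_le h hn (F ω) x
    have h5 : univ.filter (Q ω) = univ.filter fun τ : Fin m × Fin m =>
        target h τ ∈ (F ω).triples ![] x ∨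
        Cov (lins ((F ω).forms ![] x)) (posA h τ) (posB h τ) (posC h τ) :=
      filter_congr fun τ _ => hQ ω τ
    rw [h5]
    exact h4
  have h4 := h2.trans (sum_le_sum fun ω _ => h3 ω)
  have h5 := half hn hm
  push_cast at h4
  have h6 : 0 ≤ ∑ ω, μ ω * cost (F ω) x :=
    sum_nonneg fun ω _ => mul_nonneg (hμ ω) (cost_nonneg _ _)
  by_cases h7 : 0 ≤ 1 - 2 * η
  · have h8 := mul_le_mul_of_nonneg_left h5 h7
    nlinarith
  · have h8 : (1 - 2 * η) * ((n : ℝ) - 2) ^ 2 ≤ 0 :=
      mul_nonpos_of_nonpos_of_nonneg (by linarith) (sq_nonneg _)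
    linarith

/-- **nondeterministic computations** -/
theorem cert_bound' (hn : 2 ≤ n) {Ω : Type} [Fintype Ω] (F : Ω → Alg n V 0)
    (hF : ∀ x : Fin n → ℤ, Function.Injective x → AtMostOne x →
      ((∃ ω, (F ω).eval ![] x = false) ↔ ¬ HasSum3 x)) :
    ∃ x : Fin n → ℤ, Function.Injective x ∧ ¬ HasSum3 x ∧ ∀ ω, (F ω).eval ![] x = false →
      ((n : ℝ) - 2) ^ 2 ≤ 16 * cost (F ω) x := by
  classical
  obtain ⟨m, hm⟩ : ∃ m, m = (n + 1) / 4 := ⟨_, rfl⟩
  have h : 4 * m ≤ n + 1 := by omega
  obtain ⟨x, y, hx, hx2, hy⟩ := hard' h F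
  refine ⟨x, hx, hx2, fun ω hω => ?_⟩
  have h1 : ∀ τ, target h τ ∈ (F ω).triples ![] x ∨
      Cov (lins ((F ω).forms ![] x)) (posA h τ) (posB h τ) (posC h τ) := by
    intro τ
    obtain ⟨y1, y2, y3, y4⟩ := hy τ
    by_contra h3
    rw [not_or] at h3
    have h4 := y4 ω h3.1 h3.2
    rw [hω] at h4
    exact ((hF (y τ) y1 y3).1 ⟨ω, h4.symm⟩) y2
  have h2 := seen_le h hn (F ω) x
  rw [filter_true_of_mem (fun τ _ => h1 τ), card_univ, Fintype.card_prod, Fintype.card_fin] at h2
  push_cast at h2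
  have h5 := half hn hm
  nlinarith

end Pool.Agent.H72.Hash
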