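import Mathlib

set_option autoImplicit false

/-!
# Pairs of vectors which differ in one coordinate only

Let `U` be a finite set of vectors. A coordinate `i` is a label of `u ∈ U` if some other vector in
`U` differs from `u` in the coordinate `i` only. Some `u ∈ U` has at most `log₂ |U|` labels: if `U`
has more than one element, two elements differ in a coordinate `i`; take the vectors with one of
these two values at `i`, at most half of `U`; for a vector of this set the only new label in `U` is
`i`. Removing such vectors one after the other, we can assign to every vector `u` of `U` a set of at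
most `log₂ |U|` coordinates such that, if `u`, `v` differ in the coordinate `i` only, then `i` is in
the set of `u` or in the set of `v`.
-/

namespace Pool.Agent.H72.Hash

open Finset

section cube

variable {ι V : Type}

/-- `u` and `v` are different, but they agree in all coordinates other than `i`. -/
def OffBy (i : ι) (u v : ι → V) : Prop := u ≠ v ∧ ∀ j, j ≠ i → u j = v j

open Classical in
/-- the labels of `u` in `U` -/
noncomputable def labels [Fintype ι] (U : Finset (ι → V)) (u : ι → V) : Finset ι :=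
  univ.filter fun i => ∃ v ∈ U, OffBy i u v

open Classical in
theorem exists_few [Fintype ι] : ∀ (k : ℕ) (U : Finset (ι → V)), U.card = k → U.Nonempty →
    ∃ u ∈ U, (labels U u).card ≤ Nat.log 2 U.card := by
  intro k
  induction k using Nat.strong_induction_on with
  | _ k ih =>
    intro U hk hU
    by_cases h1 : ∃ u ∈ U, ∃ v ∈ U, u ≠ v
    · obtain ⟨u₁, hu₁, u₂, hu₂, hne⟩ := h1
      obtain ⟨i, hi⟩ : ∃ i, u₁ i ≠ u₂ i := by
        by_contra h2
        push Not at h2
        exact hne (funext h2)
      have key : ∃ c : V, (U.filter fun u => u i = c).Nonempty ∧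
          2 * (U.filter fun u => u i = c).card ≤ U.card := by
        have hd : Disjoint (U.filter fun u => u i = u₁ i) (U.filter fun u => u i = u₂ i) := by
          rw [disjoint_filter]
          intro u _ h3 h4
          exact hi (h3.symm.trans h4)
        have hs : (U.filter fun u => u i = u₁ i).card + (U.filter fun u => u i = u₂ i).card ≤
            U.card := by
          rw [← card_union_of_disjoint hd]
          exact card_le_card (union_subset (filter_subset _ _) (filter_subset _ _))
        rcases le_total (U.filter fun u => u i = u₁ i).card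
          (U.filter fun u => u i = u₂ i).card with h3 | h3
        · exact ⟨u₁ i, ⟨u₁, mem_filter.2 ⟨hu₁, rfl⟩⟩, by omega⟩
        · exact ⟨u₂ i, ⟨u₂, mem_filter.2 ⟨hu₂, rfl⟩⟩, by omega⟩
      obtain ⟨c, hc1, hc2⟩ := key
      have hpos : 0 < (U.filter fun u => u i = c).card := hc1.card_pos
      obtain ⟨u, hu, hu2⟩ := ih _ (by omega) (U.filter fun u => u i = c) rfl hc1
      refine ⟨u, (mem_filter.1 hu).1, ?_⟩
      have hsub : labels U u ⊆ insert i (labels (U.filter fun u => u i = c) u) := by
        intro j hj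
        rw [labels, mem_filter] at hj
        obtain ⟨-, v, hv, hv2⟩ := hj
        rw [mem_insert]
        by_cases hji : j = i
        · exact Or.inl hji
        · refine Or.inr ?_
          rw [labels, mem_filter]
          refine ⟨mem_univ _, v, mem_filter.2 ⟨hv, ?_⟩, hv2⟩
          rw [← hv2.2 i (Ne.symm hji)]
          exact (mem_filter.1 hu).2
      have h4 : (labels U u).card ≤ (labels (U.filter fun u => u i = c) u).card + 1 :=
        (card_le_card hsub).trans (card_insert_le _ _)
      have h5 : Nat.log 2 (U.filter fun u => u i = c).card + 1 ≤ Nat.log 2 U.card := by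
        have h6 : Nat.log 2 ((U.filter fun u => u i = c).card * 2) =
            Nat.log 2 (U.filter fun u => u i = c).card + 1 :=
          Nat.log_mul_base (by norm_num) hpos.ne'
        rw [← h6]
        exact Nat.log_mono_right (by omega)
      omega
    · obtain ⟨u, hu⟩ := hU
      refine ⟨u, hu, ?_⟩
      have : labels U u = ∅ := by
        rw [labels, filter_eq_empty_iff]
        rintro i - ⟨v, hv, hv2⟩
        exact h1 ⟨u, hu, v, hv, hv2.1⟩
      rw [this]
      simp

open Classical in
/-- the sets of coordinates which are assigned to the vectors -/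
theorem exists_lab [Fintype ι] : ∀ (k : ℕ) (U : Finset (ι → V)), U.card = k →
    ∃ Lab : (ι → V) → Finset ι, (∀ u ∈ U, (Lab u).card ≤ Nat.log 2 U.card) ∧
      ∀ u ∈ U, ∀ v ∈ U, ∀ i, OffBy i u v → i ∈ Lab u ∨ i ∈ Lab v := by
  intro k
  induction k with
  | zero =>
    intro U hk
    rw [card_eq_zero] at hk
    subst hk
    exact ⟨fun _ => ∅, by simp, by simp⟩
  | succ k ih =>
    intro U hk
    have hU : U.Nonempty := by
      rw [← card_pos]; omega
    obtain ⟨u, hu, hu2⟩ := exists_few _ U rfl hU
    obtain ⟨Lab, h1, h2⟩ := ih (U.erase u) (by rw [card_erase_of_mem hu]; omega)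
    refine ⟨fun w => if w = u then labels U u else Lab w, ?_, ?_⟩
    · intro w hw
      by_cases hwu : w = u
      · simp only [hwu, if_true]
        exact hu2
      · simp only [hwu, if_false]
        exact (h1 w (mem_erase.2 ⟨hwu, hw⟩)).trans
          (Nat.log_mono_right (card_le_card (erase_subset _ _)))
    · intro w hw v hv i hi
      by_cases hwu : w = u
      · left
        simp only [hwu, if_true]
        rw [labels, mem_filter]
        exact ⟨mem_univ _, v, hv, hwu ▸ hi⟩
      · by_cases hvu : v = u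
        · right
          simp only [hvu, if_true]
          rw [labels, mem_filter]
          subst hvu
          exact ⟨mem_univ _, w, hw, hi.1.symm, fun j hj => (hi.2 j hj).symm⟩
        · simp only [hwu, hvu, if_false]
          exact h2 w (mem_erase.2 ⟨hwu, hw⟩) v (mem_erase.2 ⟨hvu, hv⟩) i hi

end cube

section count

variable {ι T V : Type} [Fintype ι] [DecidableEq ι] [Fintype T] [AddCommGroup V] [Module ℝ V]

/-- the coefficients of `x_i + x_j - x_k` -/
def tri (i j k : ι) (u : ι) : ℝ :=
  (if u = i then 1 else 0) + (if u = j then 1 else 0) - (if u = k then 1 else 0)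

/-- the difference of two of the vectors is a nonzero multiple of `x_i + x_j - x_k` -/
def Cov (F : Finset (ι → V)) (i j k : ι) : Prop :=
  ∃ f ∈ F, ∃ g ∈ F, ∃ c : V, c ≠ 0 ∧ ∀ u, f u - g u = tri i j k u • c

open Classical in
/-- the restriction to a block -/
noncomputable def res (B : Finset ι) (f : ι → V) : ι → V := fun u => if u ∈ B then f u else 0

omit [Module ℝ V] in
open Classical in
theorem lab_block (F : Finset (ι → V)) (B : Finset ι) :
    ∃ Lab : (ι → V) → Finset ι, (∀ f ∈ F, (Lab f).card ≤ Nat.log 2 F.card) ∧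
      ∀ f ∈ F, ∀ g ∈ F, ∀ i ∈ B, f i ≠ g i → (∀ u ∈ B, u ≠ i → f u = g u) →
        i ∈ Lab f ∨ i ∈ Lab g := by
  obtain ⟨Lab, h1, h2⟩ := exists_lab _ (F.image (res B)) rfl
  refine ⟨fun f => Lab (res B f), ?_, ?_⟩
  · intro f hf
    exact (h1 _ (mem_image_of_mem _ hf)).trans (Nat.log_mono_right card_image_le)
  · intro f hf g hg i hi hne hoff
    refine h2 _ (mem_image_of_mem _ hf) _ (mem_image_of_mem _ hg) i ⟨?_, ?_⟩
    · intro h3
      have h4 := congrFun h3 i
      simp only [res, hi, if_true] at h4
      exact hne h4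
    · intro u hu
      unfold res
      split_ifs with h3
      · exact hoff u h3 hu
      · rfl

omit [Fintype ι] [DecidableEq ι] [Fintype T] in
theorem card_two (W : Finset T) (p q : T → ι) (hpq : ∀ s t, p s = p t → q s = q t → s = t)
    (S R : Finset ι) (h : ∀ t ∈ W, p t ∈ S ∧ q t ∈ R) (L : ℕ) (hS : S.card ≤ L)
    (hR : R.card ≤ L) : W.card ≤ L ^ 2 := by
  have h1 : W.card ≤ (S ×ˢ R).card := by
    apply card_le_card_of_injOn (fun t => (p t, q t))
    · intro t ht
      rw [mem_coe] at ht
      rw [mem_coe, mem_product]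
      exact h t ht
    · intro s _ t _ hst
      rw [Prod.mk.injEq] at hst
      exact hpq s t hst.1 hst.2
  rw [card_product] at h1
  exact h1.trans (by rw [sq]; exact Nat.mul_le_mul hS hR)

open Classical in
/-- **`M` linear forms have at most `3 M (log₂ M) ^ 2` differences of the kind `x_i + x_j - x_k`**,
if two of `i`, `j`, `k` determine the third. -/
theorem card_cov (F : Finset (ι → V)) (A B C : Finset ι) (hAB : Disjoint A B)
    (hAC : Disjoint A C) (hBC : Disjoint B C) (pA pB pC : T → ι) (hA : ∀ t, pA t ∈ A)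
    (hB : ∀ t, pB t ∈ B) (hC : ∀ t, pC t ∈ C) (h1 : ∀ s t, pA s = pA t → pB s = pB t → s = t)
    (h2 : ∀ s t, pA s = pA t → pC s = pC t → s = t)
    (h3 : ∀ s t, pB s = pB t → pC s = pC t → s = t) :
    (univ.filter fun t => Cov F (pA t) (pB t) (pC t)).card ≤
      3 * F.card * Nat.log 2 F.card ^ 2 := by
  obtain ⟨LA, a1, a2⟩ := lab_block F A
  obtain ⟨LB, b1, b2⟩ := lab_block F B
  obtain ⟨LC, c1, c2⟩ := lab_block F C
  obtain ⟨Q, hQ⟩ : ∃ Q : (ι → V) → T → Prop, ∀ f t, Q f t ↔
      (pA t ∈ LA f ∧ pB t ∈ LB f) ∨ (pA t ∈ LA f ∧ pC t ∈ LC f) ∨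
      (pB t ∈ LB f ∧ pC t ∈ LC f) := ⟨_, fun _ _ => Iff.rfl⟩
  have key : ∀ t, Cov F (pA t) (pB t) (pC t) → ∃ f ∈ F, Q f t := by
    rintro t ⟨f, hf, g, hg, c, hc, hfg⟩
    have nAB : pA t ≠ pB t := fun h => disjoint_left.1 hAB (hA t) (h ▸ hB t)
    have nAC : pA t ≠ pC t := fun h => disjoint_left.1 hAC (hA t) (h ▸ hC t)
    have nBC : pB t ≠ pC t := fun h => disjoint_left.1 hBC (hB t) (h ▸ hC t)
    have eA : pA t ∈ LA f ∨ pA t ∈ LA g := by
      apply a2 f hf g hg _ (hA t)
      · intro h0
        have h4 := hfg (pA t)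
        rw [h0, sub_self] at h4
        simp [tri, nAB, nAC] at h4
        exact hc h4.symm
      · intro u hu hne
        have h4 := hfg u
        have m1 : u ≠ pB t := fun h => disjoint_left.1 hAB hu (h ▸ hB t)
        have m2 : u ≠ pC t := fun h => disjoint_left.1 hAC hu (h ▸ hC t)
        simp [tri, hne, m1, m2] at h4
        exact sub_eq_zero.1 h4
    have eB : pB t ∈ LB f ∨ pB t ∈ LB g := by
      apply b2 f hf g hg _ (hB t)
      · intro h0
        have h4 := hfg (pB t)
        rw [h0, sub_self] at h4
        simp [tri, nAB.symm, nBC] at h4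
        exact hc h4.symm
      · intro u hu hne
        have h4 := hfg u
        have m1 : u ≠ pA t := fun h => disjoint_left.1 hAB (hA t) (h ▸ hu)
        have m2 : u ≠ pC t := fun h => disjoint_left.1 hBC hu (h ▸ hC t)
        simp [tri, hne, m1, m2] at h4
        exact sub_eq_zero.1 h4
    have eC : pC t ∈ LC f ∨ pC t ∈ LC g := by
      apply c2 f hf g hg _ (hC t)
      · intro h0
        have h4 := hfg (pC t)
        rw [h0, sub_self] at h4
        simp [tri, nAC.symm, nBC.symm] at h4
        exact hc h4
      · intro u hu hne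
        have h4 := hfg u
        have m1 : u ≠ pA t := fun h => disjoint_left.1 hAC (hA t) (h ▸ hu)
        have m2 : u ≠ pB t := fun h => disjoint_left.1 hBC (hB t) (h ▸ hu)
        simp [tri, hne, m1, m2] at h4
        exact sub_eq_zero.1 h4
    have : Q f t ∨ Q g t := by
      rw [hQ, hQ]
      tauto
    rcases this with h | h
    · exact ⟨f, hf, h⟩
    · exact ⟨g, hg, h⟩
  have hsub : (univ.filter fun t => Cov F (pA t) (pB t) (pC t)) ⊆
      F.biUnion fun f => univ.filter (Q f) := by
    intro t ht
    rw [mem_filter] at ht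
    obtain ⟨f, hf, hq⟩ := key t ht.2
    rw [mem_biUnion]
    exact ⟨f, hf, mem_filter.2 ⟨mem_univ _, hq⟩⟩
  have hcard : ∀ f ∈ F, (univ.filter (Q f)).card ≤ 3 * Nat.log 2 F.card ^ 2 := by
    intro f hf
    obtain ⟨W1, hW1⟩ : ∃ W : Finset T, ∀ t, t ∈ W ↔ (pA t ∈ LA f ∧ pB t ∈ LB f) :=
      ⟨univ.filter fun t => pA t ∈ LA f ∧ pB t ∈ LB f, by simp⟩
    obtain ⟨W2, hW2⟩ : ∃ W : Finset T, ∀ t, t ∈ W ↔ (pA t ∈ LA f ∧ pC t ∈ LC f) :=
      ⟨univ.filter fun t => pA t ∈ LA f ∧ pC t ∈ LC f, by simp⟩
    obtain ⟨W3, hW3⟩ : ∃ W : Finset T, ∀ t, t ∈ W ↔ (pB t ∈ LB f ∧ pC t ∈ LC f) :=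
      ⟨univ.filter fun t => pB t ∈ LB f ∧ pC t ∈ LC f, by simp⟩
    have e1 := card_two W1 pA pB h1 (LA f) (LB f) (fun t h => (hW1 t).1 h) _ (a1 f hf) (b1 f hf)
    have e2 := card_two W2 pA pC h2 (LA f) (LC f) (fun t h => (hW2 t).1 h) _ (a1 f hf) (c1 f hf)
    have e3 := card_two W3 pB pC h3 (LB f) (LC f) (fun t h => (hW3 t).1 h) _ (b1 f hf) (c1 f hf)
    have hs : univ.filter (Q f) ⊆ W1 ∪ (W2 ∪ W3) := by
      intro t ht
      have h5 := (hQ f t).1 (mem_filter.1 ht).2
      rw [mem_union, mem_union, hW1, hW2, hW3]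
      exact h5
    have e4 := card_le_card hs
    have e5 := card_union_le W1 (W2 ∪ W3)
    have e6 := card_union_le W2 W3
    omega
  calc _ ≤ _ := card_le_card hsub
    _ ≤ F.card * (3 * Nat.log 2 F.card ^ 2) := card_biUnion_le_card_mul _ _ _ hcard
    _ = 3 * F.card * Nat.log 2 F.card ^ 2 := by ring

end count

end Pool.Agent.H72.Hash
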