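import Pool.Graph.R_pool_sql_team_seeded_c8625f6e.K4H88.Ter.Defs

set_option autoImplicit false

/-!
# Computations which look at three numbers at a time, and hash linear forms of all the numbers
-/

namespace Pool.Agent.H72.Hash

open Finset Pool.Agent.K4H88.Ter

/-- A form `x_1 a_1 + ... + x_n a_n + b` in `n` variables, whose coefficients `a_i`, `b` are
vectors: the pair of the list of the `a_i` and `b`. For example, if `V` is the space of the lists of
`d` real numbers, it consists of `d` affine forms with real coefficients. -/
abbrev Form (n : ℕ) (V : Type) : Type := (Fin n → V) × V

/-- The value of a form at a list of integers. -/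
noncomputable def Form.val {n : ℕ} {V : Type} [AddCommGroup V] [Module ℝ V] (f : Form n V)
    (x : Fin n → ℤ) : V := ∑ u, (x u : ℝ) • f.1 u + f.2

/-- `Alg n V k` is the type of the computations (decision trees) for lists of `n` integers which can
be carried out when a table already contains the values of `k` forms.

* An inner node `test p r P child` looks at the three numbers at the places `p 0`, `p 1`, `p 2`
  (they may coincide), and it branches according to the signs of the values of finitely many
  polynomials `P j` with real coefficients, in three variables, at these three numbers.
* An inner node `residues M child` branches according to the residues of all the `n` numbers modulo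
  `M + 1`.
* An inner node `store f child` computes the value of the form `f`, puts it into the table, and
  branches according to the set of the earlier values in the table which are equal to it. -/
inductive Alg (n : ℕ) (V : Type) : ℕ → Type
  | leaf {k : ℕ} : Bool → Alg n V k
  | test {k : ℕ} : (p : Fin 3 → Fin n) → (r : ℕ) → (P : Fin r → MvPolynomial (Fin 3) ℝ) →
      (child : (Fin r → SignType) → Alg n V k) → Alg n V k
  | residues {k : ℕ} : (M : ℕ) → (child : (Fin n → ZMod (M + 1)) → Alg n V k) → Alg n V k
  | store {k : ℕ} : (f : Form n V) → (child : (Fin k → Bool) → Alg n V (k + 1)) → Alg n V k

namespace Alg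

variable {n : ℕ} {V : Type} [AddCommGroup V] [Module ℝ V]

open Classical in
/-- The answer of the computation for the input `x`, if `v` is the list of the values which are
already in the table. -/
noncomputable def eval : {k : ℕ} → Alg n V k → (Fin k → V) → (Fin n → ℤ) → Bool
  | _, leaf b, _, _ => b
  | _, test p _ P child, v, x => (child (signs p P x)).eval v x
  | _, residues _ child, v, x => (child (fun u => (x u : ZMod _))).eval v x
  | _, store f child, v, x =>
      (child (fun j => decide (v j = f.val x))).eval (Fin.snoc v (f.val x)) x

open Classical in
/-- The sets of three different places which are looked at together by one of the tests of the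
computation for the input `x`. -/
noncomputable def triples : {k : ℕ} → Alg n V k → (Fin k → V) → (Fin n → ℤ) →
    Finset (Finset (Fin n))
  | _, leaf _, _, _ => ∅
  | _, test p _ P child, v, x =>
      if (univ.image p).card = 3 then insert (univ.image p) ((child (signs p P x)).triples v x)
      else (child (signs p P x)).triples v x
  | _, residues _ child, v, x => (child (fun u => (x u : ZMod _))).triples v x
  | _, store f child, v, x =>
      (child (fun j => decide (v j = f.val x))).triples (Fin.snoc v (f.val x)) x

open Classical in
/-- The list of the forms whose values are put into the table by the computation for the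
input `x`. -/
noncomputable def forms : {k : ℕ} → Alg n V k → (Fin k → V) → (Fin n → ℤ) → List (Form n V)
  | _, leaf _, _, _ => []
  | _, test p _ P child, v, x => (child (signs p P x)).forms v x
  | _, residues _ child, v, x => (child (fun u => (x u : ZMod _))).forms v x
  | _, store f child, v, x =>
      f :: (child (fun j => decide (v j = f.val x))).forms (Fin.snoc v (f.val x)) x

/-- The tests only look at the signs of integral combinations `c_0 a + c_1 b + c_2 c + d` of three
numbers, with coefficients of absolute value at most `K`, and the residues are taken modulo
divisors of `q`. -/
def Small (K q : ℕ) : {k : ℕ} → Alg n V k → Prop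
  | _, leaf _ => True
  | _, test _ _ P child => (∀ j, ∃ (c : Fin 3 → ℤ) (d : ℤ), (∀ i, |c i| ≤ K) ∧ |d| ≤ K ∧
      P j = ∑ i, MvPolynomial.C (c i : ℝ) * MvPolynomial.X i + MvPolynomial.C (d : ℝ)) ∧
      ∀ σ, (child σ).Small K q
  | _, residues M child => (M + 1) ∣ q ∧ ∀ σ, (child σ).Small K q
  | _, store _ child => ∀ σ, (child σ).Small K q

end Alg

/-- The cost of a computation for `n ≥ 2` numbers: the number of the triples of places which are
looked at, plus `12 (log₂ n) ^ 2` times the number of the values which are put into the table. -/
noncomputable def cost {n : ℕ} {V : Type} [AddCommGroup V] [Module ℝ V] (A : Alg n V 0)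
    (x : Fin n → ℤ) : ℝ :=
  ((A.triples ![] x).card : ℝ) + 12 * Real.logb 2 n ^ 2 * ((A.forms ![] x).length : ℝ)

end Pool.Agent.H72.Hash
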