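import Pool.Agent.H72.Hash.Run

set_option autoImplicit false
set_option linter.unusedSectionVars false

/-! # The hard inputs -/

namespace Pool.Agent.H72.Hash

open Filter Finset Pool.Agent.K4H88.Ter

variable {n m : ℕ} {V : Type} [AddCommGroup V] [Module ℝ V]

theorem inj_ev' (e : Fin 3 → ℤ → ℤ) (r : Fin n → ℤ) :
    ∀ᶠ a in L, Function.Injective (fun u => inp m e a u + r u) := by
  have h1 : ∀ᶠ a in L, ∀ u v : Fin n, u ≠ v → inp m e a u + r u ≠ inp m e a v + r v := by
    rw [eventually_all]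
    intro u
    rw [eventually_all]
    intro v
    by_cases huv : u = v
    · exact Eventually.of_forall fun _ h => absurd huv h
    have := lin' (va (kd m u) - va (kd m v) : ℤ) (vb (kd m u) - vb (kd m v) : ℤ)
      (ix m u - ix m v : ℤ) (e (kd m u) (ix m u) - e (kd m v) (ix m v) : ℤ) (r u - r v : ℤ) (by
        rintro ⟨h1, h2, h3, -, -⟩
        have h1' : va (kd m u) - va (kd m v) = 0 := by exact_mod_cast h1
        have h2' : vb (kd m u) - vb (kd m v) = 0 := by exact_mod_cast h2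
        have h3' : ix m u - ix m v = 0 := by exact_mod_cast h3
        exact huv (kd_ix_inj (m := m) (kinds2 (by linarith) (by linarith)) (by linarith)))
    filter_upwards [this] with a ha _ hxy
    apply ha
    have e1 : ((inp m e a u + r u : ℤ) : ℝ) = ((inp m e a v + r v : ℤ) : ℝ) := by rw [hxy]
    simp only [inp] at e1
    push_cast at e1 ⊢
    linarith
  filter_upwards [h1] with a ha u v huv
  by_contra hne
  exact ha u v hne huv

theorem sol_ev' (e : Fin 3 → ℤ → ℤ) (r : Fin n → ℤ) : ∀ᶠ a in L, ∀ u v w : Fin n,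
    (inp m e a u + r u) + (inp m e a v + r v) = inp m e a w + r w →
      ((kd m u = 0 ∧ kd m v = 1 ∧ kd m w = 2) ∨ (kd m u = 1 ∧ kd m v = 0 ∧
      kd m w = 2)) ∧ ix m u + ix m v = ix m w ∧
      e (kd m u) (ix m u) + e (kd m v) (ix m v) = e (kd m w) (ix m w) := by
  rw [eventually_all]
  intro u
  rw [eventually_all]
  intro v
  rw [eventually_all]
  intro w
  by_cases h : va (kd m u) + va (kd m v) - va (kd m w) = 0 ∧ vb (kd m u) + vb (kd m v) -
    vb (kd m w) = 0 ∧ ix m u + ix m v - ix m w = 0 ∧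
      e (kd m u) (ix m u) + e (kd m v) (ix m v) - e (kd m w) (ix m w) = 0
  · refine Eventually.of_forall fun a _ => ⟨kinds (by linarith [h.1]) (by linarith [h.2.1]), ?_, ?_⟩
    · linarith [h.2.2.1]
    · linarith [h.2.2.2]
  · have := lin' (va (kd m u) + va (kd m v) - va (kd m w) : ℤ)
      (vb (kd m u) + vb (kd m v) - vb (kd m w) : ℤ) (ix m u + ix m v - ix m w : ℤ)
      (e (kd m u) (ix m u) + e (kd m v) (ix m v) - e (kd m w) (ix m w) : ℤ)
      (r u + r v - r w : ℤ) (by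
        rintro ⟨h1, h2, h3, h4, -⟩
        exact h ⟨by exact_mod_cast h1, by exact_mod_cast h2, by exact_mod_cast h3,
          by exact_mod_cast h4⟩)
    filter_upwards [this] with a ha hxy
    exfalso
    apply ha
    have e1 : (((inp m e a u + r u) + (inp m e a v + r v) : ℤ) : ℝ) =
        ((inp m e a w + r w : ℤ) : ℝ) := by rw [hxy]
    simp only [inp] at e1
    push_cast at e1 ⊢
    linarith

theorem no_sol' (r : Fin n → ℤ) : ∀ᶠ a in L, ¬ HasSum3 (fun u => x0 (n := n) m a u + r u) := by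
  filter_upwards [sol_ev' (n := n) (m := m) e0 r] with a ha
  rintro ⟨u, v, w, -, -, -, h⟩
  obtain ⟨h1, h2, h3⟩ := ha u v w h
  rcases h1 with ⟨a1, a2, a3⟩ | ⟨a1, a2, a3⟩
  · rw [a1, a2, a3, ← h2] at h3
    simp only [e0, Matrix.cons_val_zero, Matrix.cons_val_one, Matrix.cons_val] at h3
    nlinarith [sq_nonneg (ix m u - ix m v), sq_nonneg (ix m u + ix m v)]
  · rw [a1, a2, a3, ← h2] at h3
    simp only [e0, Matrix.cons_val_zero, Matrix.cons_val_one, Matrix.cons_val] at h3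
    nlinarith [sq_nonneg (ix m u - ix m v), sq_nonneg (ix m u + ix m v)]

theorem has_sol' (h : 4 * m ≤ n + 1) (τ : Fin m × Fin m) (a : ℕ × ℕ × ℕ × ℕ) (N t : ℕ) :
    IsSol (fun u => x1 m τ a u + pe' N t (posA h τ) (posB h τ) (posC h τ) u)
      (posA h τ) (posB h τ) (posC h τ) := by
  obtain ⟨h1, h2, h3, h4⟩ := has_sol h τ a
  refine ⟨h1, h2, h3, ?_⟩
  simp only [pe', h2, h3, if_true, if_false]
  linarith

theorem one_sol' (h : 4 * m ≤ n + 1) (τ : Fin m × Fin m) (r : Fin n → ℤ) :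
    ∀ᶠ a in L, AtMostOne (fun u => x1 (n := n) m τ a u + r u) := by
  filter_upwards [sol_ev' (n := n) (m := m) (e1 (τ.1 : ℕ) (τ.2 : ℕ)) r] with a ha
  have key : ∀ u v w : Fin n, IsSol (fun u => x1 m τ a u + r u) u v w → w = posC h τ ∧
      ((u = posA h τ ∧ v = posB h τ) ∨ (u = posB h τ ∧ v = posA h τ)) := by
    rintro u v w ⟨-, -, -, h0⟩
    obtain ⟨h1, h2, h3⟩ := ha u v w h0
    have aux : ∀ i j k i₀ j₀ : ℤ, i + j = k →
        4 * (i - i₀) ^ 2 + 4 * (j - j₀) ^ 2 = (k - i₀ - j₀) ^ 2 → i = i₀ ∧ j = j₀ ∧ k = i₀ + j₀ := by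
      intro i j k i₀ j₀ hk hq
      rw [← hk] at hq
      have h5 : 2 * ((i - i₀) ^ 2 + (j - j₀) ^ 2) + ((i - i₀) - (j - j₀)) ^ 2 = 0 := by linarith
      have h6 : (i - i₀) ^ 2 = 0 := by
        nlinarith [sq_nonneg (i - i₀), sq_nonneg (j - j₀), sq_nonneg ((i - i₀) - (j - j₀))]
      have h7 : (j - j₀) ^ 2 = 0 := by
        nlinarith [sq_nonneg (i - i₀), sq_nonneg (j - j₀), sq_nonneg ((i - i₀) - (j - j₀))]
      have h8 : i - i₀ = 0 := by simpa using h6
      have h9 : j - j₀ = 0 := by simpa using h7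
      exact ⟨by linarith, by linarith, by linarith⟩
    rcases h1 with ⟨a1, a2, a3⟩ | ⟨a1, a2, a3⟩
    · rw [a1, a2, a3] at h3
      simp only [e1, Matrix.cons_val_zero, Matrix.cons_val_one, Matrix.cons_val] at h3
      obtain ⟨h4, h5, h6⟩ := aux _ _ _ _ _ h2 h3
      exact ⟨kd_ix_inj (m := m) (by rw [a3, (kdC h τ).1]) (by rw [h6, (kdC h τ).2]),
        Or.inl ⟨kd_ix_inj (m := m) (by rw [a1, (kdA h τ).1]) (by rw [h4, (kdA h τ).2]),
          kd_ix_inj (m := m) (by rw [a2, (kdB h τ).1]) (by rw [h5, (kdB h τ).2])⟩⟩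
    · rw [a1, a2, a3] at h3
      simp only [e1, Matrix.cons_val_zero, Matrix.cons_val_one, Matrix.cons_val] at h3
      obtain ⟨h4, h5, h6⟩ := aux (ix m v) (ix m u) (ix m w) (τ.1 : ℕ) (τ.2 : ℕ) (by linarith)
        (by linarith)
      exact ⟨kd_ix_inj (m := m) (by rw [a3, (kdC h τ).1]) (by rw [h6, (kdC h τ).2]),
        Or.inr ⟨kd_ix_inj (m := m) (by rw [a1, (kdB h τ).1]) (by rw [h5, (kdB h τ).2]),
          kd_ix_inj (m := m) (by rw [a2, (kdA h τ).1]) (by rw [h4, (kdA h τ).2])⟩⟩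
  intro i j k i' j' k' h1 h2
  obtain ⟨b1, b2⟩ := key i j k h1
  obtain ⟨b3, b4⟩ := key i' j' k' h2
  refine ⟨b1.trans b3.symm, ?_⟩
  rcases b2 with ⟨b2, b2'⟩ | ⟨b2, b2'⟩ <;> rcases b4 with ⟨b4, b4'⟩ | ⟨b4, b4'⟩
  · exact Or.inl ⟨b2.trans b4.symm, b2'.trans b4'.symm⟩
  · exact Or.inr ⟨b2.trans b4'.symm, b2'.trans b4.symm⟩
  · exact Or.inr ⟨b2.trans b4'.symm, b2'.trans b4.symm⟩
  · exact Or.inl ⟨b2.trans b4.symm, b2'.trans b4'.symm⟩

theorem same_ev' (h : 4 * m ≤ n + 1) (τ : Fin m × Fin m) (N : ℕ) (hN : 0 < N) (r r' : Fin n → ℤ)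
    (hr : ∀ u, (N : ℤ) ∣ r u) (hr' : ∀ u, (N : ℤ) ∣ r' u) {k : ℕ} (F : Alg n V k) (hF : F.Mod N) :
    ∀ᶠ a in L, F.Same (target h τ) (fun u => x0 m (sc N a) u + r u)
      (fun u => x1 m τ (sc N a) u + r' u) := by
  induction F with
  | leaf b => exact Eventually.of_forall fun _ => trivial
  | test p q P child ih =>
    have h1 : ∀ᶠ a in L, ∀ σ, (child σ).Same (target h τ) (fun u => x0 m (sc N a) u + r u)
        (fun u => x1 m τ (sc N a) u + r' u) := by
      rw [eventually_all]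
      exact fun σ => ih σ (hF σ)
    have h2 : ∀ᶠ a in L, univ.image p ≠ target h τ →
        signs p P (fun u => x0 m (sc N a) u + r u) =
          signs p P (fun u => x1 m τ (sc N a) u + r' u) := by
      by_cases hp : univ.image p = target h τ
      · exact Eventually.of_forall fun _ h3 => absurd hp h3
      · have h3 : ∀ᶠ a in L, ∀ j, SignType.sign (MvPolynomial.eval
            (fun k => ((x0 m (sc N a) (p k) + r (p k) : ℤ) : ℝ)) (P j)) =
            SignType.sign (MvPolynomial.eval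
            (fun k => ((x1 m τ (sc N a) (p k) + r' (p k) : ℤ) : ℝ)) (P j)) := by
          rw [eventually_all]
          intro j
          have h5 := sign_eq' h τ p hp (P j) r r'
          obtain ⟨R, hR⟩ : ∃ R : ℕ × ℕ × ℕ × ℕ → Prop, ∀ a, R a ↔
              SignType.sign (MvPolynomial.eval
                (fun k => ((x0 m a (p k) + r (p k) : ℤ) : ℝ)) (P j)) =
              SignType.sign (MvPolynomial.eval
                (fun k => ((x1 m τ a (p k) + r' (p k) : ℤ) : ℝ)) (P j)) :=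
            ⟨_, fun _ => Iff.rfl⟩
          have h6 : ∀ᶠ a in L, R a := h5.mono fun a ha => (hR a).2 ha
          exact (L_scale N hN h6).mono fun a ha => (hR _).1 ha
        filter_upwards [h3] with a h4 _
        funext j
        exact h4 j
    filter_upwards [h1, h2] with a h3 h4
    exact ⟨h4, h3⟩
  | residues M child ih =>
    have h1 : ∀ᶠ a in L, ∀ σ, (child σ).Same (target h τ) (fun u => x0 m (sc N a) u + r u)
        (fun u => x1 m τ (sc N a) u + r' u) := by
      rw [eventually_all]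
      exact fun σ => ih σ (hF.2 σ)
    filter_upwards [h1] with a h2
    refine ⟨fun u => ?_, h2⟩
    have hd : ((M + 1 : ℕ) : ℤ) ∣ (N : ℤ) := by exact_mod_cast hF.1
    have z0 : ((x0 m (sc N a) u + r u : ℤ) : ZMod (M + 1)) = 0 :=
      (ZMod.intCast_zmod_eq_zero_iff_dvd _ _).2 (hd.trans (dvd_add (inp_dvd N _ a u) (hr u)))
    have z1 : ((x1 m τ (sc N a) u + r' u : ℤ) : ZMod (M + 1)) = 0 :=
      (ZMod.intCast_zmod_eq_zero_iff_dvd _ _).2 (hd.trans (dvd_add (inp_dvd N _ a u) (hr' u)))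
    rw [z0, z1]
  | store f child ih =>
    have h1 : ∀ᶠ a in L, ∀ σ, (child σ).Same (target h τ) (fun u => x0 m (sc N a) u + r u)
        (fun u => x1 m τ (sc N a) u + r' u) := by
      rw [eventually_all]
      exact fun σ => ih σ (hF σ)
    exact h1

theorem pe_dvd (N t : ℕ) (u : Fin n) : (N : ℤ) ∣ pe N t u := dvd_mul_right _ _

theorem pe'_dvd (N t : ℕ) (i j k : Fin n) (u : Fin n) : (N : ℤ) ∣ pe' N t i j k u := by
  unfold pe'
  split_ifs
  · exact dvd_add (pe_dvd N t i) (pe_dvd N t j)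
  · exact pe_dvd N t u

theorem val_sub (f g : Form n V) (x : Fin n → ℤ) :
    f.val x = g.val x ↔ ∑ u, (x u : ℝ) • (f.1 u - g.1 u) + (f.2 - g.2) = 0 := by
  simp only [Form.val, smul_sub, sum_sub_distrib]
  rw [← sub_eq_zero]
  constructor
  · intro h; rw [← h]; abel
  · intro h; rw [← h]; abel

theorem form_eq (f g : Form n V) : f = g ↔ (∀ u, f.1 u - g.1 u = 0) ∧ f.2 - g.2 = 0 := by
  constructor
  · rintro rfl
    simp
  · rintro ⟨h1, h2⟩
    exact Prod.ext (funext fun u => sub_eq_zero.1 (h1 u)) (sub_eq_zero.1 h2)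

open Classical in
/-- the set of the linear parts -/
noncomputable def lins (l : List (Form n V)) : Finset (Fin n → V) := l.toFinset.image Prod.fst

theorem lins_mem {l : List (Form n V)} {f : Form n V} (hf : f ∈ l) : f.1 ∈ lins l := by
  classical
  unfold lins
  rw [mem_image]
  exact ⟨f, by simpa using hf, rfl⟩

theorem Alg.In.mem {S : Finset (Form n V)} {k : ℕ} {F : Alg n V k} (h : F.In S) {v : Fin k → V}
    {x : Fin n → ℤ} {f : Form n V} (hf : f ∈ F.forms v x) : f ∈ S := by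
  induction F with
  | leaf b => simp [Alg.forms] at hf
  | test p r P child ih => exact ih _ (h _) hf
  | residues M child ih => exact ih _ (h _) hf
  | store g child ih =>
    simp only [Alg.forms, List.mem_cons] at hf
    rcases hf with rfl | hf
    · exact h.1
    · exact ih _ (h.2 _) hf

theorem lins_card (l : List (Form n V)) : (lins l).card ≤ l.length := by
  classical
  exact card_image_le.trans (List.toFinset_card_le l)

/-- **The hard inputs.** -/
theorem hard' (h : 4 * m ≤ n + 1) {Ω : Type} [Fintype Ω] (F : Ω → Alg n V 0) :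
    ∃ (x : Fin n → ℤ) (y : Fin m × Fin m → Fin n → ℤ), Function.Injective x ∧ ¬ HasSum3 x ∧
      ∀ τ, Function.Injective (y τ) ∧ HasSum3 (y τ) ∧ AtMostOne (y τ) ∧
        ∀ ω, target h τ ∉ (F ω).triples ![] x →
          ¬ Cov (lins ((F ω).forms ![] x)) (posA h τ) (posB h τ) (posC h τ) →
          (F ω).eval ![] x = (F ω).eval ![] (y τ) := by
  obtain ⟨N, hN, hF⟩ := common_mod F fun ω => (F ω).exists_mod
  obtain ⟨S, hS⟩ := common_in F fun ω => (F ω).exists_in
  -- the perturbation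
  have ht : ∀ᶠ t : ℕ in atTop, ∀ f ∈ S, ∀ g ∈ S, (f ≠ g →
      ∑ u, (pe N t u : ℝ) • (f.1 u - g.1 u) + (f.2 - g.2) ≠ 0) ∧
      ∀ τ : Fin m × Fin m, f ≠ g → ¬ Diff (posA h τ) (posB h τ) (posC h τ) f g →
        ∑ u, (pe' N t (posA h τ) (posB h τ) (posC h τ) u : ℝ) • (f.1 u - g.1 u) + (f.2 - g.2)
          ≠ 0 := by
    rw [eventually_all_finset]
    intro f _
    rw [eventually_all_finset]
    intro g _
    by_cases hfg : f = g
    · refine Eventually.of_forall fun t => ⟨fun h1 => absurd hfg h1, fun _ h1 => absurd hfg h1⟩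
    have hfg' : ¬ ((∀ u, f.1 u - g.1 u = 0) ∧ f.2 - g.2 = 0) := fun h1 => hfg ((form_eq f g).2 h1)
    have h1 := pe_neV N hN _ _ hfg'
    have h2 : ∀ᶠ t : ℕ in atTop, ∀ τ : Fin m × Fin m,
        ¬ Diff (posA h τ) (posB h τ) (posC h τ) f g →
        ∑ u, (pe' N t (posA h τ) (posB h τ) (posC h τ) u : ℝ) • (f.1 u - g.1 u) + (f.2 - g.2)
          ≠ 0 := by
      rw [eventually_all]
      intro τ
      by_cases hd : Diff (posA h τ) (posB h τ) (posC h τ) f g
      · exact Eventually.of_forall fun t h3 => absurd hd h3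
      · exact (pe'_ne N hN _ _ _ _ _ hfg' hd).mono fun t ht _ => ht
    filter_upwards [h1, h2] with t h3 h4
    exact ⟨fun _ => h3, fun τ _ => h4 τ⟩
  obtain ⟨t, ht⟩ := ht.exists
  -- the large parameters
  have h1 : ∀ᶠ a in L, ∀ τ : Fin m × Fin m, ∀ ω,
      (F ω).Same (target h τ) (fun u => x0 m (sc N a) u + pe N t u)
        (fun u => x1 m τ (sc N a) u + pe' N t (posA h τ) (posB h τ) (posC h τ) u) := by
    rw [eventually_all]
    intro τ
    rw [eventually_all]
    exact fun ω => same_ev' h τ N hN _ _ (pe_dvd N t) (pe'_dvd N t _ _ _) (F ω) (hF ω)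
  have h2 : ∀ᶠ a in L, ∀ τ : Fin m × Fin m, Function.Injective (fun u => x1 (n := n) m τ a u +
      pe' N t (posA h τ) (posB h τ) (posC h τ) u) ∧
      AtMostOne (fun u => x1 (n := n) m τ a u + pe' N t (posA h τ) (posB h τ) (posC h τ) u) := by
    rw [eventually_all]
    exact fun τ => (inj_ev' _ _).and (one_sol' h τ _)
  have h3 : ∀ᶠ a in L, ∀ f ∈ S, ∀ g ∈ S, (f ≠ g →
      ∑ u, ((x0 m a u + pe N t u : ℤ) : ℝ) • (f.1 u - g.1 u) + (f.2 - g.2) ≠ 0) ∧
      ∀ τ : Fin m × Fin m, f ≠ g → ¬ Diff (posA h τ) (posB h τ) (posC h τ) f g →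
        ∑ u, ((x1 m τ a u + pe' N t (posA h τ) (posB h τ) (posC h τ) u : ℤ) : ℝ) • (f.1 u - g.1 u)
          + (f.2 - g.2) ≠ 0 := by
    rw [eventually_all_finset]
    intro f hf
    rw [eventually_all_finset]
    intro g hg
    by_cases hfg : f = g
    · refine Eventually.of_forall fun t => ⟨fun h1 => absurd hfg h1, fun _ h1 => absurd hfg h1⟩
    have h4 := form_neV (m := m) e0 (pe N t) (fun u => f.1 u - g.1 u) (f.2 - g.2)
      ((ht f hf g hg).1 hfg)
    have h5 : ∀ᶠ a in L, ∀ τ : Fin m × Fin m,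
        ¬ Diff (posA h τ) (posB h τ) (posC h τ) f g →
        ∑ u, ((x1 m τ a u + pe' N t (posA h τ) (posB h τ) (posC h τ) u : ℤ) : ℝ) • (f.1 u - g.1 u)
          + (f.2 - g.2) ≠ 0 := by
      rw [eventually_all]
      intro τ
      by_cases hd : Diff (posA h τ) (posB h τ) (posC h τ) f g
      · exact Eventually.of_forall fun t h3 => absurd hd h3
      · exact (form_neV (m := m) (e1 (τ.1 : ℕ) (τ.2 : ℕ)) (pe' N t (posA h τ) (posB h τ) (posC h τ))
          (fun u => f.1 u - g.1 u) (f.2 - g.2) ((ht f hf g hg).2 τ hfg hd)).mono fun a ha _ => ha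
    filter_upwards [h4, h5] with a h6 h7
    exact ⟨fun _ => h6, fun τ _ => h7 τ⟩
  obtain ⟨a, a1, a2⟩ := L_exists (h1.and (L_scale N hN (h2.and (h3.and
    ((inj_ev' (n := n) (m := m) e0 (pe N t)).and (no_sol' (n := n) (m := m) (pe N t)))))))
  obtain ⟨a2, a3, a4, a5⟩ := a2
  refine ⟨fun u => x0 m (sc N a) u + pe N t u, fun τ u => x1 m τ (sc N a) u +
    pe' N t (posA h τ) (posB h τ) (posC h τ) u, a4, a5, fun τ => ⟨(a2 τ).1,
    ⟨_, _, _, has_sol' h τ (sc N a) N t⟩, (a2 τ).2, fun ω hω hc => ?_⟩⟩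
  obtain ⟨v, hv⟩ : ∃ v : Fin 0 → Form n V, v = ![] := ⟨_, rfl⟩
  have e : ∀ x : Fin n → ℤ, vals v x = ![] := fun x => Subsingleton.elim _ _
  have main := Alg.run_eq (E := target h τ) (Or.inl (target_card h τ))
    (x := fun u => x0 m (sc N a) u + pe N t u)
    (y := fun u => x1 m τ (sc N a) u + pe' N t (posA h τ) (posB h τ) (posC h τ) u)
    (F ω) (a1 τ ω) v (fun _ => by rw [e]; exact hω) ?_
  · rw [e, e] at main
    exact main.1.symm
  · rw [e]
    rintro f (⟨s, rfl⟩ | hf) g (⟨s', rfl⟩ | hg)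
    · exact s.elim0
    · exact s.elim0
    · exact s'.elim0
    · have hf' := (hS ω).mem hf
      have hg' := (hS ω).mem hg
      constructor
      · intro hfg
        by_cases hne : f = g
        · rw [hne]
        · exact absurd ((val_sub f g _).1 hfg) ((a3 f hf' g hg').1 hne)
      · intro hfg
        by_cases hne : f = g
        · rw [hne]
        by_cases hd : Diff (posA h τ) (posB h τ) (posC h τ) f g
        · exfalso
          apply hc
          obtain ⟨c, hc1, hc2⟩ := hd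
          exact ⟨f.1, lins_mem hf, g.1, lins_mem hg, c, hc1, hc2⟩
        · exact absurd ((val_sub f g _).1 hfg) ((a3 f hf' g hg').2 τ hne hd)

end Pool.Agent.H72.Hash
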