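import Pool.Graph.R_pool_sql_team_seeded_c8625f6e.K4H88.Ter.Config

set_option autoImplicit false

/-! # Hard inputs with a generic perturbation -/

namespace Pool.Agent.H72.Hash

open Filter Finset Pool.Agent.K4H88.Ter

/-- the same with shifted parameters -/
theorem shift' {R : ℝ → ℝ → ℝ → ℝ → Prop} (h : ∀ᶠ v in Lf 4, R (v 0) (v 1) (v 2) (v 3))
    (c : Fin 3 → ℝ) (l : ℝ) (hl : 0 < l) (d : Fin 4 → ℝ) :
    ∀ᶠ a in L, R (a.2.2.2 + (c 0 * a.1 + d 0)) (a.2.2.1 + (c 1 * a.1 + d 1))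
      (a.2.1 + (c 2 * a.1 + d 2)) (l * a.1 + d 3) := by
  rw [ev_four] at h
  rw [ev_L]
  have t0 : Tendsto (fun ε : ℕ => l * (ε : ℝ) + d 3) atTop atTop :=
    tendsto_atTop_add_const_right _ _ (tendsto_natCast_atTop_atTop.const_mul_atTop hl)
  filter_upwards [t0.eventually h] with ε h1
  have t : ∀ c : ℝ, Tendsto (fun m : ℕ => (m : ℝ) + c) atTop atTop := fun c =>
    tendsto_atTop_add_const_right _ _ tendsto_natCast_atTop_atTop
  filter_upwards [(t (c 2 * ε + d 2)).eventually h1] with δ h2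
  filter_upwards [(t (c 1 * ε + d 1)).eventually h2] with β h3
  filter_upwards [(t (c 0 * ε + d 0)).eventually h3] with α h4
  exact h4

/-- affine forms in the parameters do not vanish -/
theorem lin' (c₁ c₂ c₃ c₄ κ : ℝ) (h : ¬ (c₁ = 0 ∧ c₂ = 0 ∧ c₃ = 0 ∧ c₄ = 0 ∧ κ = 0)) :
    ∀ᶠ a in L, c₁ * (a.2.2.2 : ℝ) + c₂ * (a.2.2.1 : ℝ) + c₃ * (a.2.1 : ℝ) + c₄ * (a.1 : ℝ) + κ ≠ 0 := by
  have key : ∀ c K : ℝ, c ≠ 0 → ∀ᶠ m : ℕ in atTop, c * (m : ℝ) + K ≠ 0 := by
    intro c K hc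
    have h1 : ∀ᶠ r : ℝ in atTop, -K / c < r := eventually_gt_atTop _
    filter_upwards [tendsto_natCast_atTop_atTop.eventually h1] with m hm h0
    have h2 : (m : ℝ) = -K / c := by
      field_simp
      linarith
    exact absurd h2 hm.ne'
  rw [ev_L]
  by_cases h1 : c₁ = 0
  · by_cases h2 : c₂ = 0
    · by_cases h3 : c₃ = 0
      · by_cases h4 : c₄ = 0
        · have h5 : κ ≠ 0 := fun h5 => h ⟨h1, h2, h3, h4, h5⟩
          refine Eventually.of_forall fun ε => Eventually.of_forall fun δ =>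
            Eventually.of_forall fun β => Eventually.of_forall fun α => ?_
          simp [h1, h2, h3, h4, h5]
        · filter_upwards [key c₄ κ h4] with ε hε
          refine Eventually.of_forall fun δ => Eventually.of_forall fun β =>
            Eventually.of_forall fun α => ?_
          simp only [h1, h2, h3]
          intro h5
          apply hε
          linarith
      · refine Eventually.of_forall fun ε => ?_
        filter_upwards [key c₃ (c₄ * ε + κ) h3] with δ hδ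
        refine Eventually.of_forall fun β => Eventually.of_forall fun α => ?_
        simp only [h1, h2]
        intro h5
        apply hδ
        linarith
    · refine Eventually.of_forall fun ε => Eventually.of_forall fun δ => ?_
      filter_upwards [key c₂ (c₃ * δ + c₄ * ε + κ) h2] with β hβ
      refine Eventually.of_forall fun α => ?_
      simp only [h1]
      intro h5
      apply hβ
      linarith
  · refine Eventually.of_forall fun ε => Eventually.of_forall fun δ =>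
      Eventually.of_forall fun β => ?_
    filter_upwards [key c₁ (c₂ * β + c₃ * δ + c₄ * ε + κ) h1] with α hα
    intro h5
    apply hα
    linarith

/-- the number at a place of kind `k` with index `i`, for the parameters `d` -/
def at_ (d : Fin 4 → ℝ) (k : Fin 3) (i : ℤ) : ℝ :=
  va k * d 0 + vb k * d 1 + i * d 2 + e0 k i * d 3

theorem at_zero (d : Fin 4 → ℝ) (i : ℤ) : at_ d 0 i = d 0 + i * d 2 + 4 * (i : ℝ) ^ 2 * d 3 := by
  simp [at_, va, vb, e0]

theorem at_one (d : Fin 4 → ℝ) (i : ℤ) : at_ d 1 i = d 1 + i * d 2 + 4 * (i : ℝ) ^ 2 * d 3 := by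
  simp [at_, va, vb, e0]

theorem at_two (d : Fin 4 → ℝ) (i : ℤ) :
    at_ d 2 i = d 0 + d 1 + i * d 2 + ((i : ℝ) ^ 2 - 1) * d 3 := by
  simp [at_, va, vb, e0]

/-- exactly one of the three kinds, and the two others -/
theorem sep_mixed (i j k : ℤ) : (∃ d : Fin 4 → ℝ, at_ d 0 i ≠ 0 ∧ at_ d 1 j = 0 ∧ at_ d 2 k = 0) ∧
    (∃ d : Fin 4 → ℝ, at_ d 1 j ≠ 0 ∧ at_ d 0 i = 0 ∧ at_ d 2 k = 0) ∧
    (∃ d : Fin 4 → ℝ, at_ d 2 k ≠ 0 ∧ at_ d 0 i = 0 ∧ at_ d 1 j = 0) := by
  have key : ∃ s t : ℝ, ((i : ℝ) + j - k) * s + (4 * (i : ℝ) ^ 2 + 4 * j ^ 2 - k ^ 2 + 1) * t ≠ 0 := by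
    by_cases h : (i : ℝ) + j - k = 0
    · refine ⟨0, 1, ?_⟩
      have hk : (k : ℝ) = i + j := by linarith
      rw [hk]
      nlinarith [sq_nonneg ((i : ℝ) - j), sq_nonneg (i : ℝ), sq_nonneg (j : ℝ)]
    · exact ⟨1, 0, by simpa using h⟩
  obtain ⟨s, t, hst⟩ := key
  refine ⟨⟨![(j - k) * s + (4 * (j : ℝ) ^ 2 - k ^ 2 + 1) * t, -j * s - 4 * (j : ℝ) ^ 2 * t, s, t],
    ?_, ?_, ?_⟩, ⟨![-i * s - 4 * (i : ℝ) ^ 2 * t, (i - k) * s + (4 * (i : ℝ) ^ 2 - k ^ 2 + 1) * t,
    s, t], ?_, ?_, ?_⟩, ⟨![-i * s - 4 * (i : ℝ) ^ 2 * t, -j * s - 4 * (j : ℝ) ^ 2 * t, s, t],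
    ?_, ?_, ?_⟩⟩
  · rw [at_zero]
    intro h
    apply hst
    rw [← h]
    simp
    ring
  · rw [at_one]
    simp
    ring
  · rw [at_two]
    simp
    ring
  · rw [at_one]
    intro h
    apply hst
    rw [← h]
    simp
    ring
  · rw [at_zero]
    simp
    ring
  · rw [at_two]
    simp
    ring
  · rw [at_two]
    intro h
    apply hst
    rw [← neg_eq_zero, ← h]
    simp
    ring
  · rw [at_zero]
    simp
    ring
  · rw [at_one]
    simp
    ring


/-- a functional which vanishes at two given places but not at a third one -/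
theorem sep (k k₁ k₂ : Fin 3) (i i₁ i₂ : ℤ) (h₁ : ¬ (k = k₁ ∧ i = i₁)) (h₂ : ¬ (k = k₂ ∧ i = i₂)) :
    ∃ d : Fin 4 → ℝ, at_ d k i ≠ 0 ∧ at_ d k₁ i₁ = 0 ∧ at_ d k₂ i₂ = 0 := by
  have g₁ : k = k₁ → (i : ℝ) - i₁ ≠ 0 := fun h h' =>
    h₁ ⟨h, by exact_mod_cast (sub_eq_zero.1 h')⟩
  have g₂ : k = k₂ → (i : ℝ) - i₂ ≠ 0 := fun h h' =>
    h₂ ⟨h, by exact_mod_cast (sub_eq_zero.1 h')⟩
  clear h₁ h₂
  fin_cases k <;> fin_cases k₁ <;> fin_cases k₂
  · refine ⟨![i₁ * i₂, 0, -(i₁ + i₂), 1 / 4], ?_, ?_, ?_⟩ -- 000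
    · intro h
      apply mul_ne_zero (g₁ rfl) (g₂ rfl)
      rw [← h]
      simp [at_, va, vb, e0]
      ring
    · simp [at_, va, vb, e0]
      ring
    · simp [at_, va, vb, e0]
      ring
  · refine ⟨![-i₁, -i₂, 1, 0], ?_, ?_, ?_⟩ -- 001
    · intro h
      apply g₁ rfl
      rw [← h]
      simp [at_, va, vb, e0]
      try ring
    · simp [at_, va, vb, e0]
      try ring
    · simp [at_, va, vb, e0]
      try ring
  · refine ⟨![-i₁, i₁ - i₂, 1, 0], ?_, ?_, ?_⟩ -- 002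
    · intro h
      apply g₁ rfl
      rw [← h]
      simp [at_, va, vb, e0]
      try ring
    · simp [at_, va, vb, e0]
      try ring
    · simp [at_, va, vb, e0]
      try ring
  · refine ⟨![-i₂, -i₁, 1, 0], ?_, ?_, ?_⟩ -- 010
    · intro h
      apply g₂ rfl
      rw [← h]
      simp [at_, va, vb, e0]
      try ring
    · simp [at_, va, vb, e0]
      try ring
    · simp [at_, va, vb, e0]
      try ring
  · exact ⟨![1, 0, 0, 0], by simp [at_, va, vb, e0], by simp [at_, va, vb, e0], by simp [at_, va, vb, e0]⟩ -- 011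
  · exact (sep_mixed i i₁ i₂).1 -- 012
  · refine ⟨![-i₂, i₂ - i₁, 1, 0], ?_, ?_, ?_⟩ -- 020
    · intro h
      apply g₂ rfl
      rw [← h]
      simp [at_, va, vb, e0]
      try ring
    · simp [at_, va, vb, e0]
      try ring
    · simp [at_, va, vb, e0]
      try ring
  · obtain ⟨d, h1, h2, h3⟩ := (sep_mixed i i₂ i₁).1 -- 021
    exact ⟨d, h1, h3, h2⟩
  · exact ⟨![1, -1, 0, 0], by simp [at_, va, vb, e0], by simp [at_, va, vb, e0], by simp [at_, va, vb, e0]⟩ -- 022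
  · exact ⟨![0, 1, 0, 0], by simp [at_, va, vb, e0], by simp [at_, va, vb, e0], by simp [at_, va, vb, e0]⟩ -- 100
  · refine ⟨![-i₁, -i₂, 1, 0], ?_, ?_, ?_⟩ -- 101
    · intro h
      apply g₂ rfl
      rw [← h]
      simp [at_, va, vb, e0]
      try ring
    · simp [at_, va, vb, e0]
      try ring
    · simp [at_, va, vb, e0]
      try ring
  · exact (sep_mixed i₁ i i₂).2.1 -- 102
  · refine ⟨![-i₂, -i₁, 1, 0], ?_, ?_, ?_⟩ -- 110
    · intro h
      apply g₁ rfl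
      rw [← h]
      simp [at_, va, vb, e0]
      try ring
    · simp [at_, va, vb, e0]
      try ring
    · simp [at_, va, vb, e0]
      try ring
  · refine ⟨![0, i₁ * i₂, -(i₁ + i₂), 1 / 4], ?_, ?_, ?_⟩ -- 111
    · intro h
      apply mul_ne_zero (g₁ rfl) (g₂ rfl)
      rw [← h]
      simp [at_, va, vb, e0]
      ring
    · simp [at_, va, vb, e0]
      ring
    · simp [at_, va, vb, e0]
      ring
  · refine ⟨![i₁ - i₂, -i₁, 1, 0], ?_, ?_, ?_⟩ -- 112
    · intro h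
      apply g₁ rfl
      rw [← h]
      simp [at_, va, vb, e0]
      try ring
    · simp [at_, va, vb, e0]
      try ring
    · simp [at_, va, vb, e0]
      try ring
  · obtain ⟨d, h1, h2, h3⟩ := (sep_mixed i₂ i i₁).2.1 -- 120
    exact ⟨d, h1, h3, h2⟩
  · refine ⟨![i₂ - i₁, -i₂, 1, 0], ?_, ?_, ?_⟩ -- 121
    · intro h
      apply g₂ rfl
      rw [← h]
      simp [at_, va, vb, e0]
      try ring
    · simp [at_, va, vb, e0]
      try ring
    · simp [at_, va, vb, e0]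
      try ring
  · exact ⟨![1, -1, 0, 0], by simp [at_, va, vb, e0], by simp [at_, va, vb, e0], by simp [at_, va, vb, e0]⟩ -- 122
  · exact ⟨![0, 1, 0, 0], by simp [at_, va, vb, e0], by simp [at_, va, vb, e0], by simp [at_, va, vb, e0]⟩ -- 200
  · exact (sep_mixed i₁ i₂ i).2.2 -- 201
  · refine ⟨![-i₁, i₁ - i₂, 1, 0], ?_, ?_, ?_⟩ -- 202
    · intro h
      apply g₂ rfl
      rw [← h]
      simp [at_, va, vb, e0]
      try ring
    · simp [at_, va, vb, e0]
      try ring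
    · simp [at_, va, vb, e0]
      try ring
  · obtain ⟨d, h1, h2, h3⟩ := (sep_mixed i₂ i₁ i).2.2 -- 210
    exact ⟨d, h1, h3, h2⟩
  · exact ⟨![1, 0, 0, 0], by simp [at_, va, vb, e0], by simp [at_, va, vb, e0], by simp [at_, va, vb, e0]⟩ -- 211
  · refine ⟨![i₁ - i₂, -i₁, 1, 0], ?_, ?_, ?_⟩ -- 212
    · intro h
      apply g₂ rfl
      rw [← h]
      simp [at_, va, vb, e0]
      try ring
    · simp [at_, va, vb, e0]
      try ring
    · simp [at_, va, vb, e0]
      try ring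
  · refine ⟨![-i₂, i₂ - i₁, 1, 0], ?_, ?_, ?_⟩ -- 220
    · intro h
      apply g₁ rfl
      rw [← h]
      simp [at_, va, vb, e0]
      try ring
    · simp [at_, va, vb, e0]
      try ring
    · simp [at_, va, vb, e0]
      try ring
  · refine ⟨![i₂ - i₁, -i₂, 1, 0], ?_, ?_, ?_⟩ -- 221
    · intro h
      apply g₁ rfl
      rw [← h]
      simp [at_, va, vb, e0]
      try ring
    · simp [at_, va, vb, e0]
      try ring
    · simp [at_, va, vb, e0]
      try ring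
  · refine ⟨![i₁ * i₂ + 1, 0, -(i₁ + i₂), 1], ?_, ?_, ?_⟩ -- 222
    · intro h
      apply mul_ne_zero (g₁ rfl) (g₂ rfl)
      rw [← h]
      simp [at_, va, vb, e0]
      ring
    · simp [at_, va, vb, e0]
      ring
    · simp [at_, va, vb, e0]
      ring

/-- normalised -/
theorem sep_one (k k₁ k₂ : Fin 3) (i i₁ i₂ : ℤ) (h₁ : ¬ (k = k₁ ∧ i = i₁))
    (h₂ : ¬ (k = k₂ ∧ i = i₂)) (r : ℝ) :
    ∃ d : Fin 4 → ℝ, at_ d k i = r ∧ at_ d k₁ i₁ = 0 ∧ at_ d k₂ i₂ = 0 := by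
  obtain ⟨d, h1, h2, h3⟩ := sep k k₁ k₂ i i₁ i₂ h₁ h₂
  have e' : ∀ (c : ℝ) k i, at_ (fun j => c * d j) k i = c * at_ d k i := by
    intro c k i
    simp only [at_]
    ring
  refine ⟨fun j => r / at_ d k i * d j, ?_, ?_, ?_⟩
  · rw [e']
    field_simp
  · rw [e', h2, mul_zero]
  · rw [e', h3, mul_zero]

variable {n m : ℕ}

/-- every perturbation of three of the numbers is obtained by shifting the parameters -/
theorem solve (p : Fin 3 → Fin n) (r : Fin n → ℝ) :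
    ∃ d : Fin 4 → ℝ, ∀ k, at_ d (kd m (p k)) (ix m (p k)) = r (p k) := by
  have ne : ∀ u v : Fin n, u ≠ v → ¬ (kd m u = kd m v ∧ ix m u = ix m v) :=
    fun u v huv h => huv (kd_ix_inj (m := m) h.1 h.2)
  have add : ∀ (d d' : Fin 4 → ℝ) k i, at_ (fun j => d j + d' j) k i = at_ d k i + at_ d' k i := by
    intro d d' k i
    simp only [at_]
    ring
  have one : ∀ u : Fin n, ∃ d : Fin 4 → ℝ, at_ d (kd m u) (ix m u) = r u := by
    intro u
    have : ∀ (k : Fin 3) (i : ℤ), ∃ d : Fin 4 → ℝ, at_ d k i = r u := by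
      intro k i
      fin_cases k
      · exact ⟨![r u, 0, 0, 0], by simp [at_, va, vb, e0]⟩
      · exact ⟨![0, r u, 0, 0], by simp [at_, va, vb, e0]⟩
      · exact ⟨![r u, 0, 0, 0], by simp [at_, va, vb, e0]⟩
    exact this _ _
  have two : ∀ u v : Fin n, ∃ d : Fin 4 → ℝ, at_ d (kd m u) (ix m u) = r u ∧
      at_ d (kd m v) (ix m v) = r v := by
    intro u v
    by_cases huv : u = v
    · subst huv
      obtain ⟨d, hd⟩ := one u
      exact ⟨d, hd, hd⟩
    · obtain ⟨d, h1, h2, -⟩ := sep_one _ _ _ _ _ _ (ne u v huv) (ne u v huv) (r u)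
      obtain ⟨d', h1', h2', -⟩ := sep_one _ _ _ _ _ _ (ne v u (Ne.symm huv))
        (ne v u (Ne.symm huv)) (r v)
      refine ⟨fun j => d j + d' j, ?_, ?_⟩
      · rw [add, h1, h2', add_zero]
      · rw [add, h2, h1', zero_add]
  have three : ∀ u v w : Fin n, ∃ d : Fin 4 → ℝ, at_ d (kd m u) (ix m u) = r u ∧
      at_ d (kd m v) (ix m v) = r v ∧ at_ d (kd m w) (ix m w) = r w := by
    intro u v w
    by_cases huv : u = v
    · subst huv
      obtain ⟨d, h1, h2⟩ := two u w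
      exact ⟨d, h1, h1, h2⟩
    by_cases huw : u = w
    · subst huw
      obtain ⟨d, h1, h2⟩ := two u v
      exact ⟨d, h1, h2, h1⟩
    obtain ⟨d, h1, h2⟩ := two v w
    obtain ⟨d', h1', h2', h3'⟩ := sep_one _ _ _ _ _ _ (ne u v huv) (ne u w huw)
      (r u - at_ d (kd m u) (ix m u))
    refine ⟨fun j => d j + d' j, ?_, ?_, ?_⟩
    · rw [add, h1']; ring
    · rw [add, h1, h2', add_zero]
    · rw [add, h2, h3', add_zero]
  obtain ⟨d, h0, h1, h2⟩ := three (p 0) (p 1) (p 2)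
  refine ⟨d, fun k => ?_⟩
  fin_cases k
  · exact h0
  · exact h1
  · exact h2

end Pool.Agent.H72.Hash
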