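import Pool.Graph.R_pool_sql_team_seeded_c8625f6e.K4H88.Ter.Main
import Pool.Agent.H72.Hash.Cube
import Pool.Agent.H72.Hash.Defs
import Pool.Agent.H72.Hash.Noise

set_option autoImplicit false

/-! # Three numbers at a time, and hashed linear forms -/

namespace Pool.Agent.H72.Hash

open Filter Finset Pool.Agent.K4H88.Ter

variable {n m : ℕ}

/-- the two perturbed inputs are not distinguished by a test which does not see the solution -/
theorem sign_eq' (h : 4 * m ≤ n + 1) (τ : Fin m × Fin m) (p : Fin 3 → Fin n)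
    (hp : univ.image p ≠ target h τ) (P : MvPolynomial (Fin 3) ℝ) (r r' : Fin n → ℤ) :
    ∀ᶠ a in L, SignType.sign (MvPolynomial.eval (fun k => ((x0 m a (p k) + r (p k) : ℤ) : ℝ)) P) =
      SignType.sign (MvPolynomial.eval (fun k => ((x1 m τ a (p k) + r' (p k) : ℤ) : ℝ)) P) := by
  obtain ⟨l, c, hl, hc⟩ := fits_all h τ p hp
  obtain ⟨s, hs⟩ := arg_sign (m := m) p P
  obtain ⟨d, hd⟩ := solve (m := m) p (fun u => (r u : ℝ))
  obtain ⟨d', hd'⟩ := solve (m := m) p (fun u => (r' u : ℝ))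
  obtain ⟨R, hR⟩ : ∃ R : ℝ → ℝ → ℝ → ℝ → Prop, ∀ α β δ ε, R α β δ ε ↔
      SignType.sign (MvPolynomial.eval (arg m p α β δ ε) P) = s := ⟨_, fun _ _ _ _ => Iff.rfl⟩
  have hs' : ∀ᶠ v in Lf 4, R (v 0) (v 1) (v 2) (v 3) := hs.mono fun v hv => (hR _ _ _ _).2 hv
  have s0 := shift' hs' (fun _ => 0) 1 one_pos d
  have s1 := shift' hs' c l hl d'
  filter_upwards [s0, s1] with a h0 h1
  rw [hR] at h0 h1
  have g0 : (fun k => ((x0 m a (p k) + r (p k) : ℤ) : ℝ)) =
      arg m p ((a.2.2.2 : ℝ) + (0 * (a.1 : ℝ) + d 0))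
      ((a.2.2.1 : ℝ) + (0 * (a.1 : ℝ) + d 1)) ((a.2.1 : ℝ) + (0 * (a.1 : ℝ) + d 2))
      (1 * (a.1 : ℝ) + d 3) := by
    funext k
    have e := hd k
    simp only [at_] at e
    simp only [x0, inp, arg]
    push_cast
    rw [← e]
    ring
  have g1 : (fun k => ((x1 m τ a (p k) + r' (p k) : ℤ) : ℝ)) =
      arg m p ((a.2.2.2 : ℝ) + (c 0 * (a.1 : ℝ) + d' 0))
      ((a.2.2.1 : ℝ) + (c 1 * (a.1 : ℝ) + d' 1)) ((a.2.1 : ℝ) + (c 2 * (a.1 : ℝ) + d' 2))
      (l * (a.1 : ℝ) + d' 3) := by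
    funext k
    have e := hd' k
    have hk := hc k
    simp only [at_] at e
    unfold Fits at hk
    simp only [x1, inp, arg]
    push_cast
    rw [← e, hk]
    ring
  rw [g0, g1, h0, h1]

/-- a form with a nonzero value at the perturbation has a nonzero value at the input -/
theorem form_ne (e : Fin 3 → ℤ → ℤ) (r : Fin n → ℤ) (b : Fin n → ℝ) (b₀ : ℝ)
    (h : ∑ u, b u * (r u : ℝ) + b₀ ≠ 0) :
    ∀ᶠ a in L, ∑ u, b u * ((inp m e a u + r u : ℤ) : ℝ) + b₀ ≠ 0 := by
  have h1 := lin' (∑ u, b u * (va (kd m u) : ℝ)) (∑ u, b u * (vb (kd m u) : ℝ))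
    (∑ u, b u * (ix m u : ℝ)) (∑ u, b u * (e (kd m u) (ix m u) : ℝ))
    (∑ u, b u * (r u : ℝ) + b₀) (fun h2 => h h2.2.2.2.2)
  filter_upwards [h1] with a ha h0
  apply ha
  rw [← h0, sum_mul, sum_mul, sum_mul, sum_mul, ← sum_add_distrib, ← sum_add_distrib,
    ← sum_add_distrib, ← add_assoc, ← sum_add_distrib]
  congr 1
  apply sum_congr rfl
  intro u _
  simp only [inp]
  push_cast
  ring

/-- the powers of a large number are generic -/
theorem poly_ne (N : ℕ) (hN : 0 < N) (b : Fin n → ℝ) (b₀ : ℝ) (h : ¬ ((∀ u, b u = 0) ∧ b₀ = 0)) :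
    ∀ᶠ t : ℕ in atTop, ∑ u, b u * ((N : ℝ) * (t : ℝ) ^ (u.1 + 1)) + b₀ ≠ 0 := by
  obtain ⟨Q, hQ⟩ : ∃ Q : Polynomial ℝ, Q = ∑ u : Fin n, Polynomial.C (b u * N) *
      Polynomial.X ^ (u.1 + 1) + Polynomial.C b₀ := ⟨_, rfl⟩
  have hNr : (N : ℝ) ≠ 0 := by exact_mod_cast hN.ne'
  have hQ0 : Q ≠ 0 := by
    intro h0
    apply h
    have c0 : b₀ = 0 := by
      have := congrArg (fun P => Polynomial.coeff P 0) h0
      simpa [hQ, Polynomial.finsetSum_coeff, Polynomial.coeff_C_mul, Polynomial.coeff_X_pow]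
        using this
    refine ⟨fun v => ?_, c0⟩
    have := congrArg (fun P => Polynomial.coeff P (v.1 + 1)) h0
    simp only [hQ, Polynomial.coeff_add, Polynomial.finsetSum_coeff, Polynomial.coeff_C_mul,
      Polynomial.coeff_X_pow, Polynomial.coeff_C_succ, Polynomial.coeff_zero, add_zero,
      mul_ite, mul_one, mul_zero] at this
    have e : ∑ x : Fin n, (if v.1 + 1 = x.1 + 1 then b x * (N : ℝ) else 0) = b v * N := by
      rw [sum_eq_single v]
      · simp
      · intro w _ hw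
        rw [if_neg]
        intro h2
        exact hw (Fin.ext (by omega))
      · intro h2
        exact absurd (mem_univ v) h2
    rw [e] at this
    rcases mul_eq_zero.1 this with h3 | h3
    · exact h3
    · exact absurd h3 hNr
  have h1 : ∀ᶠ s : ℝ in atTop, SignType.sign (Q.eval s) = SignType.sign Q.leadingCoeff :=
    sign_one Q hQ0
  filter_upwards [tendsto_natCast_atTop_atTop.eventually h1] with t ht h2
  have e : Q.eval (t : ℝ) = ∑ u, b u * ((N : ℝ) * (t : ℝ) ^ (u.1 + 1)) + b₀ := by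
    rw [hQ, Polynomial.eval_add, Polynomial.eval_finsetSum]
    simp [mul_assoc]
  rw [e, h2, sign_zero] at ht
  exact Polynomial.leadingCoeff_ne_zero.2 hQ0 (sign_eq_zero_iff.1 ht.symm)

/-- the perturbation of the input without solution -/
def pe (N t : ℕ) (u : Fin n) : ℤ := N * (t : ℤ) ^ (u.1 + 1)

/-- the perturbation of the input with a solution at the places `i`, `j`, `k` -/
def pe' (N t : ℕ) (i j k : Fin n) (u : Fin n) : ℤ :=
  if u = k then pe N t i + pe N t j else pe N t u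

theorem pe_ne (N : ℕ) (hN : 0 < N) (b : Fin n → ℝ) (b₀ : ℝ) (h : ¬ ((∀ u, b u = 0) ∧ b₀ = 0)) :
    ∀ᶠ t : ℕ in atTop, ∑ u, b u * (pe N t u : ℝ) + b₀ ≠ 0 := by
  refine (poly_ne N hN b b₀ h).mono fun t ht => ?_
  simpa [pe] using ht

section vector

variable {V : Type} [AddCommGroup V] [Module ℝ V]

/-- the same for vectors -/
theorem form_neV (e : Fin 3 → ℤ → ℤ) (r : Fin n → ℤ) (b : Fin n → V) (b₀ : V)
    (h : ∑ u, (r u : ℝ) • b u + b₀ ≠ 0) :
    ∀ᶠ a in L, ∑ u, ((inp m e a u + r u : ℤ) : ℝ) • b u + b₀ ≠ 0 := by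
  obtain ⟨φ, hφ⟩ : ∃ φ : Module.Dual ℝ V, φ (∑ u, (r u : ℝ) • b u + b₀) ≠ 0 := by
    by_contra h1
    push Not at h1
    exact h ((Module.forall_dual_apply_eq_zero_iff ℝ _).1 h1)
  have h2 : ∑ u, φ (b u) * (r u : ℝ) + φ b₀ ≠ 0 := by
    intro h3
    apply hφ
    rw [map_add, map_sum, ← h3]
    congr 1
    exact sum_congr rfl fun u _ => by rw [map_smul, smul_eq_mul, mul_comm]
  refine (form_ne (m := m) e r (fun u => φ (b u)) (φ b₀) h2).mono fun a ha h3 => ha ?_
  have h4 := congrArg φ h3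
  rw [map_add, map_sum, map_zero] at h4
  rw [← h4]
  congr 1
  exact sum_congr rfl fun u _ => by rw [map_smul, smul_eq_mul, mul_comm]

theorem pe_neV (N : ℕ) (hN : 0 < N) (b : Fin n → V) (b₀ : V)
    (h : ¬ ((∀ u, b u = 0) ∧ b₀ = 0)) :
    ∀ᶠ t : ℕ in atTop, ∑ u, (pe N t u : ℝ) • b u + b₀ ≠ 0 := by
  obtain ⟨φ, hφ⟩ : ∃ φ : Module.Dual ℝ V, ¬ ((∀ u, φ (b u) = 0) ∧ φ b₀ = 0) := by
    by_contra h1
    push Not at h1
    exact h ⟨fun u => (Module.forall_dual_apply_eq_zero_iff ℝ _).1 fun φ => (h1 φ).1 u,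
      (Module.forall_dual_apply_eq_zero_iff ℝ _).1 fun φ => (h1 φ).2⟩
  refine (pe_ne N hN (fun u => φ (b u)) (φ b₀) hφ).mono fun t ht h3 => ht ?_
  have h4 := congrArg φ h3
  rw [map_add, map_sum, map_zero] at h4
  rw [← h4]
  congr 1
  exact sum_congr rfl fun u _ => by rw [map_smul, smul_eq_mul, mul_comm]

/-- exchanging the number at the place `k` -/
theorem pe'_sum (N t : ℕ) (i j k : Fin n) (b : Fin n → V) :
    ∑ u, (pe' N t i j k u : ℝ) • b u = ∑ u, (pe N t u : ℝ) • (b u + tri i j k u • b k) := by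
  have e1 : ∀ u, (pe' N t i j k u : ℝ) • b u = (pe N t u : ℝ) • b u +
      (if u = k then ((pe N t i : ℝ) + pe N t j - pe N t k) • b k else 0) := by
    intro u
    unfold pe'
    by_cases h : u = k
    · subst h
      simp only [if_true, ← add_smul]
      congr 1
      push_cast
      ring
    · simp [h]
  have e2 : ∀ u, (pe N t u : ℝ) • (b u + tri i j k u • b k) = (pe N t u : ℝ) • b u +
      ((if u = i then (pe N t i : ℝ) • b k else 0) + (if u = j then (pe N t j : ℝ) • b k else 0) -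
      (if u = k then (pe N t k : ℝ) • b k else 0)) := by
    intro u
    unfold tri
    have a1 : (if u = i then (pe N t i : ℝ) • b k else 0) =
        ((pe N t u : ℝ) * (if u = i then 1 else 0)) • b k := by
      split_ifs with h
      · rw [h, mul_one]
      · rw [mul_zero, zero_smul]
    have a2 : (if u = j then (pe N t j : ℝ) • b k else 0) =
        ((pe N t u : ℝ) * (if u = j then 1 else 0)) • b k := by
      split_ifs with h
      · rw [h, mul_one]
      · rw [mul_zero, zero_smul]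
    have a3 : (if u = k then (pe N t k : ℝ) • b k else 0) =
        ((pe N t u : ℝ) * (if u = k then 1 else 0)) • b k := by
      split_ifs with h
      · rw [h, mul_one]
      · rw [mul_zero, zero_smul]
    rw [a1, a2, a3, smul_add, smul_smul, ← add_smul, ← sub_smul]
    congr 2
    ring
  simp only [e1, e2, sum_add_distrib, sum_sub_distrib, sum_ite_eq', mem_univ, if_true]
  rw [← add_smul, ← sub_smul]

theorem pe'_ne (N : ℕ) (hN : 0 < N) (i j k : Fin n) (b : Fin n → V) (b₀ : V)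
    (h : ¬ ((∀ u, b u = 0) ∧ b₀ = 0)) (h' : ¬ ∃ c : V, c ≠ 0 ∧ ∀ u, b u = tri i j k u • c) :
    ∀ᶠ t : ℕ in atTop, ∑ u, (pe' N t i j k u : ℝ) • b u + b₀ ≠ 0 := by
  refine (pe_neV N hN (fun u => b u + tri i j k u • b k) b₀ ?_).mono fun t ht => ?_
  · rintro ⟨h1, h2⟩
    by_cases h3 : b k = 0
    · exact h ⟨fun u => by simpa [h3] using h1 u, h2⟩
    · refine h' ⟨-b k, neg_ne_zero.2 h3, fun u => ?_⟩
      rw [smul_neg]
      exact eq_neg_of_add_eq_zero_left (h1 u)
  · rw [pe'_sum]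
    exact ht

end vector

end Pool.Agent.H72.Hash
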