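import Pool.Agent.H72.Hash.Bound

set_option autoImplicit false
set_option linter.unusedSectionVars false

/-! # Small numbers: the signs -/

namespace Pool.Agent.H72.Hash

open Filter Finset Pool.Agent.K4H88.Ter

variable {n m : ℕ} {V : Type} [AddCommGroup V] [Module ℝ V]

/-- the parameters (`a = (ε, δ, β, α)`) are so large that the signs of the combinations with
coefficients at most `K` are decided lexicographically, for perturbations at most `2 R` -/
def Par (K n R : ℤ) (a : ℕ × ℕ × ℕ × ℕ) : Prop :=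
  6 * K * R + K < a.1 ∧ 12 * K * n ^ 2 * a.1 + 6 * K * R + K < a.2.1 ∧
  3 * K * n * a.2.1 + 12 * K * n ^ 2 * a.1 + 6 * K * R + K < a.2.2.1 ∧
  3 * K * a.2.2.1 + 3 * K * n * a.2.1 + 12 * K * n ^ 2 * a.1 + 6 * K * R + K < a.2.2.2

theorem dom (X P r d q : ℤ) (hX : X ≠ 0) (h : |r| + |d| < P) (hq : 1 ≤ q) :
    SignType.sign (q * (X * P + r) + d) = SignType.sign X := by
  have h1 := abs_nonneg r
  have h2 := abs_nonneg d
  have h3 := neg_abs_le r
  have h4 := le_abs_self r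
  have h5 := neg_abs_le d
  have h6 := le_abs_self d
  rcases lt_or_gt_of_ne hX with h7 | h7
  · rw [sign_neg h7]
    apply sign_neg
    have h8 : X * P ≤ -P := by nlinarith
    have h9 : X * P + r < -|d| := by linarith
    nlinarith
  · rw [sign_pos h7]
    apply sign_pos
    have h8 : P ≤ X * P := by nlinarith
    have h9 : |d| < X * P + r := by linarith
    nlinarith

theorem abs_sum3 (c z : Fin 3 → ℤ) (K Z : ℤ) (hc : ∀ i, |c i| ≤ K) (hz : ∀ i, |z i| ≤ Z) :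
    |∑ i, c i * z i| ≤ 3 * K * Z := by
  have hK : 0 ≤ K := (abs_nonneg _).trans (hc 0)
  calc |∑ i, c i * z i| ≤ ∑ i, |c i * z i| := abs_sum_le_sum_abs _ _
    _ ≤ ∑ _i : Fin 3, K * Z := by
        apply sum_le_sum
        intro i _
        rw [abs_mul]
        exact mul_le_mul (hc i) (hz i) (abs_nonneg _) hK
    _ = 3 * K * Z := by simp; ring

/-- the combination of three values -/
def co (c : Fin 3 → ℤ) (p : Fin 3 → Fin n) (z : Fin n → ℤ) : ℤ := ∑ i, c i * z (p i)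

theorem co_le (c : Fin 3 → ℤ) (p : Fin 3 → Fin n) (z : Fin n → ℤ) (K Z : ℤ) (hc : ∀ i, |c i| ≤ K)
    (hz : ∀ u, |z u| ≤ Z) : |co c p z| ≤ 3 * K * Z := abs_sum3 _ _ _ _ hc fun i => hz (p i)

open Classical in
/-- the sign of a small combination -/
theorem input_sign {K R : ℤ} {a : ℕ × ℕ × ℕ × ℕ} (hP : Par K n R a) (q : ℤ) (hq : 1 ≤ q)
    (e : Fin 3 → ℤ → ℤ) (he : ∀ u : Fin n, |e (kd m u) (ix m u)| ≤ 4 * (n : ℤ) ^ 2)
    (r : Fin n → ℤ) (hr : ∀ u, |r u| ≤ 2 * R) (p : Fin 3 → Fin n) (c : Fin 3 → ℤ) (d : ℤ)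
    (hc : ∀ i, |c i| ≤ K) (hd : |d| ≤ K) :
    SignType.sign (co c p (fun u => q * (inp m e a u + r u)) + d) =
      if co c p (fun u => va (kd m u)) ≠ 0 then SignType.sign (co c p (fun u => va (kd m u)))
      else if co c p (fun u => vb (kd m u)) ≠ 0 then SignType.sign (co c p (fun u => vb (kd m u)))
      else if co c p (fun u => ix m u) ≠ 0 then SignType.sign (co c p (fun u => ix m u))
      else if co c p (fun u => e (kd m u) (ix m u)) ≠ 0 then
        SignType.sign (co c p (fun u => e (kd m u) (ix m u)))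
      else SignType.sign (q * co c p r + d) := by
  obtain ⟨ε, δ, β, α⟩ := a
  obtain ⟨P1, P2, P3, P4⟩ := hP
  simp only at P1 P2 P3 P4
  have hK : 0 ≤ K := (abs_nonneg _).trans hd
  obtain ⟨A, hA⟩ : ∃ A, A = co c p (fun u => va (kd m u)) := ⟨_, rfl⟩
  obtain ⟨B, hB⟩ : ∃ B, B = co c p (fun u => vb (kd m u)) := ⟨_, rfl⟩
  obtain ⟨D, hD⟩ : ∃ D, D = co c p (fun u => ix m u) := ⟨_, rfl⟩
  obtain ⟨E, hE⟩ : ∃ E, E = co c p (fun u => e (kd m u) (ix m u)) := ⟨_, rfl⟩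
  obtain ⟨κ, hκ⟩ : ∃ κ, κ = co c p r := ⟨_, rfl⟩
  have e1 : co c p (fun u => q * (inp m e (ε, δ, β, α) u + r u)) =
      q * (A * α + (B * β + (D * δ + (E * ε + κ)))) := by
    rw [hA, hB, hD, hE, hκ]
    simp only [co, inp, Fin.sum_univ_three]
    ring
  have ixb : ∀ u : Fin n, |ix m u| ≤ (n : ℤ) := by
    intro u
    have := u.2
    unfold ix
    rw [abs_le]
    split_ifs <;> constructor <;> omega
  have vab : ∀ u : Fin n, |va (kd m u)| ≤ 1 := by
    intro u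
    have : ∀ k : Fin 3, |va k| ≤ 1 := by decide
    exact this _
  have vbb : ∀ u : Fin n, |vb (kd m u)| ≤ 1 := by
    intro u
    have : ∀ k : Fin 3, |vb k| ≤ 1 := by decide
    exact this _
  have bB : |B| ≤ 3 * K * 1 := by rw [hB]; exact co_le c p _ K 1 hc vbb
  have bD : |D| ≤ 3 * K * n := by rw [hD]; exact co_le c p _ K n hc ixb
  have bE : |E| ≤ 3 * K * (4 * (n : ℤ) ^ 2) := by rw [hE]; exact co_le c p _ K _ hc he
  have bκ : |κ| ≤ 3 * K * (2 * R) := by rw [hκ]; exact co_le c p _ K _ hc hr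
  rw [e1, ← hA, ← hB, ← hD, ← hE, ← hκ]
  have z1 : |E * ε + κ| ≤ 12 * K * n ^ 2 * ε + 6 * K * R := by
    calc |E * ε + κ| ≤ |E * ε| + |κ| := abs_add_le _ _
      _ = |E| * ε + |κ| := by rw [abs_mul, Nat.abs_cast]
      _ ≤ 3 * K * (4 * (n : ℤ) ^ 2) * ε + 3 * K * (2 * R) := by gcongr
      _ = _ := by ring
  have z2 : |D * δ + (E * ε + κ)| ≤ 3 * K * n * δ + 12 * K * n ^ 2 * ε + 6 * K * R := by
    calc |D * δ + (E * ε + κ)| ≤ |D * δ| + |E * ε + κ| := abs_add_le _ _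
      _ = |D| * δ + |E * ε + κ| := by rw [abs_mul, Nat.abs_cast]
      _ ≤ 3 * K * n * δ + (12 * K * n ^ 2 * ε + 6 * K * R) := by gcongr
      _ = _ := by ring
  have z3 : |B * β + (D * δ + (E * ε + κ))| ≤
      3 * K * β + 3 * K * n * δ + 12 * K * n ^ 2 * ε + 6 * K * R := by
    calc |B * β + (D * δ + (E * ε + κ))| ≤ |B * β| + |D * δ + (E * ε + κ)| := abs_add_le _ _
      _ = |B| * β + |D * δ + (E * ε + κ)| := by rw [abs_mul, Nat.abs_cast]
      _ ≤ 3 * K * 1 * β + (3 * K * n * δ + 12 * K * n ^ 2 * ε + 6 * K * R) := by gcongr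
      _ = _ := by ring
  by_cases h1 : A = 0
  · rw [if_neg (by simp [h1])]
    by_cases h2 : B = 0
    · rw [if_neg (by simp [h2])]
      by_cases h3 : D = 0
      · rw [if_neg (by simp [h3])]
        by_cases h4 : E = 0
        · rw [if_neg (by simp [h4]), h1, h2, h3, h4]
          simp
        · rw [if_pos h4, h1, h2, h3, zero_mul, zero_add, zero_mul, zero_add, zero_mul, zero_add]
          exact dom _ _ _ _ _ h4 (by linarith) hq
      · rw [if_pos h3, h1, h2, zero_mul, zero_add, zero_mul, zero_add]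
        exact dom _ _ _ _ _ h3 (by linarith) hq
    · rw [if_pos h2, h1, zero_mul, zero_add]
      exact dom _ _ _ _ _ h2 (by linarith) hq
  · rw [if_pos h1]
    exact dom _ _ _ _ _ h1 (by linarith) hq

theorem e0_le (h : 4 * m ≤ n + 1) (u : Fin n) : |e0 (kd m u) (ix m u)| ≤ 4 * (n : ℤ) ^ 2 := by
  have hu := u.2
  have hn : (1 : ℤ) ≤ n := by exact_mod_cast (show 1 ≤ n by omega)
  unfold kd ix
  rw [abs_le]
  split_ifs with h1 h2
  · simp only [e0, Matrix.cons_val_zero]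
    constructor <;> nlinarith [show ((u.1 : ℕ) : ℤ) ≤ n by omega, show (0 : ℤ) ≤ (u.1 : ℕ) by omega]
  · simp only [e0, Matrix.cons_val_one, Matrix.cons_val_zero]
    have a1 : (0 : ℤ) ≤ (u.1 : ℤ) - m := by omega
    have a2 : (u.1 : ℤ) - m ≤ n := by omega
    constructor <;> nlinarith
  · simp only [e0, Matrix.cons_val]
    have a1 : (0 : ℤ) ≤ (u.1 : ℤ) - 2 * m := by omega
    have a2 : (u.1 : ℤ) - 2 * m ≤ n := by omega
    constructor <;> nlinarith

theorem sq_le_of (x : ℤ) (N : ℤ) (h1 : -N ≤ x) (h2 : x ≤ N) : x ^ 2 ≤ N ^ 2 := by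
  nlinarith

theorem e1_le (h : 4 * m ≤ n + 1) (τ : Fin m × Fin m) (u : Fin n) :
    |e1 (τ.1 : ℕ) (τ.2 : ℕ) (kd m u) (ix m u)| ≤ 4 * (n : ℤ) ^ 2 := by
  have hu := u.2
  have t1 := τ.1.2
  have t2 := τ.2.2
  unfold kd ix
  rw [abs_le]
  split_ifs with h1 h2
  · simp only [e1, Matrix.cons_val_zero]
    have := sq_le_of ((u.1 : ℤ) - ((τ.1 : ℕ) : ℤ)) n (by omega) (by omega)
    have := sq_nonneg ((u.1 : ℤ) - ((τ.1 : ℕ) : ℤ))
    have := sq_nonneg (n : ℤ)
    constructor <;> linarith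
  · simp only [e1, Matrix.cons_val_one, Matrix.cons_val_zero]
    have := sq_le_of ((u.1 : ℤ) - m - ((τ.2 : ℕ) : ℤ)) n (by omega) (by omega)
    have := sq_nonneg ((u.1 : ℤ) - m - ((τ.2 : ℕ) : ℤ))
    have := sq_nonneg (n : ℤ)
    constructor <;> linarith
  · simp only [e1, Matrix.cons_val]
    have := sq_le_of ((u.1 : ℤ) - 2 * m - ((τ.1 : ℕ) : ℤ) - ((τ.2 : ℕ) : ℤ)) n (by omega) (by omega)
    have := sq_nonneg ((u.1 : ℤ) - 2 * m - ((τ.1 : ℕ) : ℤ) - ((τ.2 : ℕ) : ℤ))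
    have := sq_nonneg (n : ℤ)
    constructor <;> linarith

/-- if the large parts cancel then the perturbations cancel -/
theorem co_noise (c : Fin 3 → ℤ) (p : Fin 3 → Fin n) (r : Fin n → ℤ)
    (h1 : co c p (fun u => va (kd m u)) = 0) (h2 : co c p (fun u => vb (kd m u)) = 0)
    (h3 : co c p (fun u => ix m u) = 0) (h4 : co c p (fun u => e0 (kd m u) (ix m u)) = 0) :
    co c p r = 0 := by
  obtain ⟨d, hd⟩ := solve (m := m) p (fun u => (r u : ℝ))
  have e : ((co c p r : ℤ) : ℝ) = (co c p (fun u => va (kd m u)) : ℤ) * d 0 +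
      (co c p (fun u => vb (kd m u)) : ℤ) * d 1 + (co c p (fun u => ix m u) : ℤ) * d 2 +
      (co c p (fun u => e0 (kd m u) (ix m u)) : ℤ) * d 3 := by
    have q0 := hd 0
    have q1 := hd 1
    have q2 := hd 2
    simp only [at_] at q0 q1 q2
    simp only [co, Fin.sum_univ_three]
    push_cast
    rw [← q0, ← q1, ← q2]
    ring
  rw [h1, h2, h3, h4] at e
  simp only [Int.cast_zero, zero_mul, add_zero] at e
  exact_mod_cast e

/-- the smallest parts have the same signs -/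
theorem co_e1 (h : 4 * m ≤ n + 1) (τ : Fin m × Fin m) (c : Fin 3 → ℤ) (p : Fin 3 → Fin n)
    (hp : univ.image p ≠ target h τ)
    (h1 : co c p (fun u => va (kd m u)) = 0) (h2 : co c p (fun u => vb (kd m u)) = 0)
    (h3 : co c p (fun u => ix m u) = 0) :
    ∃ l : ℝ, 0 < l ∧ ((co c p (fun u => e1 (τ.1 : ℕ) (τ.2 : ℕ) (kd m u) (ix m u)) : ℤ) : ℝ) =
      l * ((co c p (fun u => e0 (kd m u) (ix m u)) : ℤ) : ℝ) := by
  obtain ⟨l, b, hl, hb⟩ := fits_all h τ p hp
  refine ⟨l, hl, ?_⟩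
  have e : ((co c p (fun u => e1 (τ.1 : ℕ) (τ.2 : ℕ) (kd m u) (ix m u)) : ℤ) : ℝ) =
      l * ((co c p (fun u => e0 (kd m u) (ix m u)) : ℤ) : ℝ) +
      (co c p (fun u => va (kd m u)) : ℤ) * b 0 +
      (co c p (fun u => vb (kd m u)) : ℤ) * b 1 + (co c p (fun u => ix m u) : ℤ) * b 2 := by
    have q0 := hb 0
    have q1 := hb 1
    have q2 := hb 2
    unfold Fits at q0 q1 q2
    simp only [co, Fin.sum_univ_three]
    push_cast at q0 q1 q2 ⊢
    rw [q0, q1, q2]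
    ring
  rw [h1, h2, h3] at e
  simpa using e

end Pool.Agent.H72.Hash
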