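import Pool.Agent.H72.Hash.Poly
import Pool.Agent.H72.Hash.Avg

set_option autoImplicit false
set_option linter.unusedSectionVars false

/-! # Small numbers: the inputs -/

namespace Pool.Agent.H72.Hash

open Filter Finset Pool.Agent.K4H88.Ter

variable {n m : ℕ} {V : Type} [AddCommGroup V] [Module ℝ V]

theorem sign_cast (z : ℤ) : SignType.sign (z : ℝ) = SignType.sign z := by
  rcases lt_trichotomy z 0 with h | h | h
  · rw [sign_neg h, sign_neg (by exact_mod_cast h)]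
  · rw [h]; simp
  · rw [sign_pos h, sign_pos (by exact_mod_cast h)]

theorem eval_small (c : Fin 3 → ℤ) (d : ℤ) (p : Fin 3 → Fin n) (x : Fin n → ℤ) :
    MvPolynomial.eval (fun k => (x (p k) : ℝ))
      (∑ i, MvPolynomial.C (c i : ℝ) * MvPolynomial.X i + MvPolynomial.C (d : ℝ)) =
      ((co c p x + d : ℤ) : ℝ) := by
  simp [co]

/-- computations which only make small tests -/
theorem same_small {E : Finset (Fin n)} {X Y : Fin n → ℤ} {K q : ℕ}
    (hs : ∀ (p : Fin 3 → Fin n) (c : Fin 3 → ℤ) (d : ℤ), univ.image p ≠ E → (∀ i, |c i| ≤ K) →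
      |d| ≤ K → SignType.sign (co c p X + d) = SignType.sign (co c p Y + d))
    (hX : ∀ u, (q : ℤ) ∣ X u) (hY : ∀ u, (q : ℤ) ∣ Y u) {k : ℕ} {F : Alg n V k}
    (hF : F.Small K q) : F.Same E X Y := by
  induction F with
  | leaf b => trivial
  | test p r P child ih =>
    refine ⟨fun hp => ?_, fun σ => ih σ (hF.2 σ)⟩
    funext j
    obtain ⟨c, d, hc, hd, hj⟩ := hF.1 j
    simp only [signs]
    rw [hj, eval_small, eval_small, sign_cast, sign_cast]
    exact hs p c d hp hc hd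
  | residues M child ih =>
    refine ⟨fun u => ?_, fun σ => ih σ (hF.2 σ)⟩
    have hd : ((M + 1 : ℕ) : ℤ) ∣ (q : ℤ) := by exact_mod_cast hF.1
    rw [(ZMod.intCast_zmod_eq_zero_iff_dvd _ _).2 (hd.trans (hX u)),
      (ZMod.intCast_zmod_eq_zero_iff_dvd _ _).2 (hd.trans (hY u))]
  | store f child ih => exact fun σ => ih σ (hF σ)

/-- two perturbed inputs without a solution -/
theorem sign_small0 (h : 4 * m ≤ n + 1) {K R R' : ℤ} {a a' : ℕ × ℕ × ℕ × ℕ} (hP : Par K n R a)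
    (hP' : Par K n R' a') (q : ℤ) (hq : 1 ≤ q) (r r' : Fin n → ℤ) (hr : ∀ u, |r u| ≤ 2 * R)
    (hr' : ∀ u, |r' u| ≤ 2 * R') (p : Fin 3 → Fin n) (c : Fin 3 → ℤ) (d : ℤ)
    (hc : ∀ i, |c i| ≤ K) (hd : |d| ≤ K) :
    SignType.sign (co c p (fun u => q * (x0 m a u + r u)) + d) =
      SignType.sign (co c p (fun u => q * (x0 m a' u + r' u)) + d) := by
  have e1 := input_sign hP q hq e0 (e0_le h) r hr p c d hc hd
  have e2 := input_sign hP' q hq e0 (e0_le h) r' hr' p c d hc hd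
  unfold x0
  rw [e1, e2]
  split_ifs with h1 h2 h3 h4
  · rfl
  · rfl
  · rfl
  · rfl
  · push Not at h1 h2 h3 h4
    rw [co_noise c p r h1 h2 h3 h4, co_noise c p r' h1 h2 h3 h4]

/-- an input without a solution, and one with a solution -/
theorem sign_small1 (h : 4 * m ≤ n + 1) (τ : Fin m × Fin m) {K R R' : ℤ} {a a' : ℕ × ℕ × ℕ × ℕ}
    (hP : Par K n R a) (hP' : Par K n R' a') (q : ℤ) (hq : 1 ≤ q) (r r' : Fin n → ℤ)
    (hr : ∀ u, |r u| ≤ 2 * R) (hr' : ∀ u, |r' u| ≤ 2 * R') (p : Fin 3 → Fin n)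
    (hp : univ.image p ≠ target h τ) (c : Fin 3 → ℤ) (d : ℤ)
    (hc : ∀ i, |c i| ≤ K) (hd : |d| ≤ K) :
    SignType.sign (co c p (fun u => q * (x0 m a u + r u)) + d) =
      SignType.sign (co c p (fun u => q * (x1 m τ a' u + r' u)) + d) := by
  have g1 := input_sign hP q hq e0 (e0_le h) r hr p c d hc hd
  have g2 := input_sign hP' q hq (e1 (τ.1 : ℕ) (τ.2 : ℕ)) (e1_le h τ) r' hr' p c d hc hd
  unfold x0 x1
  rw [g1, g2]
  by_cases h1 : co c p (fun u => va (kd m u)) = 0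
  · by_cases h2 : co c p (fun u => vb (kd m u)) = 0
    · by_cases h3 : co c p (fun u => ix m u) = 0
      · obtain ⟨l, hl, hl2⟩ := co_e1 h τ c p hp h1 h2 h3
        by_cases h4 : co c p (fun u => e0 (kd m u) (ix m u)) = 0
        · have h5 : co c p (fun u => e1 (τ.1 : ℕ) (τ.2 : ℕ) (kd m u) (ix m u)) = 0 := by
            rw [h4, Int.cast_zero, mul_zero] at hl2
            exact_mod_cast hl2
          simp only [h1, h2, h3, h4, h5, ne_eq, not_true_eq_false, if_false]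
          rw [co_noise c p r h1 h2 h3 h4, co_noise c p r' h1 h2 h3 h4]
        · have h5 : co c p (fun u => e1 (τ.1 : ℕ) (τ.2 : ℕ) (kd m u) (ix m u)) ≠ 0 := by
            intro h5
            rw [h5, Int.cast_zero] at hl2
            rcases mul_eq_zero.1 hl2.symm with h6 | h6
            · exact hl.ne' h6
            · exact h4 (by exact_mod_cast h6)
          simp only [h1, h2, h3, h4, h5, ne_eq, not_true_eq_false, not_false_eq_true, if_false,
            if_true]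
          rw [← sign_cast, ← sign_cast (co c p (fun u =>
            e1 (τ.1 : ℕ) (τ.2 : ℕ) (kd m u) (ix m u))), hl2, sign_mul, sign_pos hl, one_mul]
      · simp only [h1, h2, h3, ne_eq, not_true_eq_false, not_false_eq_true, if_false, if_true]
    · simp only [h1, h2, ne_eq, not_true_eq_false, not_false_eq_true, if_false, if_true]
  · simp only [h1, ne_eq, not_false_eq_true, if_true]

/-- a small combination with the value zero -/
theorem zero_small {K R : ℤ} {a : ℕ × ℕ × ℕ × ℕ} (hP : Par K n R a) (hK : 1 ≤ K) (q : ℤ)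
    (hq : 1 ≤ q) (e : Fin 3 → ℤ → ℤ) (he : ∀ u : Fin n, |e (kd m u) (ix m u)| ≤ 4 * (n : ℤ) ^ 2)
    (r : Fin n → ℤ) (hr : ∀ u, |r u| ≤ 2 * R) (p : Fin 3 → Fin n) (c : Fin 3 → ℤ)
    (hc : ∀ i, |c i| ≤ 1) (h0 : co c p (fun u => q * (inp m e a u + r u)) = 0) :
    co c p (fun u => va (kd m u)) = 0 ∧ co c p (fun u => vb (kd m u)) = 0 ∧
      co c p (fun u => ix m u) = 0 ∧ co c p (fun u => e (kd m u) (ix m u)) = 0 := by
  have e1 := input_sign hP q hq e he r hr p c 0 (fun i => (hc i).trans hK)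
    (by rw [abs_zero]; linarith)
  rw [h0, add_zero, sign_zero] at e1
  split_ifs at e1 with h1 h2 h3 h4
  · exact absurd e1.symm (by rw [sign_eq_zero_iff]; exact h1)
  · exact absurd e1.symm (by rw [sign_eq_zero_iff]; exact h2)
  · exact absurd e1.symm (by rw [sign_eq_zero_iff]; exact h3)
  · exact absurd e1.symm (by rw [sign_eq_zero_iff]; exact h4)
  · push Not at h1 h2 h3 h4
    exact ⟨h1, h2, h3, h4⟩

theorem inj_small {K R : ℤ} {a : ℕ × ℕ × ℕ × ℕ} (hP : Par K n R a) (hK : 1 ≤ K) (q : ℤ)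
    (hq : 1 ≤ q) (e : Fin 3 → ℤ → ℤ) (he : ∀ u : Fin n, |e (kd m u) (ix m u)| ≤ 4 * (n : ℤ) ^ 2)
    (r : Fin n → ℤ) (hr : ∀ u, |r u| ≤ 2 * R) :
    Function.Injective (fun u => q * (inp m e a u + r u)) := by
  intro u v huv
  have huv' : q * (inp m e a u + r u) = q * (inp m e a v + r v) := huv
  obtain ⟨h1, h2, h3, -⟩ := zero_small hP hK q hq e he r hr ![u, v, v] ![1, -1, 0]
    (by intro i; fin_cases i <;> simp) (by
      simp only [co, Fin.sum_univ_three, Matrix.cons_val_zero, Matrix.cons_val_one,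
        Matrix.cons_val]
      linarith)
  simp only [co, Fin.sum_univ_three, Matrix.cons_val_zero, Matrix.cons_val_one,
    Matrix.cons_val] at h1 h2 h3
  exact kd_ix_inj (m := m) (kinds2 (by linarith) (by linarith)) (by linarith)

theorem sol_small {K R : ℤ} {a : ℕ × ℕ × ℕ × ℕ} (hP : Par K n R a) (hK : 1 ≤ K) (q : ℤ)
    (hq : 1 ≤ q) (e : Fin 3 → ℤ → ℤ) (he : ∀ u : Fin n, |e (kd m u) (ix m u)| ≤ 4 * (n : ℤ) ^ 2)
    (r : Fin n → ℤ) (hr : ∀ u, |r u| ≤ 2 * R) (u v w : Fin n)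
    (hs : q * (inp m e a u + r u) + q * (inp m e a v + r v) = q * (inp m e a w + r w)) :
      ((kd m u = 0 ∧ kd m v = 1 ∧ kd m w = 2) ∨ (kd m u = 1 ∧ kd m v = 0 ∧
      kd m w = 2)) ∧ ix m u + ix m v = ix m w ∧
      e (kd m u) (ix m u) + e (kd m v) (ix m v) = e (kd m w) (ix m w) := by
  obtain ⟨h1, h2, h3, h4⟩ := zero_small hP hK q hq e he r hr ![u, v, w] ![1, 1, -1]
    (by intro i; fin_cases i <;> simp) (by
      simp only [co, Fin.sum_univ_three, Matrix.cons_val_zero, Matrix.cons_val_one,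
        Matrix.cons_val]
      linarith)
  simp only [co, Fin.sum_univ_three, Matrix.cons_val_zero, Matrix.cons_val_one,
    Matrix.cons_val] at h1 h2 h3 h4
  exact ⟨kinds (by linarith) (by linarith), by linarith, by linarith⟩

theorem noSol_of {X : Fin n → ℤ} (ha : ∀ u v w, X u + X v = X w →
      ((kd m u = 0 ∧ kd m v = 1 ∧ kd m w = 2) ∨ (kd m u = 1 ∧ kd m v = 0 ∧
      kd m w = 2)) ∧ ix m u + ix m v = ix m w ∧
      e0 (kd m u) (ix m u) + e0 (kd m v) (ix m v) = e0 (kd m w) (ix m w)) : ¬ HasSum3 X := by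
  rintro ⟨u, v, w, -, -, -, h⟩
  obtain ⟨h1, h2, h3⟩ := ha u v w h
  rcases h1 with ⟨a1, a2, a3⟩ | ⟨a1, a2, a3⟩
  · rw [a1, a2, a3, ← h2] at h3
    simp only [e0, Matrix.cons_val_zero, Matrix.cons_val_one, Matrix.cons_val] at h3
    nlinarith [sq_nonneg (ix m u - ix m v), sq_nonneg (ix m u + ix m v)]
  · rw [a1, a2, a3, ← h2] at h3
    simp only [e0, Matrix.cons_val_zero, Matrix.cons_val_one, Matrix.cons_val] at h3
    nlinarith [sq_nonneg (ix m u - ix m v), sq_nonneg (ix m u + ix m v)]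

theorem oneSol_of (h : 4 * m ≤ n + 1) (τ : Fin m × Fin m) {X : Fin n → ℤ}
    (ha : ∀ u v w, X u + X v = X w →
      ((kd m u = 0 ∧ kd m v = 1 ∧ kd m w = 2) ∨ (kd m u = 1 ∧ kd m v = 0 ∧
      kd m w = 2)) ∧ ix m u + ix m v = ix m w ∧
      e1 (τ.1 : ℕ) (τ.2 : ℕ) (kd m u) (ix m u) + e1 (τ.1 : ℕ) (τ.2 : ℕ) (kd m v) (ix m v) =
        e1 (τ.1 : ℕ) (τ.2 : ℕ) (kd m w) (ix m w)) : AtMostOne X := by
  have key : ∀ u v w : Fin n, IsSol X u v w → w = posC h τ ∧
      ((u = posA h τ ∧ v = posB h τ) ∨ (u = posB h τ ∧ v = posA h τ)) := by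
    rintro u v w ⟨-, -, -, h0⟩
    obtain ⟨h1, h2, h3⟩ := ha u v w h0
    have aux : ∀ i j k i₀ j₀ : ℤ, i + j = k →
        4 * (i - i₀) ^ 2 + 4 * (j - j₀) ^ 2 = (k - i₀ - j₀) ^ 2 → i = i₀ ∧ j = j₀ ∧ k = i₀ + j₀ := by
      intro i j k i₀ j₀ hk hq
      rw [← hk] at hq
      have h5 : 2 * ((i - i₀) ^ 2 + (j - j₀) ^ 2) + ((i - i₀) - (j - j₀)) ^ 2 = 0 := by linarith
      have h6 : (i - i₀) ^ 2 = 0 := by
        nlinarith [sq_nonneg (i - i₀), sq_nonneg (j - j₀), sq_nonneg ((i - i₀) - (j - j₀))]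
      have h7 : (j - j₀) ^ 2 = 0 := by
        nlinarith [sq_nonneg (i - i₀), sq_nonneg (j - j₀), sq_nonneg ((i - i₀) - (j - j₀))]
      have h8 : i - i₀ = 0 := by simpa using h6
      have h9 : j - j₀ = 0 := by simpa using h7
      exact ⟨by linarith, by linarith, by linarith⟩
    rcases h1 with ⟨a1, a2, a3⟩ | ⟨a1, a2, a3⟩
    · rw [a1, a2, a3] at h3
      simp only [e1, Matrix.cons_val_zero, Matrix.cons_val_one, Matrix.cons_val] at h3
      obtain ⟨h4, h5, h6⟩ := aux _ _ _ _ _ h2 h3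
      exact ⟨kd_ix_inj (m := m) (by rw [a3, (kdC h τ).1]) (by rw [h6, (kdC h τ).2]),
        Or.inl ⟨kd_ix_inj (m := m) (by rw [a1, (kdA h τ).1]) (by rw [h4, (kdA h τ).2]),
          kd_ix_inj (m := m) (by rw [a2, (kdB h τ).1]) (by rw [h5, (kdB h τ).2])⟩⟩
    · rw [a1, a2, a3] at h3
      simp only [e1, Matrix.cons_val_zero, Matrix.cons_val_one, Matrix.cons_val] at h3
      obtain ⟨h4, h5, h6⟩ := aux (ix m v) (ix m u) (ix m w) (τ.1 : ℕ) (τ.2 : ℕ) (by linarith)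
        (by linarith)
      exact ⟨kd_ix_inj (m := m) (by rw [a3, (kdC h τ).1]) (by rw [h6, (kdC h τ).2]),
        Or.inr ⟨kd_ix_inj (m := m) (by rw [a1, (kdB h τ).1]) (by rw [h5, (kdB h τ).2]),
          kd_ix_inj (m := m) (by rw [a2, (kdA h τ).1]) (by rw [h4, (kdA h τ).2])⟩⟩
  intro i j k i' j' k' h1 h2
  obtain ⟨b1, b2⟩ := key i j k h1
  obtain ⟨b3, b4⟩ := key i' j' k' h2
  refine ⟨b1.trans b3.symm, ?_⟩
  rcases b2 with ⟨b2, b2'⟩ | ⟨b2, b2'⟩ <;> rcases b4 with ⟨b4, b4'⟩ | ⟨b4, b4'⟩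
  · exact Or.inl ⟨b2.trans b4.symm, b2'.trans b4'.symm⟩
  · exact Or.inr ⟨b2.trans b4'.symm, b2'.trans b4.symm⟩
  · exact Or.inr ⟨b2.trans b4'.symm, b2'.trans b4.symm⟩
  · exact Or.inl ⟨b2.trans b4.symm, b2'.trans b4'.symm⟩

end Pool.Agent.H72.Hash
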