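import Pool.Agent.H72.Hash.Poly2

set_option autoImplicit false
set_option linter.unusedSectionVars false

/-! # Small numbers: the lower bound -/

namespace Pool.Agent.H72.Hash

open Filter Finset Pool.Agent.K4H88.Ter

variable {n m : ℕ} {V : Type} [AddCommGroup V] [Module ℝ V]

theorem par_ev (K n R : ℤ) : ∀ᶠ a in L, Par K n R a := by
  have key : ∀ z : ℤ, ∀ᶠ t : ℕ in atTop, z < (t : ℤ) := fun z =>
    (tendsto_natCast_atTop_atTop (R := ℤ)).eventually_gt_atTop z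
  rw [ev_L]
  filter_upwards [key (6 * K * R + K)] with ε h1
  filter_upwards [key (12 * K * n ^ 2 * ε + 6 * K * R + K)] with δ h2
  filter_upwards [key (3 * K * n * δ + 12 * K * n ^ 2 * ε + 6 * K * R + K)] with β h3
  filter_upwards [key (3 * K * β + 3 * K * n * δ + 12 * K * n ^ 2 * ε + 6 * K * R + K)] with α h4
  exact ⟨h1, h2, h3, h4⟩

/-- the value of a difference of forms at `q (y + r)` -/
theorem scale_val (q : ℕ) (y r : Fin n → ℤ) (b : Fin n → V) (b₀ : V) :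
    ∑ u, (((q : ℤ) * (y u + r u) : ℤ) : ℝ) • b u + b₀ =
      ∑ u, ((y u + r u : ℤ) : ℝ) • ((q : ℝ) • b u) + b₀ := by
  congr 1
  apply sum_congr rfl
  intro u _
  rw [smul_smul]
  congr 1
  push_cast
  ring

/-- a reference input, at which the forms in a finite set have different values -/
theorem exists_ref (K : ℤ) (q : ℕ) (hq : 1 ≤ q) (S : Finset (Form n V)) :
    ∃ (R : ℤ) (a : ℕ × ℕ × ℕ × ℕ) (r : Fin n → ℤ), Par K n R a ∧ (∀ u, |r u| ≤ 2 * R) ∧
      ∀ f ∈ S, ∀ g ∈ S, f.val (fun u => (q : ℤ) * (x0 m a u + r u)) =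
        g.val (fun u => (q : ℤ) * (x0 m a u + r u)) → f = g := by
  have hq0 : (q : ℝ) ≠ 0 := by
    have : 0 < q := hq
    positivity
  have ht : ∀ᶠ t : ℕ in atTop, ∀ f ∈ S, ∀ g ∈ S, f ≠ g →
      ∑ u, (pe 1 t u : ℝ) • ((q : ℝ) • (f.1 u - g.1 u)) + (f.2 - g.2) ≠ 0 := by
    rw [eventually_all_finset]
    intro f _
    rw [eventually_all_finset]
    intro g _
    by_cases hfg : f = g
    · exact Eventually.of_forall fun t h1 => absurd hfg h1
    · have := pe_neV 1 one_pos (fun u => (q : ℝ) • (f.1 u - g.1 u)) (f.2 - g.2) (by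
        rintro ⟨h1, h2⟩
        apply hfg
        rw [form_eq]
        refine ⟨fun u => ?_, h2⟩
        rcases smul_eq_zero.1 (h1 u) with h3 | h3
        · exact absurd h3 hq0
        · exact h3)
      exact this.mono fun t ht _ => ht
  obtain ⟨t, ht⟩ := ht.exists
  have hb : ∀ u : Fin n, |pe 1 t u| ≤ 2 * ∑ u : Fin n, |pe 1 t u| := by
    intro u
    have h1 : |pe 1 t u| ≤ ∑ u : Fin n, |pe 1 t u| :=
      single_le_sum (f := fun u => |pe 1 t u|) (fun v _ => abs_nonneg _) (mem_univ u)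
    have h2 : 0 ≤ ∑ u : Fin n, |pe 1 t u| := sum_nonneg fun v _ => abs_nonneg _
    linarith
  have ha : ∀ᶠ a in L, ∀ f ∈ S, ∀ g ∈ S, f ≠ g →
      ∑ u, ((inp m e0 a u + pe 1 t u : ℤ) : ℝ) • ((q : ℝ) • (f.1 u - g.1 u)) + (f.2 - g.2) ≠ 0 := by
    rw [eventually_all_finset]
    intro f hf
    rw [eventually_all_finset]
    intro g hg
    by_cases hfg : f = g
    · exact Eventually.of_forall fun t h1 => absurd hfg h1
    · exact (form_neV (m := m) e0 (pe 1 t) _ _ (ht f hf g hg hfg)).mono fun a ha _ => ha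
  obtain ⟨a, a1, a2⟩ := L_exists ((par_ev K n (∑ u : Fin n, |pe 1 t u|)).and ha)
  refine ⟨_, a, pe 1 t, a1, hb, fun f hf g hg hfg => ?_⟩
  by_contra hne
  apply a2 f hf g hg hne
  rw [val_sub, scale_val] at hfg
  exact hfg

/-- exchanging the number at the place `k` -/
def ch (r : Fin n → ℤ) (i j k : Fin n) (u : Fin n) : ℤ := if u = k then r i + r j else r u

theorem ch_sum (r : Fin n → ℤ) (i j k : Fin n) (b : Fin n → V) :
    ∑ u, (ch r i j k u : ℝ) • b u = ∑ u, (r u : ℝ) • (b u + tri i j k u • b k) := by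
  have e1 : ∀ u, (ch r i j k u : ℝ) • b u = (r u : ℝ) • b u +
      (if u = k then ((r i : ℝ) + r j - r k) • b k else 0) := by
    intro u
    unfold ch
    by_cases h : u = k
    · subst h
      simp only [if_true, ← add_smul]
      congr 1
      push_cast
      ring
    · simp [h]
  have e2 : ∀ u, (r u : ℝ) • (b u + tri i j k u • b k) = (r u : ℝ) • b u +
      ((if u = i then (r i : ℝ) • b k else 0) + (if u = j then (r j : ℝ) • b k else 0) -
      (if u = k then (r k : ℝ) • b k else 0)) := by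
    intro u
    unfold tri
    have a1 : (if u = i then (r i : ℝ) • b k else 0) =
        ((r u : ℝ) * (if u = i then 1 else 0)) • b k := by
      split_ifs with h
      · rw [h, mul_one]
      · rw [mul_zero, zero_smul]
    have a2 : (if u = j then (r j : ℝ) • b k else 0) =
        ((r u : ℝ) * (if u = j then 1 else 0)) • b k := by
      split_ifs with h
      · rw [h, mul_one]
      · rw [mul_zero, zero_smul]
    have a3 : (if u = k then (r k : ℝ) • b k else 0) =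
        ((r u : ℝ) * (if u = k then 1 else 0)) • b k := by
      split_ifs with h
      · rw [h, mul_one]
      · rw [mul_zero, zero_smul]
    rw [a1, a2, a3, smul_add, smul_smul, ← add_smul, ← sub_smul]
    congr 2
    ring
  simp only [e1, e2, sum_add_distrib, sum_sub_distrib, sum_ite_eq', mem_univ, if_true]
  rw [← add_smul, ← sub_smul]

/-- the perturbation -/
def no {R : ℕ} (ρ : Fin n → Fin R) (u : Fin n) : ℤ := ((ρ u : ℕ) : ℤ)

theorem no_le {R : ℕ} (ρ : Fin n → Fin R) (u : Fin n) : 0 ≤ no ρ u ∧ no ρ u ≤ R := by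
  have := (ρ u).2
  unfold no
  omega

open Classical in
/-- two different forms have the same value for few perturbations -/
theorem few0 {R : ℕ} (q : ℕ) (hq : 1 ≤ q) (y : Fin n → ℤ) (f g : Form n V) (hfg : f ≠ g) :
    R * (univ.filter fun ρ : Fin n → Fin R => f.val (fun u => (q : ℤ) * (y u + no ρ u)) =
      g.val (fun u => (q : ℤ) * (y u + no ρ u))).card ≤ Fintype.card (Fin n → Fin R) := by
  have hq0 : (q : ℝ) ≠ 0 := by
    have : 0 < q := hq
    positivity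
  have h1 := few_bad (R := R) (fun u => (q : ℝ) • (f.1 u - g.1 u))
    (∑ u, (y u : ℝ) • ((q : ℝ) • (f.1 u - g.1 u)) + (f.2 - g.2)) (by
      rintro ⟨h1, h2⟩
      apply hfg
      rw [form_eq]
      refine ⟨fun u => ?_, ?_⟩
      · rcases smul_eq_zero.1 (h1 u) with h3 | h3
        · exact absurd h3 hq0
        · exact h3
      · simpa [h1] using h2)
  refine le_trans (Nat.mul_le_mul_left R (card_le_card ?_)) h1
  intro ρ hρ
  rw [mem_filter] at hρ ⊢
  refine ⟨mem_univ _, ?_⟩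
  have h2 := (val_sub f g _).1 hρ.2
  rw [scale_val] at h2
  rw [← h2]
  simp only [no, Int.cast_add, add_smul, sum_add_distrib, Int.cast_natCast]
  abel

open Classical in
theorem few1 {R : ℕ} (q : ℕ) (hq : 1 ≤ q) (y : Fin n → ℤ) (i j k : Fin n) (f g : Form n V)
    (hfg : f ≠ g) (hd : ¬ Diff i j k f g) :
    R * (univ.filter fun ρ : Fin n → Fin R => f.val (fun u => (q : ℤ) * (y u + ch (no ρ) i j k u)) =
      g.val (fun u => (q : ℤ) * (y u + ch (no ρ) i j k u))).card ≤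
        Fintype.card (Fin n → Fin R) := by
  have hq0 : (q : ℝ) ≠ 0 := by
    have : 0 < q := hq
    positivity
  have h1 := few_bad (R := R)
    (fun u => (q : ℝ) • (f.1 u - g.1 u) + tri i j k u • ((q : ℝ) • (f.1 k - g.1 k)))
    (∑ u, (y u : ℝ) • ((q : ℝ) • (f.1 u - g.1 u)) + (f.2 - g.2)) (by
      rintro ⟨h1, h2⟩
      have h3 : ∀ u, f.1 u - g.1 u = tri i j k u • (-(f.1 k - g.1 k)) := by
        intro u
        have h4 := h1 u
        rw [smul_comm, ← smul_add] at h4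
        rcases smul_eq_zero.1 h4 with h5 | h5
        · exact absurd h5 hq0
        · rw [smul_neg]
          exact eq_neg_of_add_eq_zero_left h5
      by_cases h5 : f.1 k - g.1 k = 0
      · have h6 : ∀ u, f.1 u - g.1 u = 0 := by
          intro u
          rw [h3 u, h5, neg_zero, smul_zero]
        apply hfg
        rw [form_eq]
        refine ⟨h6, ?_⟩
        simpa [h6] using h2
      · exact hd ⟨_, neg_ne_zero.2 h5, h3⟩)
  refine le_trans (Nat.mul_le_mul_left R (card_le_card ?_)) h1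
  intro ρ hρ
  rw [mem_filter] at hρ ⊢
  refine ⟨mem_univ _, ?_⟩
  have h2 := (val_sub f g _).1 hρ.2
  rw [scale_val] at h2
  rw [← h2]
  have h3 := ch_sum (no ρ) i j k (fun u => (q : ℝ) • (f.1 u - g.1 u))
  simp only [Int.cast_add, add_smul, sum_add_distrib]
  rw [h3]
  simp only [no, Int.cast_natCast]
  abel

open Classical in
/-- union bound -/
theorem few_list {P : Type} [Fintype P] {Fm : Type} (R : ℕ) (Q : Fm → Fm → P → Prop)
    (hQ : ∀ f g, R * (univ.filter fun ρ => Q f g ρ).card ≤ Fintype.card P) (l : List Fm) (c : ℕ)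
    (hl : l.length ≤ c) :
    R * (univ.filter fun ρ => ∃ f ∈ l, ∃ g ∈ l, Q f g ρ).card ≤ c ^ 2 * Fintype.card P := by
  have h1 : (univ.filter fun ρ => ∃ f ∈ l, ∃ g ∈ l, Q f g ρ) ⊆
      (l.toFinset ×ˢ l.toFinset).biUnion fun s => univ.filter fun ρ => Q s.1 s.2 ρ := by
    intro ρ hρ
    rw [mem_filter] at hρ
    obtain ⟨-, f, hf, g, hg, hfg⟩ := hρ
    rw [mem_biUnion]
    exact ⟨(f, g), mem_product.2 ⟨by simpa using hf, by simpa using hg⟩,
      mem_filter.2 ⟨mem_univ _, hfg⟩⟩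
  calc R * (univ.filter fun ρ => ∃ f ∈ l, ∃ g ∈ l, Q f g ρ).card ≤
      R * ∑ s ∈ l.toFinset ×ˢ l.toFinset, (univ.filter fun ρ => Q s.1 s.2 ρ).card :=
        Nat.mul_le_mul_left R ((card_le_card h1).trans card_biUnion_le)
    _ = ∑ s ∈ l.toFinset ×ˢ l.toFinset, R * (univ.filter fun ρ => Q s.1 s.2 ρ).card := mul_sum _ _ _
    _ ≤ ∑ _s ∈ l.toFinset ×ˢ l.toFinset, Fintype.card P := sum_le_sum fun s _ => hQ s.1 s.2
    _ = (l.toFinset.card * l.toFinset.card) * Fintype.card P := by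
        rw [sum_const, card_product, smul_eq_mul]
    _ ≤ c ^ 2 * Fintype.card P := by
        apply Nat.mul_le_mul_right
        rw [sq]
        exact Nat.mul_le_mul ((List.toFinset_card_le l).trans hl) ((List.toFinset_card_le l).trans hl)

/-- the parameters -/
def par (K n R : ℕ) : ℕ × ℕ × ℕ × ℕ :=
  (7 * K * (R + 1), 13 * K * n ^ 2 * (7 * K * (R + 1)),
    4 * K * n * (13 * K * n ^ 2 * (7 * K * (R + 1))),
    4 * K * (4 * K * n * (13 * K * n ^ 2 * (7 * K * (R + 1)))))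

theorem par_par {K n R : ℕ} (hK : 1 ≤ K) (hn : 1 ≤ n) : Par K n R (par K n R) := by
  obtain ⟨ε, hε⟩ : ∃ ε, ε = 7 * K * (R + 1) := ⟨_, rfl⟩
  obtain ⟨δ, hδ⟩ : ∃ δ, δ = 13 * K * n ^ 2 * ε := ⟨_, rfl⟩
  obtain ⟨β, hβ⟩ : ∃ β, β = 4 * K * n * δ := ⟨_, rfl⟩
  obtain ⟨α, hα⟩ : ∃ α, α = 4 * K * β := ⟨_, rfl⟩
  have e : par K n R = (ε, δ, β, α) := by
    rw [hα, hβ, hδ, hε]; rfl
  have h1 : 6 * K * R + K < ε := by
    rw [hε]; nlinarith
  have k1 : 1 ≤ K * n ^ 2 := Nat.one_le_iff_ne_zero.2 (by positivity)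
  have k2 : 1 ≤ K * n := Nat.one_le_iff_ne_zero.2 (by positivity)
  have h2 : 12 * K * n ^ 2 * ε + 6 * K * R + K < δ := by
    have : 1 * ε ≤ K * n ^ 2 * ε := Nat.mul_le_mul_right ε k1
    have : δ = 12 * K * n ^ 2 * ε + K * n ^ 2 * ε := by rw [hδ]; ring
    omega
  have h3 : 3 * K * n * δ + 12 * K * n ^ 2 * ε + 6 * K * R + K < β := by
    have : 1 * δ ≤ K * n * δ := Nat.mul_le_mul_right δ k2
    have : β = 3 * K * n * δ + K * n * δ := by rw [hβ]; ring
    omega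
  have h4 : 3 * K * β + 3 * K * n * δ + 12 * K * n ^ 2 * ε + 6 * K * R + K < α := by
    have : 1 * β ≤ K * β := Nat.mul_le_mul_right β hK
    have : α = 3 * K * β + K * β := by rw [hα]; ring
    omega
  rw [e]
  refine ⟨?_, ?_, ?_, ?_⟩
  · exact_mod_cast h1
  · exact_mod_cast h2
  · exact_mod_cast h3
  · exact_mod_cast h4

/-- the size of the numbers -/
theorem inp_size {K n R : ℕ} (hK : 1 ≤ K) (hn : 1 ≤ n) (e : Fin 3 → ℤ → ℤ)
    (he : ∀ u : Fin n, |e (kd m u) (ix m u)| ≤ 4 * (n : ℤ) ^ 2)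
    (he' : ∀ u : Fin n, -1 ≤ e (kd m u) (ix m u)) (r : Fin n → ℤ)
    (hr : ∀ u, 0 ≤ r u ∧ r u ≤ 2 * R) (u : Fin n) :
    0 < inp m e (par K n R) u + r u ∧
      inp m e (par K n R) u + r u ≤ 1941 * (K : ℤ) ^ 4 * n ^ 3 * (R + 1) := by
  obtain ⟨P1, P2, P3, P4⟩ := par_par (R := R) hK hn
  obtain ⟨⟨ε, δ, β, α⟩, ha⟩ : ∃ a, a = par K n R := ⟨_, rfl⟩
  rw [← ha] at P1 P2 P3 P4 ⊢
  simp only at P1 P2 P3 P4
  have hε : (ε : ℤ) = 7 * K * (R + 1) := by
    have := congrArg (fun a => ((a.1 : ℕ) : ℤ)) ha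
    simpa [par] using this
  have hδ : (δ : ℤ) = 13 * K * n ^ 2 * (7 * K * (R + 1)) := by
    have := congrArg (fun a => ((a.2.1 : ℕ) : ℤ)) ha
    simpa [par] using this
  have hβ : (β : ℤ) = 4 * K * n * (13 * K * n ^ 2 * (7 * K * (R + 1))) := by
    have := congrArg (fun a => ((a.2.2.1 : ℕ) : ℤ)) ha
    simpa [par] using this
  have hα : (α : ℤ) = 4 * K * (4 * K * n * (13 * K * n ^ 2 * (7 * K * (R + 1)))) := by
    have := congrArg (fun a => ((a.2.2.2 : ℕ) : ℤ)) ha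
    simpa [par] using this
  have hKz : (1 : ℤ) ≤ K := by exact_mod_cast hK
  have hnz : (1 : ℤ) ≤ n := by exact_mod_cast hn
  have hRz : (0 : ℤ) ≤ R := by positivity
  have ix0 : 0 ≤ ix m u := by
    unfold ix; split_ifs <;> omega
  have ix1 : ix m u ≤ n := by
    have := u.2
    unfold ix; split_ifs <;> omega
  have ab : (β : ℤ) ≤ va (kd m u) * α + vb (kd m u) * β ∧
      va (kd m u) * α + vb (kd m u) * β ≤ α + β := by
    have hαβ : (β : ℤ) ≤ α := by
      have : 0 ≤ 3 * (K : ℤ) * n * δ + 12 * K * n ^ 2 * ε + 6 * K * R := by positivity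
      nlinarith
    have hβ0 : (0 : ℤ) ≤ β := by positivity
    have : ∀ k : Fin 3, (β : ℤ) ≤ va k * α + vb k * β ∧ va k * α + vb k * β ≤ α + β := by
      intro k
      fin_cases k <;> (simp [va, vb]; try omega)
    exact this _
  have e1 := (abs_le.1 (he u)).2
  have e2 := he' u
  have h1 : 0 ≤ ix m u * (δ : ℤ) := mul_nonneg ix0 (by positivity)
  have h2 : ix m u * (δ : ℤ) ≤ n * δ := mul_le_mul_of_nonneg_right ix1 (by positivity)
  have h3 : -(ε : ℤ) ≤ e (kd m u) (ix m u) * ε := by nlinarith [show (0 : ℤ) ≤ ε by positivity]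
  have h4 : e (kd m u) (ix m u) * (ε : ℤ) ≤ 4 * n ^ 2 * ε :=
    mul_le_mul_of_nonneg_right e1 (by positivity)
  have hεβ : (ε : ℤ) < β := by
    have q1 : (0 : ℤ) ≤ 3 * K * n * δ + 6 * K * R := by positivity
    have q2 : (ε : ℤ) ≤ 12 * K * n ^ 2 * ε := by
      have : (1 : ℤ) ≤ 12 * K * n ^ 2 := by nlinarith [one_le_pow₀ hnz (n := 2)]
      nlinarith [show (0 : ℤ) ≤ ε by positivity]
    linarith
  obtain ⟨r1, r2⟩ := hr u
  simp only [inp]
  refine ⟨by linarith [ab.1], ?_⟩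
  have T : (0 : ℤ) ≤ R + 1 := by linarith
  have k2 : (K : ℤ) ^ 2 ≤ K ^ 4 := pow_le_pow_right₀ hKz (by norm_num)
  have k3 : (K : ℤ) ^ 3 ≤ K ^ 4 := pow_le_pow_right₀ hKz (by norm_num)
  have k1 : (K : ℤ) ≤ K ^ 4 := by
    calc (K : ℤ) = K ^ 1 := (pow_one _).symm
      _ ≤ K ^ 4 := pow_le_pow_right₀ hKz (by norm_num)
  have k0 : (1 : ℤ) ≤ K ^ 4 := one_le_pow₀ hKz
  have n2 : (n : ℤ) ^ 2 ≤ n ^ 3 := pow_le_pow_right₀ hnz (by norm_num)
  have n0 : (1 : ℤ) ≤ n ^ 3 := one_le_pow₀ hnz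
  have c1 : (α : ℤ) = 1456 * (K ^ 4 * (n ^ 3 * (R + 1))) := by rw [hα]; ring
  have c2 : (β : ℤ) ≤ 364 * (K ^ 4 * (n ^ 3 * (R + 1))) := by
    calc (β : ℤ) = 364 * (K ^ 3 * (n ^ 3 * (R + 1))) := by rw [hβ]; ring
      _ ≤ _ := by gcongr
  have c3 : n * (δ : ℤ) ≤ 91 * (K ^ 4 * (n ^ 3 * (R + 1))) := by
    calc n * (δ : ℤ) = 91 * (K ^ 2 * (n ^ 3 * (R + 1))) := by rw [hδ]; ring
      _ ≤ _ := by gcongr
  have c4 : 4 * n ^ 2 * (ε : ℤ) ≤ 28 * (K ^ 4 * (n ^ 3 * (R + 1))) := by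
    calc 4 * n ^ 2 * (ε : ℤ) = 28 * (K * (n ^ 2 * (R + 1))) := by rw [hε]; ring
      _ ≤ _ := by gcongr
  have c5 : 2 * (R : ℤ) ≤ 2 * (K ^ 4 * (n ^ 3 * (R + 1))) := by
    calc 2 * (R : ℤ) ≤ 2 * (1 * (1 * (R + 1))) := by linarith
      _ ≤ _ := by gcongr
  calc _ ≤ (α : ℤ) + β + n * δ + 4 * n ^ 2 * ε + 2 * R := by linarith [ab.2]
    _ ≤ 1456 * (K ^ 4 * (n ^ 3 * (R + 1))) + 364 * (K ^ 4 * (n ^ 3 * (R + 1))) +
        91 * (K ^ 4 * (n ^ 3 * (R + 1))) + 28 * (K ^ 4 * (n ^ 3 * (R + 1))) +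
        2 * (K ^ 4 * (n ^ 3 * (R + 1))) := by linarith
    _ = _ := by ring

end Pool.Agent.H72.Hash
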