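import Pool.Agent.H72.Hash.Poly3

set_option autoImplicit false
set_option linter.unusedSectionVars false

/-! # Small numbers: the lower bound -/

namespace Pool.Agent.H72.Hash

open Filter Finset Pool.Agent.K4H88.Ter

variable {n m : ℕ} {V : Type} [AddCommGroup V] [Module ℝ V]

theorem e0_ge (u : Fin n) : -1 ≤ e0 (kd m u) (ix m u) := by
  have : ∀ (k : Fin 3) (i : ℤ), -1 ≤ e0 k i := by
    intro k i
    fin_cases k
    · show -1 ≤ 4 * i ^ 2
      nlinarith [sq_nonneg i]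
    · show -1 ≤ 4 * i ^ 2
      nlinarith [sq_nonneg i]
    · show -1 ≤ i ^ 2 - 1
      nlinarith [sq_nonneg i]
  exact this _ _

theorem e1_ge (i₀ j₀ : ℤ) (u : Fin n) : -1 ≤ e1 i₀ j₀ (kd m u) (ix m u) := by
  have : ∀ (k : Fin 3) (i : ℤ), -1 ≤ e1 i₀ j₀ k i := by
    intro k i
    fin_cases k
    · show -1 ≤ 4 * (i - i₀) ^ 2
      nlinarith [sq_nonneg (i - i₀)]
    · show -1 ≤ 4 * (i - j₀) ^ 2
      nlinarith [sq_nonneg (i - j₀)]
    · show -1 ≤ (i - i₀ - j₀) ^ 2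
      nlinarith [sq_nonneg (i - i₀ - j₀)]
  exact this _ _

theorem m_pow (hn : 2 ≤ n) (h : 4 * m ≤ n + 1) : 50 * m ^ 4 ≤ n ^ 4 := by
  have h1 : 8 * m ≤ 3 * n := by omega
  have h2 : (8 * m) ^ 4 ≤ (3 * n) ^ 4 := Nat.pow_le_pow_left h1 4
  have h3 : (8 * m) ^ 4 = 4096 * m ^ 4 := by ring
  have h4 : (3 * n) ^ 4 = 81 * n ^ 4 := by ring
  rw [h3, h4] at h2
  omega

open Classical in
/-- **Numbers of polynomial size.** -/
theorem poly_bound (hn : 2 ≤ n) {K q N : ℕ} (hK : 1 ≤ K) (hq : 1 ≤ q)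
    (hN : 6000 * q * K ^ 4 * n ^ 7 ≤ N) {Ω : Type} [Fintype Ω] (μ : Ω → ℝ) (hμ : ∀ ω, 0 ≤ μ ω)
    (hμ1 : ∑ ω, μ ω = 1) (F : Ω → Alg n V 0) (hF : ∀ ω, (F ω).Small K q) (η : ℝ)
    (herr : ∀ x : Fin n → ℤ, Function.Injective x → (∀ u, 0 < x u ∧ x u ≤ N) → AtMostOne x →
      ∑ ω ∈ univ.filter (fun ω => (F ω).eval ![] x ≠ decide (HasSum3 x)), μ ω ≤ η) :
    ∃ x : Fin n → ℤ, Function.Injective x ∧ (∀ u, 0 < x u ∧ x u ≤ N) ∧ ¬ HasSum3 x ∧
      (1 - 2 * η - 1 / 50) * ((n : ℝ) - 2) ^ 2 ≤ 17 * ∑ ω, μ ω * cost (F ω) x := by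
  obtain ⟨m, hm⟩ : ∃ m, m = (n + 1) / 4 := ⟨_, rfl⟩
  have h : 4 * m ≤ n + 1 := by omega
  have hn1 : 1 ≤ n := by omega
  obtain ⟨R, hR⟩ : ∃ R, R = 2 * n ^ 4 := ⟨_, rfl⟩
  have hR0 : 0 < R := by rw [hR]; positivity
  obtain ⟨a, ha⟩ : ∃ a, a = par K n R := ⟨_, rfl⟩
  have hPa : Par K n R a := by rw [ha]; exact par_par hK hn1
  obtain ⟨S, hS⟩ := common_in F fun ω => (F ω).exists_in
  obtain ⟨R', a', r', hPa', hr', hgen⟩ := exists_ref (n := n) (m := m) (V := V) K q hq S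
  have hKz : (1 : ℤ) ≤ K := by exact_mod_cast hK
  have hqz : (1 : ℤ) ≤ q := by exact_mod_cast hq
  -- the inputs
  obtain ⟨X, hX⟩ : ∃ X : Fin n → ℤ, X = fun u => (q : ℤ) * (x0 m a' u + r' u) := ⟨_, rfl⟩
  obtain ⟨Y, hY⟩ : ∃ Y : (Fin n → Fin R) → Fin n → ℤ,
      Y = fun ρ u => (q : ℤ) * (x0 m a u + no ρ u) := ⟨_, rfl⟩
  obtain ⟨Z, hZ⟩ : ∃ Z : Fin m × Fin m → (Fin n → Fin R) → Fin n → ℤ,
      Z = fun τ ρ u => (q : ℤ) * (x1 m τ a u + ch (no ρ) (posA h τ) (posB h τ) (posC h τ) u) :=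
    ⟨_, rfl⟩
  have no2 : ∀ (ρ : Fin n → Fin R) u, |no ρ u| ≤ 2 * (R : ℤ) := by
    intro ρ u
    obtain ⟨h1, h2⟩ := no_le ρ u
    rw [abs_le]
    constructor <;> omega
  have no2' : ∀ (ρ : Fin n → Fin R) u, 0 ≤ no ρ u ∧ no ρ u ≤ 2 * (R : ℤ) := by
    intro ρ u
    obtain ⟨h1, h2⟩ := no_le ρ u
    constructor <;> omega
  have ch2' : ∀ τ (ρ : Fin n → Fin R) u, 0 ≤ ch (no ρ) (posA h τ) (posB h τ) (posC h τ) u ∧
      ch (no ρ) (posA h τ) (posB h τ) (posC h τ) u ≤ 2 * (R : ℤ) := by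
    intro τ ρ u
    obtain ⟨h1, h2⟩ := no_le ρ u
    obtain ⟨h3, h4⟩ := no_le ρ (posA h τ)
    obtain ⟨h5, h6⟩ := no_le ρ (posB h τ)
    unfold ch
    split_ifs <;> constructor <;> omega
  have ch2 : ∀ τ (ρ : Fin n → Fin R) u,
      |ch (no ρ) (posA h τ) (posB h τ) (posC h τ) u| ≤ 2 * (R : ℤ) := by
    intro τ ρ u
    obtain ⟨h1, h2⟩ := ch2' τ ρ u
    rw [abs_le]
    constructor <;> omega
  -- the tests
  have same0 : ∀ ω ρ, (F ω).Same ∅ X (Y ρ) := by
    intro ω ρ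
    apply same_small (K := K) (q := q) _ _ _ (hF ω)
    · intro p c d _ hc hd
      rw [hX, hY]
      exact sign_small0 h hPa' hPa q hqz r' (no ρ) hr' (no2 ρ) p c d hc hd
    · intro u; rw [hX]; exact dvd_mul_right _ _
    · intro u; rw [hY]; exact dvd_mul_right _ _
  have same1 : ∀ ω τ ρ, (F ω).Same (target h τ) X (Z τ ρ) := by
    intro ω τ ρ
    apply same_small (K := K) (q := q) _ _ _ (hF ω)
    · intro p c d hp hc hd
      rw [hX, hZ]
      exact sign_small1 h τ hPa' hPa q hqz r' _ hr' (ch2 τ ρ) p hp c d hc hd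
    · intro u; rw [hX]; exact dvd_mul_right _ _
    · intro u; rw [hZ]; exact dvd_mul_right _ _
  -- the inputs are admissible
  have hbd : 1941 * (K : ℤ) ^ 4 * n ^ 3 * (R + 1) * q ≤ N := by
    have h1 : R + 1 ≤ 3 * n ^ 4 := by
      have : 1 ≤ n ^ 4 := Nat.one_le_pow _ _ (by omega)
      omega
    have h2 : 1941 * K ^ 4 * n ^ 3 * (R + 1) * q ≤ N := by
      calc 1941 * K ^ 4 * n ^ 3 * (R + 1) * q ≤ 1941 * K ^ 4 * n ^ 3 * (3 * n ^ 4) * q := by gcongr
        _ = 5823 * (q * K ^ 4 * n ^ 7) := by ring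
        _ ≤ 6000 * (q * K ^ 4 * n ^ 7) := Nat.mul_le_mul_right _ (by norm_num)
        _ = 6000 * q * K ^ 4 * n ^ 7 := by ring
        _ ≤ N := hN
    exact_mod_cast h2
  have szY : ∀ ρ u, 0 < Y ρ u ∧ Y ρ u ≤ N := by
    intro ρ u
    obtain ⟨h1, h2⟩ := inp_size (m := m) (R := R) hK hn1 e0 (e0_le h) e0_ge (no ρ) (no2' ρ) u
    rw [hY, ha]
    unfold x0
    constructor
    · exact mul_pos (by linarith) h1
    · calc _ ≤ (q : ℤ) * (1941 * (K : ℤ) ^ 4 * n ^ 3 * (R + 1)) :=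
          mul_le_mul_of_nonneg_left h2 (by linarith)
        _ = 1941 * (K : ℤ) ^ 4 * n ^ 3 * (R + 1) * q := by ring
        _ ≤ N := hbd
  have szZ : ∀ τ ρ u, 0 < Z τ ρ u ∧ Z τ ρ u ≤ N := by
    intro τ ρ u
    obtain ⟨h1, h2⟩ := inp_size (m := m) (R := R) hK hn1 (e1 (τ.1 : ℕ) (τ.2 : ℕ)) (e1_le h τ)
      (e1_ge _ _) _ (ch2' τ ρ) u
    rw [hZ, ha]
    unfold x1
    constructor
    · exact mul_pos (by linarith) h1
    · calc _ ≤ (q : ℤ) * (1941 * (K : ℤ) ^ 4 * n ^ 3 * (R + 1)) :=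
          mul_le_mul_of_nonneg_left h2 (by linarith)
        _ = 1941 * (K : ℤ) ^ 4 * n ^ 3 * (R + 1) * q := by ring
        _ ≤ N := hbd
  have injY : ∀ ρ, Function.Injective (Y ρ) := by
    intro ρ
    rw [hY]
    exact inj_small hPa hKz q hqz e0 (e0_le h) (no ρ) (no2 ρ)
  have injZ : ∀ τ ρ, Function.Injective (Z τ ρ) := by
    intro τ ρ
    rw [hZ]
    exact inj_small hPa hKz q hqz (e1 (τ.1 : ℕ) (τ.2 : ℕ)) (e1_le h τ) _ (ch2 τ ρ)
  have noY : ∀ ρ, ¬ HasSum3 (Y ρ) := by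
    intro ρ
    apply noSol_of (m := m)
    intro u v w hs
    rw [hY] at hs
    exact sol_small hPa hKz q hqz e0 (e0_le h) (no ρ) (no2 ρ) u v w hs
  have oneZ : ∀ τ ρ, AtMostOne (Z τ ρ) := by
    intro τ ρ
    apply oneSol_of h τ
    intro u v w hs
    rw [hZ] at hs
    exact sol_small hPa hKz q hqz (e1 (τ.1 : ℕ) (τ.2 : ℕ)) (e1_le h τ) _ (ch2 τ ρ) u v w hs
  have hasZ : ∀ τ ρ, HasSum3 (Z τ ρ) := by
    intro τ ρ
    obtain ⟨h1, h2, h3, h4⟩ := has_sol h τ a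
    refine ⟨posA h τ, posB h τ, posC h τ, h1, h2, h3, ?_⟩
    rw [hZ]
    simp only [ch, h2, h3, if_true, if_false]
    rw [← mul_add, ← h4]
    ring
  -- the table
  obtain ⟨l, hl⟩ : ∃ l : Ω → List (Form n V), l = fun ω => (F ω).forms ![] X := ⟨_, rfl⟩
  obtain ⟨sn, hsn⟩ : ∃ sn : Ω → Fin m × Fin m → Prop, ∀ ω τ, sn ω τ ↔
      (target h τ ∈ (F ω).triples ![] X ∨
        Cov (lins ((F ω).forms ![] X)) (posA h τ) (posB h τ) (posC h τ)) :=
    ⟨_, fun _ _ => Iff.rfl⟩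
  obtain ⟨B0, hB0⟩ : ∃ B0 : Ω → (Fin n → Fin R) → Prop, ∀ ω ρ, B0 ω ρ ↔
      ∃ f ∈ (l ω).take (m ^ 2), ∃ g ∈ (l ω).take (m ^ 2), f ≠ g ∧ f.val (Y ρ) = g.val (Y ρ) :=
    ⟨_, fun _ _ => Iff.rfl⟩
  obtain ⟨B1, hB1⟩ : ∃ B1 : Ω → Fin m × Fin m → (Fin n → Fin R) → Prop, ∀ ω τ ρ, B1 ω τ ρ ↔
      ∃ f ∈ (l ω).take (m ^ 2), ∃ g ∈ (l ω).take (m ^ 2),
        (f ≠ g ∧ ¬ Diff (posA h τ) (posB h τ) (posC h τ) f g) ∧ f.val (Z τ ρ) = g.val (Z τ ρ) :=
    ⟨_, fun _ _ _ => Iff.rfl⟩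
  have hPos : Nonempty (Fin n → Fin R) := ⟨fun _ => ⟨0, hR0⟩⟩
  have hmR : 100 * (m ^ 2) ^ 2 ≤ R := by
    have := m_pow hn h
    rw [hR, ← pow_mul]
    norm_num
    omega
  have count : ∀ c : ℕ, R * c ≤ (m ^ 2) ^ 2 * Fintype.card (Fin n → Fin R) →
      100 * c ≤ Fintype.card (Fin n → Fin R) := by
    intro c hc
    by_contra h1
    push Not at h1
    have h2 : 100 * (R * c) ≤ R * Fintype.card (Fin n → Fin R) := by
      calc 100 * (R * c) ≤ 100 * ((m ^ 2) ^ 2 * Fintype.card (Fin n → Fin R)) :=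
            Nat.mul_le_mul_left _ hc
        _ = (100 * (m ^ 2) ^ 2) * Fintype.card (Fin n → Fin R) := by ring
        _ ≤ R * Fintype.card (Fin n → Fin R) := Nat.mul_le_mul_right _ hmR
    have h3 : R * Fintype.card (Fin n → Fin R) < R * (100 * c) := Nat.mul_lt_mul_of_pos_left h1 hR0
    have h4 : R * (100 * c) = 100 * (R * c) := by ring
    omega
  have hlS : ∀ ω, ∀ f ∈ l ω, f ∈ S := by
    intro ω f hf
    rw [hl] at hf
    exact (hS ω).mem hf
  have eqX : ∀ ω, ∀ f ∈ l ω, ∀ g ∈ l ω, f.val X = g.val X → f = g := by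
    intro ω f hf g hg hfg
    rw [hX] at hfg
    exact hgen f (hlS ω f hf) g (hlS ω g hg) hfg
  obtain ⟨v, hv⟩ : ∃ v : Fin 0 → Form n V, v = ![] := ⟨_, rfl⟩
  have ev : ∀ x : Fin n → ℤ, vals v x = ![] := fun x => Subsingleton.elim _ _
  -- the runs on the inputs without solution
  have runY : ∀ ω ρ, ¬ m ^ 2 < (l ω).length → ¬ B0 ω ρ →
      (F ω).eval ![] (Y ρ) = (F ω).eval ![] X ∧ (F ω).triples ![] (Y ρ) = (F ω).triples ![] X ∧
      (F ω).forms ![] (Y ρ) = (F ω).forms ![] X := by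
    intro ω ρ hlen hb
    rw [hB0, List.take_of_length_le (not_lt.1 hlen)] at hb
    push Not at hb
    have main := Alg.run_eq (E := ∅) (Or.inr rfl) (F ω) (same0 ω ρ) v
      (fun h1 => absurd h1 (by simp)) ?_
    · rw [ev, ev] at main
      exact main
    · rw [ev]
      rintro f (⟨s, rfl⟩ | hf) g (⟨s', rfl⟩ | hg)
      · exact s.elim0
      · exact s.elim0
      · exact s'.elim0
      · have hf' : f ∈ l ω := by rw [hl]; exact hf
        have hg' : g ∈ l ω := by rw [hl]; exact hg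
        constructor
        · intro hfg
          rw [eqX ω f hf' g hg' hfg]
        · intro hfg
          by_cases hne : f = g
          · rw [hne]
          · exact absurd hfg (hb f hf' g hg' hne)
  have longY : ∀ ω ρ, m ^ 2 < (l ω).length → ¬ B0 ω ρ →
      m ^ 2 ≤ ((F ω).forms ![] (Y ρ)).length := by
    intro ω ρ hlen hb
    rw [hB0] at hb
    push Not at hb
    have main := Alg.take_eq (m ^ 2) (F ω) (same0 ω ρ) v ?_
    · rw [ev, ev] at main
      have h1 := congrArg List.length main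
      rw [List.length_take, List.length_take] at h1
      have h2 : (l ω).length = ((F ω).forms ![] X).length := by rw [hl]
      omega
    · rw [ev]
      rintro f (⟨s, rfl⟩ | hf) g (⟨s', rfl⟩ | hg)
      · exact s.elim0
      · exact s.elim0
      · exact s'.elim0
      · have hf' : f ∈ (l ω).take (m ^ 2) := by rw [hl]; exact hf
        have hg' : g ∈ (l ω).take (m ^ 2) := by rw [hl]; exact hg
        constructor
        · intro hfg
          rw [eqX ω f (List.mem_of_mem_take hf') g (List.mem_of_mem_take hg') hfg]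
        · intro hfg
          by_cases hne : f = g
          · rw [hne]
          · exact absurd hfg (hb f hf' g hg' hne)
  -- the runs on the inputs with a solution
  have runZ : ∀ ω τ ρ, ¬ m ^ 2 < (l ω).length → ¬ sn ω τ → ¬ B1 ω τ ρ →
      (F ω).eval ![] (Z τ ρ) = (F ω).eval ![] X := by
    intro ω τ ρ hlen hs hb
    rw [hsn, not_or] at hs
    rw [hB1, List.take_of_length_le (not_lt.1 hlen)] at hb
    push Not at hb
    have main := Alg.run_eq (E := target h τ) (Or.inl (target_card h τ)) (F ω) (same1 ω τ ρ) v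
      (fun _ => by rw [ev]; exact hs.1) ?_
    · rw [ev, ev] at main
      exact main.1
    · rw [ev]
      rintro f (⟨s, rfl⟩ | hf) g (⟨s', rfl⟩ | hg)
      · exact s.elim0
      · exact s.elim0
      · exact s'.elim0
      · have hf' : f ∈ l ω := by rw [hl]; exact hf
        have hg' : g ∈ l ω := by rw [hl]; exact hg
        constructor
        · intro hfg
          rw [eqX ω f hf' g hg' hfg]
        · intro hfg
          by_cases hne : f = g
          · rw [hne]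
          by_cases hd : Diff (posA h τ) (posB h τ) (posC h τ) f g
          · exfalso
            apply hs.2
            obtain ⟨c, hc1, hc2⟩ := hd
            exact ⟨f.1, lins_mem hf, g.1, lins_mem hg, c, hc1, hc2⟩
          · exact absurd hfg (hb f hf' g hg' ⟨hne, hd⟩)
  have hlog : 1 ≤ Real.logb 2 n := by
    rw [Real.le_logb_iff_rpow_le (by norm_num) (by positivity)]
    simpa using (by exact_mod_cast hn : (2 : ℝ) ≤ n)
  obtain ⟨Sn, hSn⟩ : ∃ Sn : Ω → Fin m × Fin m → Prop, ∀ ω τ, Sn ω τ ↔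
      (m ^ 2 < (l ω).length ∨ sn ω τ) := ⟨_, fun _ _ => Iff.rfl⟩
  -- the average
  have avg := average (T := Fin m × Fin m) (P := Fin n → Fin R) μ hμ hμ1 η
    (fun ω ρ => cost (F ω) (Y ρ)) (fun ω ρ => cost_nonneg _ _)
    (fun ω => if m ^ 2 < (l ω).length then ((m : ℝ)) ^ 2 else cost (F ω) X)
    (fun ω => by split_ifs; positivity; exact cost_nonneg _ _) B0 B1 Sn ?_ ?_ ?_ ?_ ?_
  · obtain ⟨ρ, hρ⟩ := avg
    refine ⟨Y ρ, injY ρ, szY ρ, noY ρ, ?_⟩
    have h5 := half hn hm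
    have h6 : 0 ≤ ∑ ω, μ ω * cost (F ω) (Y ρ) :=
      sum_nonneg fun ω _ => mul_nonneg (hμ ω) (cost_nonneg _ _)
    rw [Fintype.card_prod, Fintype.card_fin] at hρ
    push_cast at hρ
    by_cases h7 : 0 ≤ 1 - 2 * η - 1 / 50
    · have h8 := mul_le_mul_of_nonneg_left h5 h7
      nlinarith
    · have h8 : (1 - 2 * η - 1 / 50) * ((n : ℝ) - 2) ^ 2 ≤ 0 :=
        mul_nonpos_of_nonpos_of_nonneg (by linarith) (sq_nonneg _)
      linarith
  · intro ω
    by_cases hlen : m ^ 2 < (l ω).length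
    · rw [if_pos hlen]
      have h1 : (univ.filter fun τ : Fin m × Fin m => Sn ω τ).card ≤
          (univ : Finset (Fin m × Fin m)).card := card_le_card (filter_subset _ _)
      rw [card_univ, Fintype.card_prod, Fintype.card_fin] at h1
      have h2 : ((univ.filter fun τ : Fin m × Fin m => Sn ω τ).card : ℝ) ≤
          ((m * m : ℕ) : ℝ) := by exact_mod_cast h1
      push_cast at h2
      nlinarith
    · rw [if_neg hlen]
      have h1 := seen_le h hn (F ω) X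
      have h2 : univ.filter (fun τ : Fin m × Fin m => Sn ω τ) =
          univ.filter fun τ : Fin m × Fin m => target h τ ∈ (F ω).triples ![] X ∨
          Cov (lins ((F ω).forms ![] X)) (posA h τ) (posB h τ) (posC h τ) :=
        filter_congr fun τ _ => by rw [hSn, hsn]; simp only [hlen, false_or]
      rw [h2]
      exact h1
  · intro ω ρ hb
    split_ifs with hlen
    · have h1 := longY ω ρ hlen hb
      have h2 : ((m : ℝ)) ^ 2 ≤ ((F ω).forms ![] (Y ρ)).length := by exact_mod_cast h1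
      have h3 : (1 : ℝ) ≤ Real.logb 2 n ^ 2 := one_le_pow₀ hlog
      have h4 : (0 : ℝ) ≤ ((F ω).forms ![] (Y ρ)).length := by positivity
      have h5 : (0 : ℝ) ≤ (((F ω).triples ![] (Y ρ)).card : ℝ) := by positivity
      unfold cost
      nlinarith
    · obtain ⟨-, h2, h3⟩ := runY ω ρ hlen hb
      unfold cost
      rw [h2, h3]
  · intro ω
    apply count
    obtain ⟨Q, hQ⟩ : ∃ Q : Form n V → Form n V → (Fin n → Fin R) → Prop, ∀ f g ρ, Q f g ρ ↔
        (f ≠ g ∧ f.val (Y ρ) = g.val (Y ρ)) := ⟨_, fun _ _ _ => Iff.rfl⟩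
    have h1 := few_list R Q ?_ ((l ω).take (m ^ 2)) (m ^ 2) (List.length_take_le _ _)
    · refine le_trans (Nat.mul_le_mul_left R (card_le_card ?_)) h1
      intro ρ hρ
      rw [mem_filter] at hρ ⊢
      obtain ⟨f, hf, g, hg, hfg⟩ := (hB0 ω ρ).1 hρ.2
      exact ⟨mem_univ _, f, hf, g, hg, (hQ f g ρ).2 hfg⟩
    · intro f g
      by_cases hfg : f = g
      · rw [filter_false_of_mem]
        · simp
        · intro ρ _ h2
          exact ((hQ f g ρ).1 h2).1 hfg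
      · refine le_trans (Nat.mul_le_mul_left R (card_le_card ?_))
          (few0 (R := R) q hq (x0 m a) f g hfg)
        intro ρ hρ
        rw [mem_filter] at hρ ⊢
        refine ⟨mem_univ _, ?_⟩
        have := ((hQ f g ρ).1 hρ.2).2
        rw [hY] at this
        exact this
  · intro ω τ
    apply count
    obtain ⟨Q, hQ⟩ : ∃ Q : Form n V → Form n V → (Fin n → Fin R) → Prop, ∀ f g ρ, Q f g ρ ↔
        ((f ≠ g ∧ ¬ Diff (posA h τ) (posB h τ) (posC h τ) f g) ∧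
          f.val (Z τ ρ) = g.val (Z τ ρ)) := ⟨_, fun _ _ _ => Iff.rfl⟩
    have h1 := few_list R Q ?_ ((l ω).take (m ^ 2)) (m ^ 2) (List.length_take_le _ _)
    · refine le_trans (Nat.mul_le_mul_left R (card_le_card ?_)) h1
      intro ρ hρ
      rw [mem_filter] at hρ ⊢
      obtain ⟨f, hf, g, hg, hfg⟩ := (hB1 ω τ ρ).1 hρ.2
      exact ⟨mem_univ _, f, hf, g, hg, (hQ f g ρ).2 hfg⟩
    · intro f g
      by_cases hfg : f ≠ g ∧ ¬ Diff (posA h τ) (posB h τ) (posC h τ) f g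
      · refine le_trans (Nat.mul_le_mul_left R (card_le_card ?_))
          (few1 (R := R) q hq (x1 m τ a) (posA h τ) (posB h τ) (posC h τ) f g hfg.1 hfg.2)
        intro ρ hρ
        rw [mem_filter] at hρ ⊢
        refine ⟨mem_univ _, ?_⟩
        have := ((hQ f g ρ).1 hρ.2).2
        rw [hZ] at this
        exact this
      · rw [filter_false_of_mem]
        · simp
        · intro ρ _ h2
          exact hfg ((hQ f g ρ).1 h2).1
  · intro τ ρ
    have g1 := herr (Y ρ) (injY ρ) (szY ρ) (by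
      intro i j k i' j' k' h1
      exact absurd ⟨i, j, k, h1⟩ (noY ρ))
    have g2 := herr (Z τ ρ) (injZ τ ρ) (szZ τ ρ) (oneZ τ ρ)
    rw [sum_filter] at g1 g2
    have g3 : ∀ ω, μ ω ≤ μ ω * ((if Sn ω τ then (1 : ℝ) else 0) +
        (if B0 ω ρ then (1 : ℝ) else 0) + (if B1 ω τ ρ then (1 : ℝ) else 0)) +
        (if (F ω).eval ![] (Y ρ) ≠ decide (HasSum3 (Y ρ)) then μ ω else 0) +
        (if (F ω).eval ![] (Z τ ρ) ≠ decide (HasSum3 (Z τ ρ)) then μ ω else 0) := by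
      intro ω
      have hω := hμ ω
      have p1 : 0 ≤ (if (F ω).eval ![] (Y ρ) ≠ decide (HasSum3 (Y ρ)) then μ ω else 0) := by
        split_ifs <;> first | exact hω | exact le_rfl
      have p2 : 0 ≤ (if (F ω).eval ![] (Z τ ρ) ≠ decide (HasSum3 (Z τ ρ)) then μ ω else 0) := by
        split_ifs <;> first | exact hω | exact le_rfl
      have p3 : (0 : ℝ) ≤ (if Sn ω τ then (1 : ℝ) else 0) := by
        split_ifs <;> norm_num
      have p4 : (0 : ℝ) ≤ (if B0 ω ρ then (1 : ℝ) else 0) := by split_ifs <;> norm_num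
      have p5 : (0 : ℝ) ≤ (if B1 ω τ ρ then (1 : ℝ) else 0) := by split_ifs <;> norm_num
      by_cases c1 : Sn ω τ
      · rw [if_pos c1]
        nlinarith
      by_cases c2 : B0 ω ρ
      · rw [if_pos c2]
        nlinarith
      by_cases c3 : B1 ω τ ρ
      · rw [if_pos c3]
        nlinarith
      have c1' := c1
      rw [hSn, not_or] at c1'
      have h1 := (runY ω ρ c1'.1 c2).1
      have h2 := runZ ω τ ρ c1'.1 c1'.2 c3
      have d1 : decide (HasSum3 (Y ρ)) = false := by simp [noY ρ]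
      have d2 : decide (HasSum3 (Z τ ρ)) = true := by simp [hasZ τ ρ]
      rw [d1, d2, h1, h2]
      cases (F ω).eval ![] X
      · simp
        nlinarith
      · simp
        nlinarith
    have g4 := sum_le_sum fun ω (_ : ω ∈ (univ : Finset Ω)) => g3 ω
    rw [sum_add_distrib, sum_add_distrib, hμ1] at g4
    linarith

end Pool.Agent.H72.Hash
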