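import Pool.Agent.H72.Hash.Main

set_option autoImplicit false
set_option linter.unusedSectionVars false

/-! # The runs of a computation on the two inputs -/

namespace Pool.Agent.H72.Hash

open Filter Finset Pool.Agent.K4H88.Ter

variable {n m : ℕ} {V : Type} [AddCommGroup V] [Module ℝ V]

/-- the values of the forms -/
noncomputable def vals {k : ℕ} (h : Fin k → Form n V) (x : Fin n → ℤ) : Fin k → V :=
  fun j => (h j).val x

theorem vals_snoc {k : ℕ} (h : Fin k → Form n V) (f : Form n V) (x : Fin n → ℤ) :
    (Fin.snoc (vals h x) (f.val x) : Fin (k + 1) → V) =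
      vals (Fin.snoc h f : Fin (k + 1) → Form n V) x := by
  funext j
  refine Fin.lastCases ?_ (fun i => ?_) j
  · simp [vals]
  · simp [vals]

/-- the tests which do not see exactly the places in `E` have the same outcomes for `x`, `y` -/
def Alg.Same (E : Finset (Fin n)) (x y : Fin n → ℤ) : {k : ℕ} → Alg n V k → Prop
  | _, Alg.leaf _ => True
  | _, Alg.test p _ P child => (univ.image p ≠ E → signs p P x = signs p P y) ∧
      ∀ σ, (child σ).Same E x y
  | _, Alg.residues M child => (∀ u, (x u : ZMod (M + 1)) = (y u : ZMod (M + 1))) ∧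
      ∀ σ, (child σ).Same E x y
  | _, Alg.store _ child => ∀ σ, (child σ).Same E x y

/-- all moduli divide `N` -/
def Alg.Mod (N : ℕ) : {k : ℕ} → Alg n V k → Prop
  | _, Alg.leaf _ => True
  | _, Alg.test _ _ _ child => ∀ σ, (child σ).Mod N
  | _, Alg.residues M child => (M + 1) ∣ N ∧ ∀ σ, (child σ).Mod N
  | _, Alg.store _ child => ∀ σ, (child σ).Mod N

/-- all forms are in `S` -/
def Alg.In (S : Finset (Form n V)) : {k : ℕ} → Alg n V k → Prop
  | _, Alg.leaf _ => True
  | _, Alg.test _ _ _ child => ∀ σ, (child σ).In S
  | _, Alg.residues _ child => ∀ σ, (child σ).In S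
  | _, Alg.store f child => f ∈ S ∧ ∀ σ, (child σ).In S

theorem Alg.Mod.mono {N N' : ℕ} (hN : N ∣ N') {k : ℕ} {F : Alg n V k} (h : F.Mod N) : F.Mod N' := by
  induction F with
  | leaf b => trivial
  | test p r P child ih => exact fun σ => ih σ (h σ)
  | residues M child ih => exact ⟨h.1.trans hN, fun σ => ih σ (h.2 σ)⟩
  | store f child ih => exact fun σ => ih σ (h σ)

theorem common_mod {κ : Type} [Fintype κ] {k : ℕ} (F : κ → Alg n V k)
    (h : ∀ j, ∃ N, 0 < N ∧ (F j).Mod N) : ∃ N, 0 < N ∧ ∀ j, (F j).Mod N := by
  choose N h1 h2 using h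
  exact ⟨∏ j, N j, prod_pos fun j _ => h1 j,
    fun j => (h2 j).mono (dvd_prod_of_mem N (mem_univ j))⟩

theorem Alg.exists_mod {k : ℕ} (F : Alg n V k) : ∃ N, 0 < N ∧ F.Mod N := by
  induction F with
  | leaf b => exact ⟨1, one_pos, trivial⟩
  | test p r P child ih => exact common_mod child ih
  | residues M child ih =>
    obtain ⟨N, h1, h2⟩ := common_mod child ih
    exact ⟨(M + 1) * N, by positivity, dvd_mul_right _ _, fun σ => (h2 σ).mono (dvd_mul_left _ _)⟩
  | store f child ih => exact common_mod child ih

theorem Alg.In.mono {S S' : Finset (Form n V)} (hS : S ⊆ S') {k : ℕ} {F : Alg n V k} (h : F.In S) :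
    F.In S' := by
  induction F with
  | leaf b => trivial
  | test p r P child ih => exact fun σ => ih σ (h σ)
  | residues M child ih => exact fun σ => ih σ (h σ)
  | store f child ih => exact ⟨hS h.1, fun σ => ih σ (h.2 σ)⟩

open Classical in
theorem common_in {κ : Type} [Fintype κ] {k : ℕ} (F : κ → Alg n V k)
    (h : ∀ j, ∃ S, (F j).In S) : ∃ S, ∀ j, (F j).In S := by
  choose S h1 using h
  exact ⟨univ.biUnion S, fun j => (h1 j).mono (subset_biUnion_of_mem S (mem_univ j))⟩

open Classical in
theorem Alg.exists_in {k : ℕ} (F : Alg n V k) : ∃ S, F.In S := by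
  induction F with
  | leaf b => exact ⟨∅, trivial⟩
  | test p r P child ih => exact common_in child ih
  | residues M child ih => exact common_in child ih
  | store f child ih =>
    obtain ⟨S, h⟩ := common_in child ih
    exact ⟨insert f S, mem_insert_self _ _, fun σ => (h σ).mono (subset_insert _ _)⟩

/-- the difference of the linear parts is a nonzero multiple of `x_i + x_j - x_k` -/
def Diff (i j k : Fin n) (f g : Form n V) : Prop := ∃ c : V, c ≠ 0 ∧ ∀ u, f.1 u - g.1 u = tri i j k u • c

open Classical in
/-- The runs of a computation on two inputs are equal, if the tests have the same outcomes for both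
(the test which sees exactly the places in `E` is not made for `x`), and if the same values in the
table are equal. -/
theorem Alg.run_eq {E : Finset (Fin n)} (hc : E.card = 3 ∨ E = ∅) {x y : Fin n → ℤ}
    {k : ℕ} (F : Alg n V k) (h : F.Same E x y) (v : Fin k → Form n V)
    (hE : E.card = 3 → E ∉ F.triples (vals v x) x)
    (hD : ∀ f ∈ (Set.range v ∪ {f | f ∈ F.forms (vals v x) x}),
      ∀ g ∈ (Set.range v ∪ {f | f ∈ F.forms (vals v x) x}), (f.val x = g.val x ↔ f.val y = g.val y)) :
    F.eval (vals v y) y = F.eval (vals v x) x ∧ F.triples (vals v y) y = F.triples (vals v x) x ∧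
      F.forms (vals v y) y = F.forms (vals v x) x := by
  induction F with
  | leaf b => exact ⟨rfl, rfl, rfl⟩
  | @test k p r P child ih =>
    simp only [Alg.Same] at h
    simp only [Alg.triples] at hE
    simp only [Alg.eval, Alg.triples, Alg.forms]
    have hp : univ.image p ≠ E := by
      intro hp
      rcases hc with hc | hc
      · have hE := hE hc
        rw [if_pos (by rw [hp]; exact hc), hp] at hE
        exact hE (mem_insert_self _ _)
      · rw [hc, image_eq_empty] at hp
        exact absurd hp (univ_nonempty.ne_empty)
    rw [← h.1 hp]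
    have hE' : E.card = 3 → E ∉ (child (signs p P x)).triples (vals v x) x := by
      intro hc'
      have hE := hE hc'
      split_ifs at hE with h1
      · exact fun h2 => hE (mem_insert_of_mem h2)
      · exact hE
    obtain ⟨e1, e2, e3⟩ := ih _ (h.2 _) v hE' hD
    exact ⟨e1, by rw [e2], e3⟩
  | residues M child ih =>
    simp only [Alg.Same] at h
    simp only [Alg.triples] at hE
    simp only [Alg.eval, Alg.triples, Alg.forms]
    have e : (fun u => (y u : ZMod (M + 1))) = fun u => (x u : ZMod (M + 1)) :=
      funext fun u => (h.1 u).symm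
    rw [e]
    exact ih _ (h.2 _) v hE hD
  | store f child ih =>
    simp only [Alg.Same] at h
    simp only [Alg.triples] at hE
    simp only [Alg.eval, Alg.triples, Alg.forms]
    have e : (fun s => decide (vals v y s = f.val y)) = fun s => decide (vals v x s = f.val x) := by
      funext s
      rw [decide_eq_decide]
      simp only [vals]
      exact (hD _ (Or.inl ⟨s, rfl⟩) f (Or.inr (by simp [Alg.forms]))).symm
    rw [e, vals_snoc, vals_snoc]
    rw [vals_snoc] at hE
    have key : ∀ g ∈ (Set.range (Fin.snoc v f : Fin _ → Form n V) ∪ {g | g ∈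
        (child fun s => decide (vals v x s = f.val x)).forms
          (vals (Fin.snoc v f : Fin _ → Form n V) x) x}),
        g ∈ (Set.range v ∪ {g | g ∈ (Alg.store f child).forms (vals v x) x}) := by
      rintro g (⟨s, rfl⟩ | hg)
      · refine Fin.lastCases ?_ (fun s => ?_) s
        · right
          simp [Alg.forms]
        · left
          simp
      · right
        simp only [Alg.forms, Set.mem_ofPred_eq, List.mem_cons]
        right
        rw [vals_snoc]
        exact hg
    obtain ⟨e1, e2, e3⟩ := ih _ (h _) (Fin.snoc v f) hE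
      (fun g hg g' hg' => hD g (key g hg) g' (key g' hg'))
    exact ⟨e1, e2, by rw [e3]⟩

open Classical in
/-- the beginnings of the runs -/
theorem Alg.take_eq {x y : Fin n → ℤ} (l : ℕ)
    {k : ℕ} (F : Alg n V k) (h : F.Same ∅ x y) (v : Fin k → Form n V)
    (hD : ∀ f ∈ (Set.range v ∪ {f | f ∈ (F.forms (vals v x) x).take l}),
      ∀ g ∈ (Set.range v ∪ {f | f ∈ (F.forms (vals v x) x).take l}),
        (f.val x = g.val x ↔ f.val y = g.val y)) :
    (F.forms (vals v y) y).take l = (F.forms (vals v x) x).take l := by
  induction F generalizing l with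
  | leaf b => rfl
  | test p r P child ih =>
    simp only [Alg.Same] at h
    simp only [Alg.forms]
    have hp : univ.image p ≠ ∅ := by
      intro hp
      rw [image_eq_empty] at hp
      exact absurd hp (univ_nonempty.ne_empty)
    rw [← h.1 hp]
    exact ih _ _ (h.2 _) v hD
  | residues M child ih =>
    simp only [Alg.Same] at h
    simp only [Alg.forms]
    have e : (fun u => (y u : ZMod (M + 1))) = fun u => (x u : ZMod (M + 1)) :=
      funext fun u => (h.1 u).symm
    rw [e]
    exact ih _ _ (h.2 _) v hD
  | store f child ih =>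
    rcases l with _ | l
    · simp
    simp only [Alg.Same] at h
    simp only [Alg.forms]
    have hf : f ∈ ((Alg.store f child).forms (vals v x) x).take (l + 1) := by
      simp [Alg.forms]
    have e : (fun s => decide (vals v y s = f.val y)) = fun s => decide (vals v x s = f.val x) := by
      funext s
      rw [decide_eq_decide]
      simp only [vals]
      exact (hD _ (Or.inl ⟨s, rfl⟩) f (Or.inr hf)).symm
    rw [e, vals_snoc, vals_snoc, List.take_succ_cons, List.take_succ_cons]
    have key : ∀ g ∈ (Set.range (Fin.snoc v f : Fin _ → Form n V) ∪ {g | g ∈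
        ((child fun s => decide (vals v x s = f.val x)).forms
          (vals (Fin.snoc v f : Fin _ → Form n V) x) x).take l}),
        g ∈ (Set.range v ∪ {g | g ∈ ((Alg.store f child).forms (vals v x) x).take (l + 1)}) := by
      rintro g (⟨s, rfl⟩ | hg)
      · refine Fin.lastCases ?_ (fun s => ?_) s
        · right
          simp [Alg.forms]
        · left
          simp
      · right
        simp only [Alg.forms, Set.mem_ofPred_eq, List.take_succ_cons, List.mem_cons]
        right
        rw [vals_snoc]
        exact hg
    rw [ih _ l (h _) (Fin.snoc v f) (fun g hg g' hg' => hD g (key g hg) g' (key g' hg'))]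

end Pool.Agent.H72.Hash
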